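import Pool.Agent.helper13.WE.Grp

/-!
# Alphabets with involution, tokens, words with variables
-/

namespace Pool.Agent.helper13.WE

open Classical

/-- An alphabet with a fixed point free involution, whose letters have types in `Q`. -/
structure Alpha (Q : Type*) [Monoid Q] [StarMul Q] (Γ : Type*) where
  bar : Γ → Γ
  bar_bar : ∀ c, bar (bar c) = c
  bar_ne : ∀ c, bar c ≠ c
  μ : Γ → Q
  μ_bar : ∀ c, μ (bar c) = star (μ c)
  full : ∀ q, ∃ c, μ c = q

variable {Q : Type*} [Monoid Q] [StarMul Q] {Γ Δ V : Type*}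

namespace Alpha

/-- Type of a word. -/
def μL (A : Alpha Q Γ) (w : List Γ) : Q := (w.map A.μ).prod

variable (A : Alpha Q Γ)

@[simp] theorem μL_nil : A.μL [] = 1 := rfl

theorem μL_append (u v : List Γ) : A.μL (u ++ v) = A.μL u * A.μL v := by simp [μL]

theorem μL_cons (c : Γ) (v : List Γ) : A.μL (c :: v) = A.μ c * A.μL v := by simp [μL]

theorem μL_singleton (c : Γ) : A.μL [c] = A.μ c := by simp [μL]

theorem μL_barL (w : List Γ) : A.μL (barL A.bar w) = star (A.μL w) := by
  induction w with
  | nil => simp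
  | cons c w ih =>
    rw [barL_cons, μL_append, ih, A.μL_singleton, A.μ_bar, A.μL_cons, star_mul]

theorem μL_flatMap (B : Alpha Q Δ) (h : Γ → List Δ) (l : List Γ)
    (hh : ∀ c ∈ l, B.μL (h c) = A.μ c) : B.μL (l.flatMap h) = A.μL l := by
  induction l with
  | nil => simp
  | cons c l ih =>
    rw [List.flatMap_cons, μL_append, hh c (by simp), μL_cons,
      ih (fun d hd => hh d (by simp [hd]))]

end Alpha

/-- A token: a word with two flags. -/
structure Tok (Γ : Type*) where
  w : List Γ
  k : Bool
  o : Bool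

theorem Tok.ext' {s t : Tok Γ} (h1 : s.w = t.w) (h2 : s.k = t.k) (h3 : s.o = t.o) : s = t := by
  cases s; cases t; simp at *; exact ⟨h1, h2, h3⟩

/-- The involution on tokens. -/
noncomputable def barT (f : Γ → Γ) (t : Tok Γ) : Tok Γ :=
  ⟨barL f t.w, t.k, if barL f t.w = t.w then !t.o else t.o⟩

theorem barT_barT (f : Γ → Γ) (hf : ∀ a, f (f a) = a) (t : Tok Γ) : barT f (barT f t) = t := by
  apply Tok.ext'
  · simp [barT, barL_barL f hf]
  · rfl
  · simp only [barT, barL_barL f hf]
    by_cases h : barL f t.w = t.w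
    · simp [h]
    · have h' : ¬ t.w = barL f t.w := fun e => h e.symm
      simp [h, h']

theorem barT_ne (f : Γ → Γ) (t : Tok Γ) : barT f t ≠ t := by
  intro h
  have h1 : barL f t.w = t.w := congrArg Tok.w h
  have h2 : (barT f t).o = t.o := congrArg Tok.o h
  simp [barT, h1] at h2

@[simp] theorem barT_w (f : Γ → Γ) (t : Tok Γ) : (barT f t).w = barL f t.w := rfl
@[simp] theorem barT_k (f : Γ → Γ) (t : Tok Γ) : (barT f t).k = t.k := rfl

/-- The alphabet of tokens. -/
noncomputable def Alpha.tokA (A : Alpha Q Γ) : Alpha Q (Tok Γ) where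
  bar := barT A.bar
  bar_bar := barT_barT A.bar A.bar_bar
  bar_ne := barT_ne A.bar
  μ t := A.μL t.w
  μ_bar t := by rw [barT_w, A.μL_barL]
  full q := by
    obtain ⟨c, hc⟩ := A.full q
    exact ⟨⟨[c], false, false⟩, by simp [Alpha.μL, hc]⟩

/-- Code of a group as a list of one or two tokens. -/
noncomputable def code (f : Γ → Γ) (g : List Γ) : List (Tok Γ) :=
  if barL f g = g then [⟨g.take (g.length / 2), true, false⟩,
    barT f ⟨g.take (g.length / 2), true, false⟩] else [⟨g, false, false⟩]

theorem selfdual_split (f : Γ → Γ) (hne : ∀ c, f c ≠ c) (g : List Γ)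
    (hg : barL f g = g) : g.take (g.length / 2) ++ barL f (g.take (g.length / 2)) = g := by
  set n := g.length with hn
  set u := g.take (n / 2) with hu
  set v := g.drop (n / 2) with hv
  have huv : u ++ v = g := List.take_append_drop _ _
  have hul : u.length = n / 2 := by rw [hu, List.length_take]; omega
  have hvl : v.length = n - n / 2 := by rw [hv, List.length_drop]
  rcases Nat.even_or_odd n with he | ho
  · obtain ⟨k, hk⟩ := he
    have h2 : barL f v ++ barL f u = u ++ v := by rw [← barL_append, huv, hg]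
    have h3 := List.append_inj h2 (by simp; omega)
    rw [h3.2]; exact huv
  · exfalso
    obtain ⟨k, hk⟩ := ho
    have hvne : v ≠ [] := by
      intro h
      rw [h] at hvl
      rw [List.length_nil] at hvl
      omega
    obtain ⟨x, v', hx⟩ := List.exists_cons_of_ne_nil hvne
    have h2 : barL f v' ++ (f x :: barL f u) = u ++ (x :: v') := by
      have : barL f (u ++ v) = u ++ v := by rw [huv, hg]
      rw [barL_append, hx, barL_cons] at this
      simpa using this
    have hv'l : v'.length = k := by rw [hx] at hvl; simp at hvl; omega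
    have h3 := List.append_inj h2 (by simp; omega)
    have h4 := (List.cons.inj h3.2).1
    exact hne x h4

theorem code_flat (f : Γ → Γ) (hne : ∀ c, f c ≠ c) (g : List Γ) :
    (code f g).flatMap Tok.w = g := by
  unfold code
  split
  · rename_i h
    simpa using selfdual_split f hne g h
  · simp

theorem code_barL (f : Γ → Γ) (hf : ∀ a, f (f a) = a) (g : List Γ) :
    code f (barL f g) = barL (barT f) (code f g) := by
  unfold code
  by_cases h : barL f g = g
  · rw [if_pos (by rw [h]; exact h), if_pos h, h]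
    simp [barL, barT_barT f hf]
  · have h' : ¬ barL f (barL f g) = barL f g := by
      rw [barL_barL f hf]; exact fun e => h e.symm
    rw [if_neg h', if_neg h]
    simp only [barL_cons, barL_nil, List.nil_append]
    congr 1
    apply Tok.ext'
    · rfl
    · rfl
    · simp [barT, h]

theorem code_ne_nil (f : Γ → Γ) (g : List Γ) : code f g ≠ [] := by
  unfold code
  split <;> simp

theorem length_code_le (f : Γ → Γ) (g : List Γ) : (code f g).length ≤ 2 := by
  unfold code
  split <;> simp

theorem length_code_pos (f : Γ → Γ) (g : List Γ) : 1 ≤ (code f g).length := by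
  unfold code
  split <;> simp

theorem length_code_singleton (f : Γ → Γ) (hne : ∀ c, f c ≠ c) (a : Γ) :
    (code f [a]).length = 1 := by
  unfold code
  rw [if_neg]
  · simp
  · simp [barL, hne]

/-- Tokenization of a word. -/
noncomputable def tok (f : Γ → Γ) (r : Γ → Γ → Prop) (l : List Γ) : List (Tok Γ) :=
  (grp r l).flatMap (code f)

theorem tok_flat (f : Γ → Γ) (hne : ∀ c, f c ≠ c) (r : Γ → Γ → Prop) (l : List Γ) :
    (tok f r l).flatMap Tok.w = l := by
  unfold tok
  rw [List.flatMap_assoc]
  simp only [code_flat f hne]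
  have := grp_flatten r l
  rwa [← List.flatMap_id] at this

theorem tok_barL (f : Γ → Γ) (hf : ∀ a, f (f a) = a) (r : Γ → Γ → Prop)
    (hr : ∀ x y, r (f y) (f x) ↔ r x y) (l : List Γ) :
    tok f r (barL f l) = barL (barT f) (tok f r l) := by
  unfold tok
  rw [grp_barL f r hr]
  have := barL_flatMap (barL f) (barT f) (code f) (code_barL f hf) (grp r l)
  rw [← this, barL]

theorem tok_append (f : Γ → Γ) (r : Γ → Γ → Prop) (u v : List Γ) (h : Bd r u v) :
    tok f r (u ++ v) = tok f r u ++ tok f r v := by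
  unfold tok
  rw [grp_append r u v h, List.flatMap_append]

theorem tok_nil (f : Γ → Γ) (r : Γ → Γ → Prop) : tok f r [] = [] := rfl

theorem tok_of_chain (f : Γ → Γ) (r : Γ → Γ → Prop) (l : List Γ) (hne : l ≠ [])
    (hc : l.IsChain r) : tok f r l = code f l := by
  unfold tok
  rw [grp_of_chain r l hne hc]
  simp

theorem tok_ne_nil (f : Γ → Γ) (r : Γ → Γ → Prop) (l : List Γ) (hne : l ≠ []) :
    tok f r l ≠ [] := by
  unfold tok
  intro h
  rw [List.flatMap_eq_nil_iff] at h
  cases hg : grp r l with
  | nil => exact hne ((grp_eq_nil_iff r l).mp hg)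
  | cons g gs =>
    rw [hg] at h
    exact code_ne_nil f g (h g (by simp))

theorem μL_tokA (A : Alpha Q Γ) (l : List (Tok Γ)) :
    A.tokA.μL l = A.μL (l.flatMap Tok.w) :=
  (Alpha.μL_flatMap A.tokA A Tok.w l (fun _ _ => rfl)).symm

theorem μL_tok (A : Alpha Q Γ) (r : Γ → Γ → Prop) (l : List Γ) :
    A.tokA.μL (tok A.bar r l) = A.μL l := by
  rw [μL_tokA, tok_flat A.bar A.bar_ne]

/-- Symbols: letters or variables (possibly barred). -/
abbrev Sym (Γ V : Type*) := Γ ⊕ (V × Bool)

/-- Value of a symbol. -/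
def evs (f : Γ → Γ) (σ : V → List Γ) : Sym Γ V → List Γ
  | Sum.inl c => [c]
  | Sum.inr (v, false) => σ v
  | Sum.inr (v, true) => barL f (σ v)

/-- Value of a word with variables. -/
def ev (f : Γ → Γ) (σ : V → List Γ) (W : List (Sym Γ V)) : List Γ := W.flatMap (evs f σ)

theorem ev_append (f : Γ → Γ) (σ : V → List Γ) (W W' : List (Sym Γ V)) :
    ev f σ (W ++ W') = ev f σ W ++ ev f σ W' := by simp [ev]

theorem ev_nil (f : Γ → Γ) (σ : V → List Γ) : ev f σ [] = [] := rfl

theorem ev_cons (f : Γ → Γ) (σ : V → List Γ) (y : Sym Γ V) (W : List (Sym Γ V)) :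
    ev f σ (y :: W) = evs f σ y ++ ev f σ W := by simp [ev]

theorem ev_map_inl (f : Γ → Γ) (σ : V → List Γ) (g : List Γ) :
    ev f σ (g.map Sum.inl) = g := by
  induction g with
  | nil => rfl
  | cons c g ih => rw [List.map_cons, ev_cons, ih]; rfl

/-- `v` occurs in `W`. -/
def Occ (W : List (Sym Γ V)) (v : V) : Prop := ∃ b, Sum.inr (v, b) ∈ W

theorem ev_congr (f : Γ → Γ) (σ τ : V → List Γ) (W : List (Sym Γ V))
    (h : ∀ v, Occ W v → σ v = τ v) : ev f σ W = ev f τ W := by
  unfold ev
  apply List.flatMap_congr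
  intro y hy
  match y, hy with
  | Sum.inl c, _ => rfl
  | Sum.inr (v, false), hy => simp [evs, h v ⟨false, hy⟩]
  | Sum.inr (v, true), hy => simp [evs, h v ⟨true, hy⟩]

/-- Morphism on symbols induced by a morphism on letters. -/
def mor (h : Γ → List Δ) : Sym Γ V → List (Sym Δ V)
  | Sum.inl c => (h c).map Sum.inl
  | Sum.inr x => [Sum.inr x]

theorem ev_mor (f : Γ → Γ) (g : Δ → Δ) (h : Γ → List Δ) (hh : ∀ c, h (f c) = barL g (h c))
    (σ : V → List Γ) (W : List (Sym Γ V)) :
    ev g (fun v => (σ v).flatMap h) (W.flatMap (mor h)) = (ev f σ W).flatMap h := by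
  induction W with
  | nil => rfl
  | cons y W ih =>
    rw [List.flatMap_cons, ev_append, ih, ev_cons, List.flatMap_append]
    congr 1
    match y with
    | Sum.inl c => simp [mor, ev_map_inl, evs]
    | Sum.inr (v, false) => simp [mor, ev, evs]
    | Sum.inr (v, true) =>
      simp only [mor, ev, List.flatMap_cons, List.flatMap_nil, List.append_nil, evs]
      exact (barL_flatMap f g h hh (σ v)).symm

/-- Substitution of variables. -/
noncomputable def sb (f : Γ → Γ) (p s : V → List Γ) (keep : V → Prop) : Sym Γ V → List (Sym Γ V)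
  | Sum.inl c => [Sum.inl c]
  | Sum.inr (v, false) =>
    (p v).map Sum.inl ++ ((if keep v then [Sum.inr (v, false)] else []) ++ (s v).map Sum.inl)
  | Sum.inr (v, true) => (barL f (s v)).map Sum.inl ++
    ((if keep v then [Sum.inr (v, true)] else []) ++ (barL f (p v)).map Sum.inl)

theorem ev_sb (f : Γ → Γ) (p s : V → List Γ) (keep : V → Prop) (σ' : V → List Γ)
    (W : List (Sym Γ V)) :
    ev f σ' (W.flatMap (sb f p s keep)) =
      ev f (fun v => p v ++ ((if keep v then σ' v else []) ++ s v)) W := by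
  induction W with
  | nil => rfl
  | cons y W ih =>
    rw [List.flatMap_cons, ev_append, ih, ev_cons]
    congr 1
    match y with
    | Sum.inl c => simp [sb, ev, evs]
    | Sum.inr (v, false) =>
      by_cases hk : keep v
      · simp [sb, hk, ev_append, ev_map_inl, evs, ev_cons]
      · simp [sb, hk, ev_append, ev_map_inl, evs]
    | Sum.inr (v, true) =>
      by_cases hk : keep v
      · simp [sb, hk, ev_append, ev_map_inl, evs, ev_cons, barL_append]
      · simp [sb, hk, ev_append, ev_map_inl, evs, barL_append]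

/-- Relation on symbols. -/
def rS (r : Γ → Γ → Prop) : Sym Γ V → Sym Γ V → Prop
  | Sum.inl a, Sum.inl b => r a b
  | _, _ => False

/-- Code of a group of symbols. -/
noncomputable def codeS (f : Γ → Γ) : List (Sym Γ V) → List (Sym (Tok Γ) V)
  | [Sum.inr x] => [Sum.inr x]
  | G => (code f (G.filterMap Sum.getLeft?)).map Sum.inl

/-- Tokenization of a word with variables. -/
noncomputable def tokS (f : Γ → Γ) (r : Γ → Γ → Prop) (W : List (Sym Γ V)) :
    List (Sym (Tok Γ) V) := (grp (rS r) W).flatMap (codeS f)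

theorem shape_of_chain (r : Γ → Γ → Prop) : ∀ (G : List (Sym Γ V)), G ≠ [] →
    G.IsChain (rS r) → (∃ x, G = [Sum.inr x]) ∨ (∃ g, g ≠ [] ∧ G = g.map Sum.inl ∧ g.IsChain r)
  | [], h, _ => absurd rfl h
  | [Sum.inl a], _, _ => Or.inr ⟨[a], by simp, rfl, by simp⟩
  | [Sum.inr x], _, _ => Or.inl ⟨x, rfl⟩
  | y :: z :: t, _, hc => by
    have h1 : rS r y z := hc.rel
    have ih := shape_of_chain r (z :: t) (by simp) hc.tail
    match y, z, h1 with
    | Sum.inl a, Sum.inl b, h1 =>
      rcases ih with ⟨x, hx⟩ | ⟨g, hg, he, hgc⟩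
      · simp at hx
      · right
        refine ⟨a :: g, by simp, by rw [List.map_cons, he], ?_⟩
        cases g with
        | nil => simp at hg
        | cons b' g' =>
          simp at he
          obtain ⟨rfl, _⟩ := he
          exact List.IsChain.cons_cons h1 hgc

theorem shape_of_mem (r : Γ → Γ → Prop) (W : List (Sym Γ V)) (G : List (Sym Γ V))
    (hG : G ∈ grp (rS r) W) :
    (∃ x, G = [Sum.inr x]) ∨ (∃ g, g ≠ [] ∧ G = g.map Sum.inl ∧ g.IsChain r) :=
  shape_of_chain r G ((grp_valid _ W).ne_nil G hG) ((grp_valid _ W).isChain G hG)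

theorem filterMap_getLeft (g : List Γ) :
    ((g.map Sum.inl : List (Sym Γ V)).filterMap Sum.getLeft?) = g := by
  induction g with
  | nil => rfl
  | cons a g ih =>
    have h : Sum.getLeft? (Sum.inl a : Sym Γ V) = some a := rfl
    rw [List.map_cons, List.filterMap_cons_some h, ih]

theorem codeS_inl (f : Γ → Γ) (g : List Γ) :
    codeS f (g.map Sum.inl : List (Sym Γ V)) = (code f g).map Sum.inl := by
  unfold codeS
  split
  · rename_i x h
    cases g with
    | nil => simp at h
    | cons a g => simp at h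
  · rw [filterMap_getLeft]

theorem codeS_inr (f : Γ → Γ) (x : V × Bool) : codeS f [(Sum.inr x : Sym Γ V)] = [Sum.inr x] := rfl

theorem flatMap_mor_map_inl (h : Γ → List Δ) (g : List Γ) :
    (g.map Sum.inl : List (Sym Γ V)).flatMap (mor h) = (g.flatMap h).map Sum.inl := by
  induction g with
  | nil => rfl
  | cons a g ih => simp only [List.map_cons, List.flatMap_cons, ih, mor, List.map_append]

theorem tokS_flat (f : Γ → Γ) (hne : ∀ c, f c ≠ c) (r : Γ → Γ → Prop) (W : List (Sym Γ V)) :
    (tokS f r W).flatMap (mor Tok.w) = W := by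
  unfold tokS
  rw [List.flatMap_assoc]
  have : (grp (rS r) W).flatMap (fun G => (codeS f G).flatMap (mor Tok.w)) =
      (grp (rS r) W).flatMap id := by
    apply List.flatMap_congr
    intro G hG
    rcases shape_of_mem r W G hG with ⟨x, rfl⟩ | ⟨g, hg, rfl, hc⟩
    · rw [codeS_inr]; simp [mor]
    · rw [codeS_inl, flatMap_mor_map_inl, code_flat f hne]; rfl
  rw [this, List.flatMap_id, grp_flatten]

/-- Tokenization commutes with evaluation when no group crosses a boundary. -/
theorem ev_tokS (f : Γ → Γ) (hf : ∀ a, f (f a) = a) (r : Γ → Γ → Prop)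
    (hr : ∀ x y, r (f y) (f x) ↔ r x y) (σ : V → List Γ) (W : List (Sym Γ V))
    (hne : ∀ y ∈ W, evs f σ y ≠ [])
    (hc : W.IsChain (fun a b => ¬ rS r a b → Bd r (evs f σ a) (evs f σ b))) :
    ev (barT f) (fun v => tok f r (σ v)) (tokS f r W) = tok f r (ev f σ W) := by
  unfold tokS ev
  rw [List.flatMap_assoc]
  conv_rhs => rw [tok, grp_flatMap (rS r) r (evs f σ) W hne hc, List.flatMap_assoc]
  apply List.flatMap_congr
  intro G hG
  rcases shape_of_mem r W G hG with ⟨x, rfl⟩ | ⟨g, hg, rfl, hgc⟩
  · rw [codeS_inr]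
    match x with
    | (v, false) => simp [evs, tok]
    | (v, true) =>
      simp only [List.flatMap_cons, List.flatMap_nil, List.append_nil, evs]
      rw [← tok_barL f hf r hr]
      rfl
  · rw [codeS_inl]
    have e1 := ev_map_inl (barT f) (fun v => tok f r (σ v)) (code f g)
    have e2 := ev_map_inl f σ g
    unfold ev at e1 e2
    rw [e1, e2]
    exact (tok_of_chain f r g hg hgc).symm

end Pool.Agent.helper13.WE
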