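import Pool.Agent.helper13.WE.Phase

/-!
# Canonical alphabets and the main bound
-/

namespace Pool.Agent.helper13.WE

open Classical

variable {Q : Type*} [Monoid Q] [StarMul Q] {Γ Δ V I : Type*}

/-- Canonical letters. -/
abbrev CL (Q : Type*) (N : ℕ) := (Fin N × Bool) ⊕ (Q × Bool)

/-- The canonical involution. -/
def canBar {N : ℕ} : CL Q N → CL Q N
  | Sum.inl (i, b) => Sum.inl (i, !b)
  | Sum.inr (q, b) => Sum.inr (q, !b)

/-- The canonical types. -/
def canμ {N : ℕ} (m : Fin N → Q) : CL Q N → Q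
  | Sum.inl (i, true) => m i
  | Sum.inl (i, false) => star (m i)
  | Sum.inr (q, true) => q
  | Sum.inr (q, false) => star q

/-- The canonical alphabet. -/
def canA {N : ℕ} (m : Fin N → Q) : Alpha Q (CL Q N) where
  bar := canBar
  bar_bar := by
    rintro (⟨i, b⟩ | ⟨q, b⟩) <;> simp [canBar]
  bar_ne := by
    rintro (⟨i, b⟩ | ⟨q, b⟩) <;> cases b <;> simp [canBar]
  μ := canμ m
  μ_bar := by
    rintro (⟨i, b⟩ | ⟨q, b⟩) <;> cases b <;> simp [canBar, canμ]
  full q := ⟨Sum.inr (q, true), rfl⟩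

/-! ### Renaming of letters -/

theorem flatMap_mor_single (h : Γ → Δ) (W : List (Sym Γ V)) :
    W.flatMap (mor (fun c => [h c])) = W.map (Sum.map h id) := by
  induction W with
  | nil => rfl
  | cons y W ih =>
    rw [List.flatMap_cons, ih, List.map_cons]
    match y with
    | Sum.inl c => rfl
    | Sum.inr x => rfl

theorem nl_map (h : Γ → Δ) (W : List (Sym Γ V)) :
    nl (W.map (Sum.map h id) : List (Sym Δ V)) = nl W := by
  unfold nl
  rw [List.countP_map]
  apply List.countP_congr
  intro y _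
  match y with
  | Sum.inl c => rfl
  | Sum.inr x => rfl

theorem nv_map (h : Γ → Δ) (W : List (Sym Γ V)) :
    nv (W.map (Sum.map h id) : List (Sym Δ V)) = nv W := by
  unfold nv
  rw [List.countP_map]
  apply List.countP_congr
  intro y _
  match y with
  | Sum.inl c => rfl
  | Sum.inr x => rfl

theorem occ_map (h : Γ → Δ) (W : List (Sym Γ V)) (v : V) :
    Occ (W.map (Sum.map h id) : List (Sym Δ V)) v ↔ Occ W v := by
  unfold Occ
  constructor
  · rintro ⟨b, hb⟩
    obtain ⟨y, hy, he⟩ := List.mem_map.mp hb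
    match y, hy, he with
    | Sum.inr x, hy, he =>
      simp only [Sum.map_inr, id, Sum.inr.injEq] at he
      subst he
      exact ⟨b, hy⟩
  · rintro ⟨b, hb⟩
    exact ⟨b, List.mem_map.mpr ⟨_, hb, rfl⟩⟩

theorem sol_map (A : Alpha Q Γ) (B : Alpha Q Δ) (h : Γ → Δ) (hbar : ∀ c, h (A.bar c) = B.bar (h c))
    (hμ : ∀ c, B.μ (h c) = A.μ c) (alive : Finset V) (q : V → Q) (E : I → Bool → List (Sym Γ V))
    (n : ℕ) (σ : V → List Γ) (hs : Sol A alive q E n σ) :
    Sol B alive q (fun i b => (E i b).map (Sum.map h id)) n (fun v => (σ v).map h) := by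
  have e : (fun v => (σ v).map h) = (fun v => (σ v).flatMap (fun c => [h c])) := by
    funext v
    induction σ v with
    | nil => rfl
    | cons c l ih => rw [List.map_cons, List.flatMap_cons, ih]; rfl
  refine ⟨?_, ?_, ?_, ?_⟩
  · intro i
    have key : ∀ b, ev B.bar (fun v => (σ v).map h) ((E i b).map (Sum.map h id)) =
        (ev A.bar σ (E i b)).flatMap (fun c => [h c]) := by
      intro b
      rw [← flatMap_mor_single, e]
      exact ev_mor A.bar B.bar (fun c => [h c]) (fun c => by simp [hbar, barL]) σ (E i b)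
    rw [key, key, hs.solves i]
  · intro v hv
    simpa using hs.ne v hv
  · intro v hv
    rw [← hs.ty v hv]
    unfold Alpha.μL
    rw [List.map_map]
    congr 1
    apply List.map_congr_left
    intro c _
    exact hμ c
  · rw [← hs.len]
    apply Finset.sum_congr rfl
    intro v _
    simp

theorem canon [Fintype I] (A : Alpha Q Γ) (alive : Finset V) (q : V → Q)
    (E : I → Bool → List (Sym Γ V)) (N : ℕ) (hN : NL E ≤ N) :
    ∃ (m : Fin N → Q) (E' : I → Bool → List (Sym (CL Q N) V)), NL E' = NL E ∧ NV E' = NV E ∧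
      (∀ i b v, Occ (E' i b) v ↔ Occ (E i b) v) ∧
      (∀ n σ, Sol A alive q E n σ → ∃ σ', Sol (canA m) alive q E' n σ') ∧
      (∀ n σ', Sol (canA m) alive q E' n σ' → ∃ σ, Sol A alive q E n σ) := by
  set rep : Γ → Γ := fun c => if WellOrderingRel c (A.bar c) then c else A.bar c with hrepdef
  have hcase : ∀ c, rep c = c ∨ rep c = A.bar c := by
    intro c; simp only [hrepdef]; split
    · exact Or.inl rfl
    · exact Or.inr rfl
  have hrep : ∀ c, rep (A.bar c) = rep c := by
    intro t
    have htri := trichotomous_of (WellOrderingRel (α := Γ)) t (A.bar t)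
    by_cases h : WellOrderingRel t (A.bar t)
    · have h' : ¬ WellOrderingRel (A.bar t) t := fun h2 => asymm_of (WellOrderingRel (α := Γ)) h h2
      simp [hrepdef, A.bar_bar, h, h']
    · have h' : WellOrderingRel (A.bar t) t := by
        rcases htri with h1 | h1 | h1
        · exact absurd h1 h
        · exact absurd h1.symm (A.bar_ne t)
        · exact h1
      simp [hrepdef, A.bar_bar, h, h']
  set LL : List Γ := (Finset.univ : Finset (I × Bool)).toList.flatMap
    (fun ib => (E ib.1 ib.2).filterMap Sum.getLeft?) with hLL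
  have hmemLL : ∀ i b c, Sum.inl c ∈ E i b → c ∈ LL := by
    intro i b c hc
    rw [hLL]
    exact List.mem_flatMap.mpr ⟨(i, b), by simp, List.mem_filterMap.mpr ⟨Sum.inl c, hc, rfl⟩⟩
  have hLLlen : LL.length = NL E := by
    rw [hLL, List.length_flatMap, Finset.sum_map_toList]
    unfold NL
    apply Finset.sum_congr rfl
    intro ib _
    unfold nl
    induction E ib.1 ib.2 with
    | nil => rfl
    | cons y W ih =>
      match y with
      | Sum.inl c =>
        have h : Sum.getLeft? (Sum.inl c : Sym Γ V) = some c := rfl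
        rw [List.filterMap_cons_some h, List.length_cons, ih, List.countP_cons_of_pos (by rfl)]
      | Sum.inr x =>
        have h : Sum.getLeft? (Sum.inr x : Sym Γ V) = none := rfl
        rw [List.filterMap_cons_none h, ih, List.countP_cons_of_neg (by simp)]
  set R : Finset Γ := (LL.map rep).toFinset with hR
  have hRcard : R.card ≤ N := by
    have h1 := List.toFinset_card_le (LL.map rep)
    rw [List.length_map, hLLlen] at h1
    exact h1.trans hN
  set e : R → Fin N := fun x => Fin.castLE hRcard (R.equivFin x) with he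
  have hinj : Function.Injective e := by
    intro x y hxy
    exact R.equivFin.injective (Fin.castLE_injective hRcard hxy)
  set ρ : Γ → CL Q N := fun c => if h : rep c ∈ R then Sum.inl (e ⟨rep c, h⟩, decide (c = rep c))
    else Sum.inr (A.μ (rep c), decide (c = rep c)) with hρ
  set m : Fin N → Q := fun i => if h : ∃ x : R, e x = i then A.μ h.choose.1 else 1 with hm
  have hme : ∀ x : R, m (e x) = A.μ x.1 := by
    intro x
    have h : ∃ y : R, e y = e x := ⟨x, rfl⟩
    simp only [hm]
    rw [dif_pos h, hinj h.choose_spec]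
  have hdec : ∀ c, decide (A.bar c = rep (A.bar c)) = !decide (c = rep c) := by
    intro c
    rw [hrep]
    rcases hcase c with h1 | h1
    · rw [h1]
      simp [A.bar_ne]
    · rw [h1]
      have : ¬ c = A.bar c := fun h => A.bar_ne c h.symm
      simp [this]
  have hρbar : ∀ c, ρ (A.bar c) = (canA m).bar (ρ c) := by
    intro c
    change ρ (A.bar c) = canBar (ρ c)
    simp only [hρ]
    by_cases h : rep c ∈ R
    · have h' : rep (A.bar c) ∈ R := by rw [hrep]; exact h
      rw [dif_pos h, dif_pos h']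
      simp only [canBar, hdec]
      congr 3
      exact Subtype.ext (hrep c)
    · have h' : ¬ rep (A.bar c) ∈ R := by rw [hrep]; exact h
      rw [dif_neg h, dif_neg h']
      simp only [canBar, hdec]
      rw [hrep]
  have hρμ : ∀ c, (canA m).μ (ρ c) = A.μ c := by
    intro c
    change canμ m (ρ c) = _
    simp only [hρ]
    have key : ∀ x : Q, x = A.μ (rep c) →
        (if decide (c = rep c) = true then x else star x) = A.μ c := by
      intro x hx
      rcases hcase c with h1 | h1
      · rw [if_pos (by simp [h1]), hx, h1]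
      · have : ¬ c = rep c := by rw [h1]; exact fun h => A.bar_ne c h.symm
        rw [if_neg (by simp [this]), hx, h1, A.μ_bar, star_star]
    by_cases h : rep c ∈ R
    · rw [dif_pos h]
      have := key _ (hme ⟨rep c, h⟩)
      rw [← this]
      cases decide (c = rep c) <;> rfl
    · rw [dif_neg h]
      have := key _ rfl
      rw [← this]
      cases decide (c = rep c) <;> simp [canμ]
  set vis : Γ → Prop := fun c => rep c ∈ R with hvis
  have hρinj : ∀ c d, vis c → vis d → ρ c = ρ d → c = d := by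
    intro c d hc hd h
    simp only [hρ] at h
    rw [dif_pos hc, dif_pos hd] at h
    simp only [Sum.inl.injEq, Prod.mk.injEq] at h
    have h1 : rep c = rep d := congrArg Subtype.val (hinj h.1)
    have h2 : (c = rep c) ↔ (d = rep d) := decide_eq_decide.mp h.2
    by_cases hc1 : c = rep c
    · rw [hc1, h1]; exact (h2.mp hc1).symm
    · have hd1 : ¬ d = rep d := fun h => hc1 (h2.mpr h)
      have hc2 : rep c = A.bar c := (hcase c).resolve_left (fun h => hc1 h.symm)
      have hd2 : rep d = A.bar d := (hcase d).resolve_left (fun h => hd1 h.symm)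
      rw [hc2, hd2] at h1
      have := congrArg A.bar h1
      rwa [A.bar_bar, A.bar_bar] at this
  have hvisbar : ∀ c, vis (A.bar c) ↔ vis c := by
    intro c
    simp only [hvis, hrep]
  obtain ⟨gn, hgn1, hgn2⟩ := exists_gen (canA m) A
  set θ : CL Q N → Γ := fun x => if h : ∃ c, vis c ∧ ρ c = x then h.choose else gn x with hθ
  have hθρ : ∀ c, vis c → θ (ρ c) = c := by
    intro c hc
    have h : ∃ d, vis d ∧ ρ d = ρ c := ⟨c, hc, rfl⟩
    simp only [hθ]
    rw [dif_pos h]
    exact hρinj _ _ h.choose_spec.1 hc h.choose_spec.2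
  have hθbar : ∀ x, θ ((canA m).bar x) = A.bar (θ x) := by
    intro x
    by_cases h : ∃ c, vis c ∧ ρ c = x
    · obtain ⟨c, hc, rfl⟩ := h
      rw [← hρbar, hθρ c hc, hθρ _ ((hvisbar c).mpr hc)]
    · have h' : ¬ ∃ c, vis c ∧ ρ c = (canA m).bar x := by
        rintro ⟨c, hc, hx⟩
        apply h
        refine ⟨A.bar c, (hvisbar c).mpr hc, ?_⟩
        rw [hρbar, hx, (canA m).bar_bar]
      simp only [hθ]
      rw [dif_neg h, dif_neg h', hgn1]
  have hθμ : ∀ x, A.μ (θ x) = (canA m).μ x := by
    intro x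
    by_cases h : ∃ c, vis c ∧ ρ c = x
    · obtain ⟨c, hc, rfl⟩ := h
      rw [hθρ c hc, hρμ]
    · simp only [hθ]
      rw [dif_neg h, hgn2]
  refine ⟨m, fun i b => (E i b).map (Sum.map ρ id), ?_, ?_, ?_, ?_, ?_⟩
  · unfold NL
    exact Finset.sum_congr rfl (fun ib _ => nl_map ρ _)
  · unfold NV
    exact Finset.sum_congr rfl (fun ib _ => nv_map ρ _)
  · intro i b v
    exact occ_map ρ _ v
  · intro n σ hs
    exact ⟨_, sol_map A (canA m) ρ hρbar hρμ alive q E n σ hs⟩
  · intro n σ' hs
    have h1 := sol_map (canA m) A θ hθbar hθμ alive q _ n σ' hs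
    have h2 : (fun i b => ((E i b).map (Sum.map ρ id)).map (Sum.map θ id)) = E := by
      funext i b
      rw [List.map_map]
      conv_rhs => rw [← List.map_id (E i b)]
      apply List.map_congr_left
      intro y hy
      match y, hy with
      | Sum.inl c, hy =>
        have hc : vis c := by
          simp only [hvis, hR, List.mem_toFinset, List.mem_map]
          exact ⟨c, hmemLL i b c hy, rfl⟩
        simp [hθρ c hc]
      | Sum.inr x, _ => rfl
    rw [h2] at h1
    exact ⟨_, h1⟩

/-! ### The finite graph of canonical systems -/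

/-- A canonical system. -/
structure CSys (Q V I : Type*) (N : ℕ) where
  alive : Finset V
  q : V → Q
  m : Fin N → Q
  E : I → Bool → List (Sym (CL Q N) V)

/-- The system has a solution of total length `n`. -/
def CSys.Has {N : ℕ} (s : CSys Q V I N) (n : ℕ) : Prop :=
  ∃ σ, Sol (canA s.m) s.alive s.q s.E n σ

/-- Size restrictions. -/
def CSys.Good [Fintype I] {N : ℕ} (s : CSys Q V I N) (M : ℕ) : Prop :=
  OccIn s.alive s.E ∧ NL s.E ≤ N ∧ NV s.E ≤ M

theorem canon_step [Fintype V] [Fintype I] {t₀ p₀ : ℕ} (ht₀ : 1 ≤ t₀) (hp₀ : 0 < p₀)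
    (hQ : ∀ (x : Q) n, t₀ ≤ n → x ^ (n + p₀) = x ^ n) {N M : ℕ}
    (hNM : 60 * M + 4 * Fintype.card I ≤ N) (s : CSys Q V I N) (hs : s.Good M) (n : ℕ)
    (hn : s.Has n) : n = 0 ∨ ∃ (s' : CSys Q V I N) (n' : ℕ), s'.Good M ∧ s'.Has n' ∧ n' < n ∧
      ∀ k', s'.Has k' → ∃ k, k ≤ pa t₀ p₀ N M * k' + pb t₀ p₀ N M (Fintype.card V) ∧ s.Has k := by
  obtain ⟨σ, hσ⟩ := hn
  rcases Finset.eq_empty_or_nonempty s.alive with he | hne
  · left
    rw [← hσ.len, he]; rfl
  · right
    obtain ⟨alive', q', E', n', σ', h1, h2, h3, h4, h5, h6⟩ :=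
      phase (canA s.m) ht₀ hp₀ hQ s.alive s.q s.E n σ hσ hs.1 N M hs.2.1 hs.2.2 hNM hne
    obtain ⟨m, E'', e1, e2, e3, e4, e5⟩ := canon (canA s.m).tokA.tokA.tokA alive' q' E' N h4
    refine ⟨⟨alive', q', m, E''⟩, n', ⟨?_, ?_, ?_⟩, e4 n' σ' h1, h3, ?_⟩
    · intro i b v hv
      exact h2 i b v ((e3 i b v).mp hv)
    · change NL E'' ≤ N
      rw [e1]; exact h4
    · change NV E'' ≤ M
      rw [e2]; exact h5
    · rintro k' ⟨τ', hτ'⟩
      obtain ⟨τ, hτ⟩ := e5 k' τ' hτ'
      obtain ⟨k, σk, hk, hσk⟩ := h6 k' τ hτ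
      exact ⟨k, hk, σk, hσk⟩

theorem chain_bound (a b : ℕ) : ∀ (K : ℕ) (T : Finset ℕ), T.card ≤ K →
    (∀ t ∈ T, t = 0 ∨ ∃ s ∈ T, s < t ∧ t ≤ a * s + b) → ∀ t ∈ T, t ≤ (a + b + 1) ^ K := by
  intro K
  induction K with
  | zero =>
    intro T hT _ t ht
    have : T = ∅ := Finset.card_eq_zero.mp (by omega)
    rw [this] at ht
    simp at ht
  | succ K ih =>
    intro T hT h t ht
    rcases h t ht with rfl | ⟨s, hs, hst, hle⟩
    · exact Nat.zero_le _
    · have h1 := ih (T.filter (fun x => x < t)) (by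
        have : (T.filter (fun x => x < t)).card < T.card := by
          apply Finset.card_lt_card
          refine ⟨Finset.filter_subset _ _, ?_⟩
          intro hsub
          have := hsub ht
          rw [Finset.mem_filter] at this
          exact lt_irrefl _ this.2
        omega) (by
        intro x hx
        rw [Finset.mem_filter] at hx
        rcases h x hx.1 with h0 | ⟨y, hy, hyx, hle'⟩
        · exact Or.inl h0
        · right
          exact ⟨y, Finset.mem_filter.mpr ⟨hy, hyx.trans hx.2⟩, hyx, hle'⟩) s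
        (Finset.mem_filter.mpr ⟨hs, hst⟩)
      have h2 : 1 ≤ (a + b + 1) ^ K := Nat.one_le_pow _ _ (by omega)
      calc t ≤ a * s + b := hle
        _ ≤ a * (a + b + 1) ^ K + b * (a + b + 1) ^ K := by
          apply Nat.add_le_add
          · exact Nat.mul_le_mul_left a h1
          · exact Nat.le_mul_of_pos_right b h2
        _ ≤ (a + b + 1) ^ (K + 1) := by
          rw [pow_succ]
          nlinarith

/-- Number of canonical systems. -/
def cK (cq v i N M : ℕ) : ℕ :=
  2 ^ v * (cq ^ v * (cq ^ N * (((2 * N + 2 * cq + 2 * v + 1) ^ (N + M)) ^ 2) ^ i))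

/-- Codes of lists of words. -/
abbrev YW (Q V I : Type*) (N L : ℕ) := I → Bool → Fin L → Option (Sym (CL Q N) V)

noncomputable instance instYW [Fintype Q] [Fintype V] [Fintype I] (N L : ℕ) :
    Fintype (YW Q V I N L) := inferInstance

/-- Codes of systems. -/
abbrev YS (Q V I : Type*) (N L : ℕ) := Finset V × (V → Q) × (Fin N → Q) × YW Q V I N L

/-- The encoding of canonical systems in a finite type. -/
def CSys.enc {N : ℕ} (L : ℕ) (s : CSys Q V I N) : YS Q V I N L :=
  (s.alive, s.q, s.m, fun i b j => (s.E i b)[(j : ℕ)]?)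

omit [Monoid Q] [StarMul Q] in
theorem CSys.enc_inj [Fintype I] {N M : ℕ} (s s' : CSys Q V I N) (hs : s.Good M) (hs' : s'.Good M)
    (h : s.enc (N + M) = s'.enc (N + M)) : s = s' := by
  have hlen : ∀ s : CSys Q V I N, s.Good M → ∀ i b, (s.E i b).length ≤ N + M := by
    intro s hs i b
    have h1 := NL_add_NV s.E
    have h2 : (s.E i b).length ≤ ∑ ib : I × Bool, (s.E ib.1 ib.2).length :=
      Finset.single_le_sum (f := fun ib : I × Bool => (s.E ib.1 ib.2).length)
        (fun _ _ => Nat.zero_le _) (Finset.mem_univ (i, b))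
    have := hs.2.1
    have := hs.2.2
    omega
  obtain ⟨a1, q1, m1, E1⟩ := s
  obtain ⟨a2, q2, m2, E2⟩ := s'
  simp only [CSys.enc, Prod.mk.injEq] at h
  obtain ⟨h1, h2, h3, h4⟩ := h
  subst h1; subst h2; subst h3
  congr 1
  funext i b
  apply List.ext_getElem?
  intro j
  have l1 := hlen _ hs i b
  have l2 := hlen _ hs' i b
  by_cases hj : j < N + M
  · have := congrFun (congrFun (congrFun h4 i) b) ⟨j, hj⟩
    exact this
  · rw [List.getElem?_eq_none (by simp only at l1; omega),
      List.getElem?_eq_none (by simp only at l2; omega)]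

omit [Monoid Q] [StarMul Q] in
theorem card_enc [Fintype Q] [Fintype V] [Fintype I] (N L : ℕ) :
    Fintype.card (YS Q V I N L) =
    2 ^ Fintype.card V * (Fintype.card Q ^ Fintype.card V * (Fintype.card Q ^ N *
      (((2 * N + 2 * Fintype.card Q + 2 * Fintype.card V + 1) ^ L) ^ 2) ^ Fintype.card I)) := by
  simp only [Fintype.card_prod, Fintype.card_finset, Fintype.card_fun, Fintype.card_fin,
    Fintype.card_bool, Fintype.card_option, Fintype.card_sum]
  have e : N * 2 + Fintype.card Q * 2 + Fintype.card V * 2 + 1 =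
    2 * N + 2 * Fintype.card Q + 2 * Fintype.card V + 1 := by ring
  rw [e]

/-- The main bound. -/
def mB (t₀ p₀ cq v i N M : ℕ) : ℕ :=
  (pa t₀ p₀ N M + pb t₀ p₀ N M v + 1) ^ cK cq v i N M

theorem main_bound [Fintype Q] [Fintype V] [Fintype I] {t₀ p₀ : ℕ} (ht₀ : 1 ≤ t₀) (hp₀ : 0 < p₀)
    (hQ : ∀ (x : Q) n, t₀ ≤ n → x ^ (n + p₀) = x ^ n) {N M : ℕ}
    (hNM : 60 * M + 4 * Fintype.card I ≤ N) (s : CSys Q V I N) (hs : s.Good M) (n : ℕ)
    (hn : s.Has n) : ∃ n', n' ≤ mB t₀ p₀ (Fintype.card Q) (Fintype.card V) (Fintype.card I) N M ∧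
      s.Has n' := by
  set IsM : CSys Q V I N → ℕ → Prop := fun s t => s.Good M ∧ s.Has t ∧ ∀ k, s.Has k → t ≤ k
    with hIsM
  set F : YS Q V I N (N + M) → ℕ := fun y => if h : ∃ t, ∃ s : CSys Q V I N, s.enc (N + M) = y ∧ IsM s t then
    h.choose else 0 with hF
  have hFspec : ∀ (s : CSys Q V I N) t, IsM s t → F (s.enc (N + M)) = t := by
    intro s t hst
    have h : ∃ t', ∃ s' : CSys Q V I N, s'.enc (N + M) = s.enc (N + M) ∧ IsM s' t' :=
      ⟨t, s, rfl, hst⟩
    simp only [hF]
    rw [dif_pos h]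
    obtain ⟨s', he, hs'⟩ := h.choose_spec
    have := CSys.enc_inj s' s hs'.1 hst.1 he
    subst this
    exact le_antisymm (hs'.2.2 _ hst.2.1) (hst.2.2 _ hs'.2.1)
  set T : Finset ℕ := (Finset.univ.image F).filter (fun t => ∃ s : CSys Q V I N, IsM s t) with hT
  have hmemT : ∀ s t, IsM s t → t ∈ T := by
    intro s t h
    rw [hT, Finset.mem_filter]
    exact ⟨Finset.mem_image.mpr ⟨s.enc (N + M), Finset.mem_univ _, hFspec s t h⟩, s, h⟩
  have hexM : ∀ (s : CSys Q V I N) n, s.Good M → s.Has n → ∃ t, t ≤ n ∧ IsM s t := by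
    intro s n hs hn
    have hex : ∃ t, s.Has t := ⟨n, hn⟩
    exact ⟨Nat.find hex, Nat.find_min' hex hn, hs, Nat.find_spec hex,
      fun k hk => Nat.find_min' hex hk⟩
  have hcard : T.card ≤ cK (Fintype.card Q) (Fintype.card V) (Fintype.card I) N M := by
    calc T.card ≤ (Finset.univ.image F).card := Finset.card_filter_le _ _
      _ ≤ (Finset.univ : Finset (YS Q V I N (N + M))).card := Finset.card_image_le
      _ = _ := by
        rw [Finset.card_univ]
        exact card_enc N (N + M)
  have hstep : ∀ t ∈ T, t = 0 ∨ ∃ u ∈ T, u < t ∧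
      t ≤ pa t₀ p₀ N M * u + pb t₀ p₀ N M (Fintype.card V) := by
    intro t ht
    rw [hT, Finset.mem_filter] at ht
    obtain ⟨_, s, hst⟩ := ht
    rcases canon_step ht₀ hp₀ hQ hNM s hst.1 t hst.2.1 with h0 | ⟨s', n', h1, h2, h3, h4⟩
    · exact Or.inl h0
    · right
      obtain ⟨u, hu, hsu⟩ := hexM s' n' h1 h2
      obtain ⟨k, hk, hsk⟩ := h4 u hsu.2.1
      exact ⟨u, hmemT s' u hsu, by omega, (hst.2.2 k hsk).trans hk⟩
  obtain ⟨t, _, ht⟩ := hexM s n hs hn
  exact ⟨t, chain_bound _ _ _ T hcard hstep t (hmemT s t ht), ht.2.1⟩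

end Pool.Agent.helper13.WE
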