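import Pool.Agent.helper13.WE.Step

/-!
# Alternating chains
-/

namespace Pool.Agent.helper13.WE

open Classical

variable {Q : Type*} [Monoid Q] [StarMul Q] {Γ Δ V I : Type*}

/-- The chain `c, s c, s (s c), ...` of length `n`. -/
def chn (s : Γ → Γ) (c : Γ) : ℕ → List Γ
  | 0 => []
  | n + 1 => c :: chn s (s c) n

@[simp] theorem length_chn (s : Γ → Γ) (c : Γ) (n : ℕ) : (chn s c n).length = n := by
  induction n generalizing c with
  | zero => rfl
  | succ n ih => simp [chn, ih]

theorem chn_isChain (s : Γ → Γ) (c : Γ) (n : ℕ) : (chn s c n).IsChain (fun x y => y = s x) := by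
  induction n generalizing c with
  | zero => simp [chn]
  | succ n ih =>
    cases n with
    | zero => simp [chn]
    | succ n => exact List.IsChain.cons_cons rfl (ih (s c))

theorem eq_chn (s : Γ → Γ) : ∀ (c : Γ) (l : List Γ), (c :: l).IsChain (fun x y => y = s x) →
    c :: l = chn s c (l.length + 1)
  | c, [], _ => rfl
  | c, d :: l, h => by
    have h1 : d = s c := h.rel
    have h2 := eq_chn s d l h.tail
    rw [List.length_cons, chn, ← h1, ← h2]

theorem eq_chn' (s : Γ → Γ) (l : List Γ) (c : Γ) (hc : c ∈ l.head?)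
    (h : l.IsChain (fun x y => y = s x)) : l = chn s c l.length := by
  cases l with
  | nil => simp at hc
  | cons d l =>
    simp at hc
    subst hc
    exact eq_chn s d l h

theorem chn_add (s : Γ → Γ) (c : Γ) (m n : ℕ) :
    chn s c (m + n) = chn s c m ++ chn s (s^[m] c) n := by
  induction m generalizing c with
  | zero => simp [chn]
  | succ m ih =>
    rw [Nat.add_right_comm, chn, ih, chn, Function.iterate_succ_apply]
    rfl

theorem iter_even (s : Γ → Γ) (hs : ∀ c, s (s c) = c) (c : Γ) (k : ℕ) : s^[2 * k] c = c := by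
  rw [Function.iterate_mul]
  have : s^[2] = id := by
    funext x; simp [hs]
  rw [this]; simp

theorem iter_congr (s : Γ → Γ) (hs : ∀ c, s (s c) = c) (c : Γ) {m n : ℕ} (h : m % 2 = n % 2) :
    s^[m] c = s^[n] c := by
  have h1 : m = m % 2 + 2 * (m / 2) := (Nat.mod_add_div m 2).symm
  have h2 : n = n % 2 + 2 * (n / 2) := (Nat.mod_add_div n 2).symm
  rw [h1, h2, Function.iterate_add_apply, Function.iterate_add_apply, iter_even s hs,
    iter_even s hs, h]

theorem head?_chn (s : Γ → Γ) (c : Γ) (n : ℕ) (hn : 1 ≤ n) : (chn s c n).head? = some c := by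
  obtain ⟨k, rfl⟩ : ∃ k, n = k + 1 := ⟨n - 1, by omega⟩
  rfl

theorem getLast?_chn (s : Γ → Γ) (c : Γ) (n : ℕ) (hn : 1 ≤ n) :
    (chn s c n).getLast? = some (s^[n - 1] c) := by
  obtain ⟨k, rfl⟩ : ∃ k, n = k + 1 := ⟨n - 1, by omega⟩
  rw [chn_add]
  simp [chn]

theorem barL_chn (f s : Γ → Γ) (hf : ∀ c, f (f c) = c) (hs : ∀ c, s (s c) = c)
    (hfs : ∀ c, f (s c) = s (f c)) (c : Γ) (n : ℕ) (hn : 1 ≤ n) :
    barL f (chn s c n) = chn s (f (s^[n - 1] c)) n := by
  have h1 : (barL f (chn s c n)).IsChain (fun x y => y = s x) := by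
    rw [isChain_barL f (fun x y => y = s x)]
    · exact chn_isChain s c n
    · intro x y
      constructor
      · intro h
        rw [← hfs] at h
        have := congrArg f h
        rw [hf, hf] at this
        rw [this, hs]
      · rintro rfl
        rw [hfs, hs]
  have h2 := eq_chn' s _ (f (s^[n - 1] c)) (by rw [head?_barL, getLast?_chn s c n hn]; simp) h1
  rw [h2]
  simp

theorem chn_inj (s : Γ → Γ) (c d : Γ) (m n : ℕ) (hm : 1 ≤ m) (h : chn s c m = chn s d n) :
    c = d ∧ m = n := by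
  have h1 := congrArg List.length h
  simp at h1
  subst h1
  have h2 := congrArg List.head? h
  rw [head?_chn s c m hm, head?_chn s d m hm] at h2
  exact ⟨by simpa using h2, rfl⟩

theorem take_chn (s : Γ → Γ) (c : Γ) (m n : ℕ) (h : m ≤ n) : (chn s c n).take m = chn s c m := by
  obtain ⟨k, rfl⟩ := Nat.exists_eq_add_of_le h
  rw [chn_add, List.take_append_of_le_length (by simp), List.take_of_length_le (by simp)]

theorem selfdual_chn (f s : Γ → Γ) (hf : ∀ c, f (f c) = c) (hne : ∀ c, f c ≠ c)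
    (hs : ∀ c, s (s c) = c) (hfs : ∀ c, f (s c) = s (f c)) (c : Γ) (n : ℕ) (hn : 1 ≤ n)
    (h : barL f (chn s c n) = chn s c n) : f (s c) = c ∧ n % 2 = 0 := by
  rw [barL_chn f s hf hs hfs c n hn] at h
  have h1 := (chn_inj s _ _ n n hn h).1
  rcases Nat.mod_two_eq_zero_or_one n with h0 | h0
  · refine ⟨?_, h0⟩
    have : s^[n - 1] c = s^[1] c := iter_congr s hs c (by omega)
    rw [this] at h1
    simpa using h1
  · exfalso
    have : s^[n - 1] c = s^[0] c := iter_congr s hs c (by omega)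
    rw [this] at h1
    exact hne c (by simpa using h1)

theorem double_chn (f s : Γ → Γ) (hf : ∀ c, f (f c) = c)
    (hs : ∀ c, s (s c) = c) (hfs : ∀ c, f (s c) = s (f c)) (c : Γ) (k : ℕ)
    (h : f (s c) = c) : chn s c k ++ barL f (chn s c k) = chn s c (k + k) := by
  rcases Nat.eq_zero_or_pos k with rfl | hk
  · simp [chn]
  · rw [barL_chn f s hf hs hfs c k hk, chn_add]
    congr 2
    have h1 : f c = s c := by
      have := congrArg f h
      rw [hf] at this
      exact this.symm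
    have h2 : ∀ m, f (s^[m] c) = s^[m] (f c) := by
      intro m
      induction m with
      | zero => rfl
      | succ m ih => rw [Function.iterate_succ_apply', Function.iterate_succ_apply', hfs, ih]
    rw [h2, h1, ← Function.iterate_succ_apply]
    congr 1
    omega

/-! ### Types of chains -/

omit [StarMul Q] in
theorem pow_eq_of_mod {t₀ p₀ : ℕ} (hQ : ∀ (x : Q) n, t₀ ≤ n → x ^ (n + p₀) = x ^ n) (x : Q)
    (m n : ℕ) (hm : t₀ ≤ m) (hn : t₀ ≤ n) (h : m ≡ n [MOD p₀]) : x ^ m = x ^ n := by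
  have key : ∀ (k n : ℕ), t₀ ≤ n → x ^ (n + p₀ * k) = x ^ n := by
    intro k
    induction k with
    | zero => intro n _; simp
    | succ k ih =>
      intro n hn
      rw [Nat.mul_succ, ← Nat.add_assoc, hQ x _ (by omega), ih n hn]
  rcases le_total m n with hmn | hmn
  · obtain ⟨k, hk⟩ := (Nat.modEq_iff_dvd' hmn).mp h
    have : n = m + p₀ * k := by omega
    rw [this, key k m hm]
  · obtain ⟨k, hk⟩ := (Nat.modEq_iff_dvd' hmn).mp h.symm
    have : m = n + p₀ * k := by omega
    rw [this, key k n hn]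

omit [StarMul Q] in
theorem exists_period [Finite Q] : ∃ t₀ p₀ : ℕ, 0 < p₀ ∧ ∀ (x : Q) n, t₀ ≤ n →
    x ^ (n + p₀) = x ^ n := by
  have := Fintype.ofFinite Q
  have h1 : ∀ x : Q, ∃ t p : ℕ, 0 < p ∧ ∀ n, t ≤ n → x ^ (n + p) = x ^ n := by
    intro x
    obtain ⟨m, n, hmn, he⟩ := Finite.exists_ne_map_eq_of_infinite (fun n : ℕ => x ^ n)
    have : ∀ a b : ℕ, a < b → x ^ a = x ^ b →
        ∃ t p : ℕ, 0 < p ∧ ∀ n, t ≤ n → x ^ (n + p) = x ^ n := by
      intro a b hab h
      refine ⟨a, b - a, by omega, ?_⟩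
      intro n hn
      obtain ⟨k, rfl⟩ := Nat.exists_eq_add_of_le hn
      have e : a + k + (b - a) = b + k := by omega
      rw [e, pow_add, ← h, ← pow_add]
    rcases lt_or_gt_of_ne hmn with h | h
    · exact this m n h he
    · exact this n m h he.symm
  choose t p hp h using h1
  refine ⟨∑ x, t x, ∏ x, p x, Finset.prod_pos (fun x _ => hp x), ?_⟩
  intro x n hn
  have ht : t x ≤ n := (Finset.single_le_sum (f := t) (fun _ _ => Nat.zero_le _)
    (Finset.mem_univ x)).trans hn
  obtain ⟨k, hk⟩ : p x ∣ ∏ x, p x := Finset.dvd_prod_of_mem p (Finset.mem_univ x)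
  rw [hk]
  have key : ∀ (k n : ℕ), t x ≤ n → x ^ (n + p x * k) = x ^ n := by
    intro k
    induction k with
    | zero => intro n _; simp
    | succ k ih =>
      intro n hn
      rw [Nat.mul_succ, ← Nat.add_assoc, h x _ (by omega), ih n hn]
  exact key k n ht

/-- Admissible change of a length. -/
def Good (t P m n : ℕ) : Prop := m = n ∨ (t ≤ m ∧ t ≤ n ∧ m ≡ n [MOD P])

theorem Good.refl (t P m : ℕ) : Good t P m m := Or.inl rfl

theorem Good.add {t P m n m' n' : ℕ} (h : Good t P m n) (h' : Good t P m' n') :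
    Good t P (m + m') (n + n') := by
  rcases h with rfl | ⟨h1, h2, h3⟩
  · rcases h' with rfl | ⟨h4, h5, h6⟩
    · exact Or.inl rfl
    · exact Or.inr ⟨by omega, by omega, Nat.ModEq.add_left _ h6⟩
  · rcases h' with rfl | ⟨h4, h5, h6⟩
    · exact Or.inr ⟨by omega, by omega, Nat.ModEq.add_right _ h3⟩
    · exact Or.inr ⟨by omega, by omega, Nat.ModEq.add h3 h6⟩

theorem μL_chn_even (A : Alpha Q Γ) (s : Γ → Γ) (hs : ∀ c, s (s c) = c) (c : Γ) (k : ℕ) :
    A.μL (chn s c (2 * k)) = (A.μ c * A.μ (s c)) ^ k := by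
  induction k with
  | zero => simp [chn]
  | succ k ih =>
    have : 2 * (k + 1) = 2 + 2 * k := by ring
    rw [this, chn_add, Alpha.μL_append]
    have h2 : s^[2] c = c := iter_even s hs c 1
    rw [h2, ih, pow_succ']
    simp [chn, Alpha.μL]

theorem μL_chn (A : Alpha Q Γ) (s : Γ → Γ) (hs : ∀ c, s (s c) = c) (c : Γ) (n : ℕ) :
    A.μL (chn s c n) = (A.μ c * A.μ (s c)) ^ (n / 2) * A.μ c ^ (n % 2) := by
  have h : n = 2 * (n / 2) + n % 2 := (Nat.div_add_mod n 2).symm
  conv_lhs => rw [h]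
  rw [chn_add, Alpha.μL_append, μL_chn_even A s hs, iter_even s hs]
  congr 1
  rcases Nat.mod_two_eq_zero_or_one n with h0 | h0
  · rw [h0]; simp [chn]
  · rw [h0]; simp [chn, Alpha.μL]

theorem μL_chn_congr (A : Alpha Q Γ) (s : Γ → Γ) (hs : ∀ c, s (s c) = c) {t₀ p₀ : ℕ}
    (hQ : ∀ (x : Q) n, t₀ ≤ n → x ^ (n + p₀) = x ^ n) (c : Γ) (m n : ℕ)
    (h : Good (2 * t₀) (2 * p₀) m n) :
    A.μL (chn s c m) = A.μL (chn s c n) := by
  rcases h with rfl | ⟨h1, h2, h3⟩
  · rfl
  rw [μL_chn A s hs, μL_chn A s hs]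
  have hmod : m % 2 = n % 2 := h3.of_mul_right p₀
  have hdiv : m / 2 ≡ n / 2 [MOD p₀] := by
    have e : 2 * (m / 2) ≡ 2 * (n / 2) [MOD 2 * p₀] := by
      have e1 : m = 2 * (m / 2) + m % 2 := (Nat.div_add_mod m 2).symm
      have e2 : n = 2 * (n / 2) + n % 2 := (Nat.div_add_mod n 2).symm
      have e3 : 2 * (m / 2) + m % 2 ≡ 2 * (n / 2) + m % 2 [MOD 2 * p₀] := by
        rw [← e1, hmod, ← e2]; exact h3
      exact Nat.ModEq.add_right_cancel' _ e3
    exact Nat.ModEq.mul_left_cancel' (by norm_num) e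
  rw [hmod, pow_eq_of_mod hQ _ (m / 2) (n / 2) (by omega) (by omega) hdiv]

theorem Good.half {t P m n : ℕ} (h : Good (2 * t) (2 * P) (2 * m) (2 * n)) : Good t P m n := by
  rcases h with h | ⟨h1, h2, h3⟩
  · left; omega
  · right
    exact ⟨by omega, by omega, Nat.ModEq.mul_left_cancel' (by norm_num) h3⟩

theorem Good.mod2 {t P m n : ℕ} (h : Good t (2 * P) m n) : m % 2 = n % 2 := by
  rcases h with rfl | ⟨_, _, h3⟩
  · rfl
  · exact h3.of_mul_right P

theorem Good.weaken {t P m n : ℕ} (h : Good (2 * t) (2 * P) m n) : Good t P m n := by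
  rcases h with rfl | ⟨h1, h2, h3⟩
  · exact Or.inl rfl
  · exact Or.inr ⟨by omega, by omega, h3.of_mul_left 2⟩

/-- Equivariant choice of generic letters. -/
theorem exists_gen (B : Alpha Q Δ) (A : Alpha Q Γ) :
    ∃ g : Δ → Γ, (∀ t, g (B.bar t) = A.bar (g t)) ∧ ∀ t, A.μ (g t) = B.μ t := by
  choose pre hpre using fun t => A.full (B.μ t)
  refine ⟨fun t => if WellOrderingRel t (B.bar t) then pre t else A.bar (pre (B.bar t)), ?_, ?_⟩
  · intro t
    have htri := trichotomous_of (WellOrderingRel (α := Δ)) t (B.bar t)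
    by_cases h : WellOrderingRel t (B.bar t)
    · have h' : ¬ WellOrderingRel (B.bar t) t :=
        fun h2 => asymm_of (WellOrderingRel (α := Δ)) h h2
      simp only [B.bar_bar]
      rw [if_neg h', if_pos h]
    · have h' : WellOrderingRel (B.bar t) t := by
        rcases htri with h1 | h1 | h1
        · exact absurd h1 h
        · exact absurd h1.symm (B.bar_ne t)
        · exact h1
      simp only [B.bar_bar]
      rw [if_pos h', if_neg h, A.bar_bar]
  · intro t
    change A.μ (if WellOrderingRel t (B.bar t) then pre t else A.bar (pre (B.bar t))) = B.μ t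
    split
    · exact hpre t
    · rw [A.μ_bar, hpre, B.μ_bar, star_star]

end Pool.Agent.helper13.WE
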