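import Pool.Agent.helper13.WE.Cpl

/-!
# The decision procedure
-/

namespace Pool.Agent.helper13.WE

/-! ### Size of a system -/

/-- Size of a symbol. -/
def zs (y : MSym) : ℕ := Sum.casesOn y (fun _ => 0) (fun n => n)

/-- Size of a word. -/
def zw (w : List MSym) : ℕ := w.foldr (fun y a => a + 1 + zs y) 0

/-- Size of a system. -/
def zS (S : MSys) : ℕ := S.foldr (fun e a => a + 1 + zw e.1 + zw e.2) 0

theorem length_le_zw (w : List MSym) : w.length ≤ zw w := by
  induction w with
  | nil => simp
  | cons y w ih =>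
    have : zw (y :: w) = zw w + 1 + zs y := rfl
    rw [this, List.length_cons]; omega

theorem var_lt_zw (w : List MSym) (n : ℕ) (h : Sum.inr n ∈ w) : n < zw w := by
  induction w with
  | nil => simp at h
  | cons y w ih =>
    have e : zw (y :: w) = zw w + 1 + zs y := rfl
    rcases List.mem_cons.mp h with rfl | h
    · rw [e]; simp [zs]
    · have := ih h
      omega

theorem length_le_zS (S : MSys) : S.length ≤ zS S := by
  induction S with
  | nil => simp
  | cons e S ih =>
    have : zS (e :: S) = zS S + 1 + zw e.1 + zw e.2 := rfl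
    rw [this, List.length_cons]; omega

theorem mem_le_zS (S : MSys) (e : List MSym × List MSym) (h : e ∈ S) :
    zw e.1 ≤ zS S ∧ zw e.2 ≤ zS S := by
  induction S with
  | nil => simp at h
  | cons e' S ih =>
    have e1 : zS (e' :: S) = zS S + 1 + zw e'.1 + zw e'.2 := rfl
    rcases List.mem_cons.mp h with rfl | h
    · rw [e1]; omega
    · have := ih h
      omega

theorem small_zS (S : MSys) : Small S (zS S) where
  len := length_le_zS S
  len1 e he := (length_le_zw e.1).trans (mem_le_zS S e he).1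
  len2 e he := (length_le_zw e.2).trans (mem_le_zS S e he).2
  var1 e he n hn := lt_of_lt_of_le (var_lt_zw e.1 n hn) (mem_le_zS S e he).1
  var2 e he n hn := lt_of_lt_of_le (var_lt_zw e.2 n hn) (mem_le_zS S e he).2

/-! ### Enumerations -/

/-- All words of length at most `n`. -/
def wds (n : ℕ) : List (List Bool) :=
  Nat.rec [[]] (fun _ L => [] :: L.flatMap (fun w => [false :: w, true :: w])) n

theorem mem_wds (n : ℕ) (w : List Bool) (h : w.length ≤ n) : w ∈ wds n := by
  induction n generalizing w with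
  | zero =>
    have : w = [] := List.length_eq_zero_iff.mp (by omega)
    subst this
    simp [wds]
  | succ n ih =>
    have e : wds (n + 1) = [] :: (wds n).flatMap (fun w => [false :: w, true :: w]) := rfl
    rw [e]
    cases w with
    | nil => simp
    | cons x w =>
      right
      apply List.mem_flatMap.mpr
      refine ⟨w, ih w (by simp at h; omega), ?_⟩
      cases x <;> simp

/-- All lists of length `k` with entries in `L`. -/
def asg (L : List (List Bool)) (k : ℕ) : List (List (List Bool)) :=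
  Nat.rec [[]] (fun _ acc => acc.flatMap (fun α => L.map (fun w => w :: α))) k

theorem mem_asg (L : List (List Bool)) (α : List (List Bool)) (h : ∀ w ∈ α, w ∈ L) :
    α ∈ asg L α.length := by
  induction α with
  | nil => simp [asg]
  | cons w α ih =>
    have e : asg L (w :: α).length = (asg L α.length).flatMap (fun α => L.map (fun w => w :: α)) :=
      rfl
    rw [e]
    apply List.mem_flatMap.mpr
    refine ⟨α, ih (fun v hv => h v (by simp [hv])), ?_⟩
    exact List.mem_map.mpr ⟨w, h w (by simp), rfl⟩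

/-- Substitution in a symbol. -/
def sub1 (α : List (List Bool)) (y : MSym) : List Bool :=
  Sum.casesOn y (fun x => [x]) (fun n => α.getD n [])

/-- Substitution in a word. -/
def subW (α : List (List Bool)) (w : List MSym) : List Bool := w.flatMap (sub1 α)

theorem val_subW (α : List (List Bool)) (w : List MSym) :
    val (subW α w) = (w.map (Sum.elim gM (fun n => val (α.getD n [])))).prod := by
  induction w with
  | nil => rfl
  | cons y w ih =>
    have e : subW α (y :: w) = sub1 α y ++ subW α w := rfl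
    rw [e]
    unfold val at ih ⊢
    rw [List.map_append, List.prod_append, ih, List.map_cons, List.prod_cons]
    congr 1
    cases y with
    | inl x => simp [sub1]
    | inr n => simp [sub1]

/-- The search. -/
def srch (B : ℕ → ℕ) (S : MSys) : Prop :=
  ∃ α ∈ asg (wds (B (zS S))) (zS S), ∀ e ∈ S, nf (subW α e.1) = nf (subW α e.2)

theorem srch_iff (B : ℕ → ℕ) (hB : ∀ (S : MSys) (z : ℕ), Small S z → (∃ ρ, MSol S ρ) →
    ∃ α : ℕ → List Bool, (∀ n, (α n).length ≤ B z) ∧ MSol S (fun n => val (α n))) (S : MSys) :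
    srch B S ↔ ∃ ρ, MSol S ρ := by
  constructor
  · rintro ⟨α, _, hα⟩
    refine ⟨fun n => val (α.getD n []), ?_⟩
    intro e he
    have := (nf_iff _ _).mp (hα e he)
    rw [val_subW, val_subW] at this
    exact this
  · intro h
    obtain ⟨α, h1, h2⟩ := hB S (zS S) (small_zS S) h
    set α' : List (List Bool) := (List.range (zS S)).map α with hα'
    have hlen : α'.length = zS S := by simp [hα']
    have hget : ∀ n, n < zS S → α'.getD n [] = α n := by
      intro n hn
      simp [hα', hn]
    refine ⟨α', ?_, ?_⟩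
    · have := mem_asg (wds (B (zS S))) α' (by
        intro w hw
        rw [hα'] at hw
        obtain ⟨n, _, rfl⟩ := List.mem_map.mp hw
        exact mem_wds _ _ (h1 n))
      rwa [hlen] at this
    · intro e he
      rw [nf_iff, val_subW, val_subW]
      have key : ∀ w : List MSym, (∀ n, Sum.inr n ∈ w → n < zS S) →
          w.map (Sum.elim gM (fun n => val (α'.getD n []))) =
          w.map (Sum.elim gM (fun n => val (α n))) := by
        intro w hw
        apply List.map_congr_left
        intro y hy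
        match y, hy with
        | Sum.inl x, _ => rfl
        | Sum.inr n, hy =>
          change val (α'.getD n []) = val (α n)
          rw [hget n (hw n hy)]
      rw [key _ ((small_zS S).var1 e he), key _ ((small_zS S).var2 e he)]
      exact h2 e he

/-! ### Primitive recursiveness -/

theorem pr_pU : Primrec pU :=
  Primrec.pair (Primrec.not.comp Primrec.fst) Primrec.snd

theorem pr_pB : Primrec pB :=
  Primrec.pair (Primrec.const false)
    (Primrec.list_cons.comp (Primrec.pair (Primrec.const true) Primrec.fst) Primrec.snd)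

theorem pr_pA : Primrec pA := by
  have h1 : Primrec (fun s : Stk => s.2.head?.map Prod.fst) :=
    Primrec.option_map (Primrec.list_head?.comp Primrec.snd)
      (Primrec.fst.comp Primrec.snd).to₂
  have h2 : Primrec (fun s : Stk => s.2.head?.map Prod.snd) :=
    Primrec.option_map (Primrec.list_head?.comp Primrec.snd)
      (Primrec.snd.comp Primrec.snd).to₂
  unfold pA
  apply Primrec.ite
  · apply PrimrecPred.and
    · exact Primrec.eq.comp Primrec.fst (Primrec.const false)
    · exact Primrec.eq.comp h1 (Primrec.const _)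
  · exact Primrec.pair (Primrec.option_getD.comp h2 (Primrec.const false))
      (Primrec.list_tail.comp Primrec.snd)
  · exact Primrec.pair (Primrec.const false)
      (Primrec.list_cons.comp (Primrec.pair (Primrec.const false) Primrec.fst) Primrec.snd)

theorem pr_actM : Primrec₂ actM := by
  unfold actM
  apply Primrec.ite
  · exact Primrec.eq.comp Primrec.fst (Primrec.const true)
  · exact pr_pB.comp (pr_pU.comp Primrec.snd)
  · exact pr_pA.comp Primrec.snd

theorem pr_nf : Primrec nf := by
  unfold nf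
  exact Primrec.list_foldr Primrec.id (Primrec.const s0)
    (pr_actM.comp (Primrec.fst.comp Primrec.snd) (Primrec.snd.comp Primrec.snd)).to₂

theorem pr_sub1 : Primrec₂ sub1 := by
  unfold sub1
  exact Primrec.sumCasesOn Primrec.snd
    ((Primrec.list_cons.comp Primrec.snd (Primrec.const [])).to₂)
    (((Primrec.list_getD []).comp (Primrec.fst.comp Primrec.fst) Primrec.snd).to₂)

theorem pr_subW : Primrec₂ subW := by
  unfold subW
  exact Primrec.list_flatMap Primrec.snd (pr_sub1.comp (Primrec.fst.comp Primrec.fst) Primrec.snd)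

theorem pr_zs : Primrec zs := by
  unfold zs
  exact Primrec.sumCasesOn Primrec.id (Primrec.const 0).to₂ Primrec.snd.to₂

theorem pr_zw : Primrec zw :=
  Primrec.list_foldr (f := fun w : List MSym => w) (g := fun _ => (0 : ℕ))
    (h := fun (_ : List MSym) (p : MSym × ℕ) => p.2 + 1 + zs p.1) Primrec.id (Primrec.const 0)
    (Primrec.nat_add.comp (Primrec.succ.comp (Primrec.snd.comp Primrec.snd))
      (pr_zs.comp (Primrec.fst.comp Primrec.snd))).to₂

theorem pr_zS : Primrec zS :=
  Primrec.list_foldr (f := fun S : MSys => S) (g := fun _ => (0 : ℕ))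
    (h := fun (_ : MSys) (p : (List MSym × List MSym) × ℕ) => p.2 + 1 + zw p.1.1 + zw p.1.2)
    Primrec.id (Primrec.const 0)
    (Primrec.nat_add.comp (Primrec.nat_add.comp
      (Primrec.succ.comp (Primrec.snd.comp Primrec.snd))
      (pr_zw.comp (Primrec.fst.comp (Primrec.fst.comp Primrec.snd))))
      (pr_zw.comp (Primrec.snd.comp (Primrec.fst.comp Primrec.snd)))).to₂

/-- Extending words by one letter. -/
def ext2 (w : List Bool) : List (List Bool) := [false :: w, true :: w]

theorem pr_ext2 : Primrec ext2 :=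
  Primrec.list_cons.comp (Primrec.list_cons.comp (Primrec.const false) Primrec.id)
    (Primrec.list_cons.comp (Primrec.list_cons.comp (Primrec.const true) Primrec.id)
      (Primrec.const []))

theorem pr_wds : Primrec wds :=
  Primrec.nat_rec' (f := fun n : ℕ => n) (g := fun _ => ([[]] : List (List Bool)))
    (h := fun (_ : ℕ) (p : ℕ × List (List Bool)) => [] :: p.2.flatMap ext2)
    Primrec.id (Primrec.const [[]])
    (Primrec.list_cons.comp (Primrec.const [])
      (Primrec.list_flatMap (f := fun p : ℕ × (ℕ × List (List Bool)) => p.2.2)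
        (g := fun _ w => ext2 w)
        (Primrec.snd.comp Primrec.snd) (pr_ext2.comp Primrec.snd).to₂)).to₂

/-- Prepending the words of a list. -/
def prep (L : List (List Bool)) (α : List (List Bool)) : List (List (List Bool)) :=
  L.map (fun w => w :: α)

theorem pr_prep : Primrec₂ prep :=
  Primrec.list_map (f := fun p : List (List Bool) × List (List Bool) => p.1)
    (g := fun (p : List (List Bool) × List (List Bool)) (w : List Bool) => w :: p.2)
    Primrec.fst
    (Primrec.list_cons.comp Primrec.snd (Primrec.snd.comp Primrec.fst)).to₂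

theorem pr_asg : Primrec₂ asg :=
  Primrec.nat_rec' (f := fun q : List (List Bool) × ℕ => q.2)
    (g := fun _ => ([[]] : List (List (List Bool))))
    (h := fun (q : List (List Bool) × ℕ) (p : ℕ × List (List (List Bool))) =>
      p.2.flatMap (fun α => prep q.1 α))
    Primrec.snd (Primrec.const [[]])
    (Primrec.list_flatMap
      (f := fun r : (List (List Bool) × ℕ) × (ℕ × List (List (List Bool))) => r.2.2)
      (g := fun r α => prep r.1.1 α)
      (Primrec.snd.comp Primrec.snd)
      (pr_prep.comp (Primrec.fst.comp (Primrec.fst.comp Primrec.fst)) Primrec.snd).to₂).to₂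

theorem pr_srch (B : ℕ → ℕ) (hB : Primrec B) : PrimrecPred (srch B) := by
  have h1 : PrimrecRel (fun (e : List MSym × List MSym) (α : List (List Bool)) =>
      nf (subW α e.1) = nf (subW α e.2)) :=
    Primrec.eq.comp (pr_nf.comp (pr_subW.comp Primrec.snd (Primrec.fst.comp Primrec.fst)))
      (pr_nf.comp (pr_subW.comp Primrec.snd (Primrec.snd.comp Primrec.fst)))
  have h2 : PrimrecRel (fun (S : MSys) (α : List (List Bool)) =>
      ∀ e ∈ S, nf (subW α e.1) = nf (subW α e.2)) := PrimrecRel.forall_mem_list h1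
  have h3 : PrimrecRel (fun (α : List (List Bool)) (S : MSys) =>
      ∀ e ∈ S, nf (subW α e.1) = nf (subW α e.2)) := h2.comp Primrec.snd Primrec.fst
  have h4 := PrimrecRel.exists_mem_list h3
  exact h4.comp (pr_asg.comp (pr_wds.comp (hB.comp pr_zS)) pr_zS) Primrec.id

/-! ### The bound is primitive recursive -/

theorem pAdd {f g : ℕ → ℕ} (hf : Primrec f) (hg : Primrec g) : Primrec (fun z => f z + g z) :=
  Primrec.nat_add.comp hf hg

theorem pMul {f g : ℕ → ℕ} (hf : Primrec f) (hg : Primrec g) : Primrec (fun z => f z * g z) :=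
  Primrec.nat_mul.comp hf hg

theorem nat_pow_pr : Primrec₂ (fun a b : ℕ => a ^ b) := by
  have h : Primrec₂ (fun a b : ℕ => (Nat.rec 1 (fun _ x => x * a) b : ℕ)) :=
    Primrec.nat_rec' (f := fun q : ℕ × ℕ => q.2) (g := fun _ => (1 : ℕ))
      (h := fun (q : ℕ × ℕ) (p : ℕ × ℕ) => p.2 * q.1) Primrec.snd (Primrec.const 1)
      (Primrec.nat_mul.comp (Primrec.snd.comp Primrec.snd) (Primrec.fst.comp Primrec.fst)).to₂
  refine h.of_eq ?_
  intro a b
  induction b with
  | zero => simp
  | succ b ih => rw [pow_succ, ← ih]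

theorem pPow {f g : ℕ → ℕ} (hf : Primrec f) (hg : Primrec g) : Primrec (fun z => f z ^ g z) :=
  nat_pow_pr.comp hf hg

theorem pc (c : ℕ) : Primrec (fun _ : ℕ => c) := Primrec.const c

theorem pr_bLam {S : ℕ → ℕ} (hS : Primrec S) (t P : ℕ) : Primrec (fun z => bLam (S z) t P) :=
  pAdd (pc (t + P)) (pMul (pc P) (pPow (pAdd (pAdd hS (pAdd hS (pMul (pc (t + P))
    (pMul (pc 2) hS)))) (pc 2)) (pPow (pc 11) (pMul hS hS))))

theorem pr_bC {S : ℕ → ℕ} (hS : Primrec S) (t P : ℕ) : Primrec (fun z => bC (S z) t P) :=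
  pMul (pAdd hS (pc 1)) (pAdd (pr_bLam hS t P) (pc 1))

theorem pr_cA (t₀ p₀ : ℕ) {N M : ℕ → ℕ} (hN : Primrec N) (hM : Primrec M) :
    Primrec (fun z => cA t₀ p₀ (N z) (M z)) :=
  pr_bC (pMul (pc 3) (pAdd hN hM)) (4 * t₀) (4 * p₀)

theorem pr_cB (t₀ p₀ : ℕ) {N M : ℕ → ℕ} (hN : Primrec N) (hM : Primrec M) :
    Primrec (fun z => cB t₀ p₀ (N z) (M z)) :=
  pr_bC (pMul (pc 3) (pAdd hN (pMul (pc 3) hM))) (4 * t₀) (4 * p₀)

theorem pr_pa (t₀ p₀ : ℕ) {N M : ℕ → ℕ} (hN : Primrec N) (hM : Primrec M) :
    Primrec (fun z => pa t₀ p₀ (N z) (M z)) :=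
  pMul (pr_cA t₀ p₀ hN hM) (pMul (pr_cB t₀ p₀ hN hM) (pc 2))

theorem pr_pb (t₀ p₀ : ℕ) {N M m : ℕ → ℕ} (hN : Primrec N) (hM : Primrec M) (hm : Primrec m) :
    Primrec (fun z => pb t₀ p₀ (N z) (M z) (m z)) :=
  pAdd (pMul (pr_cA t₀ p₀ hN hM) (pAdd (pMul (pr_cB t₀ p₀ hN hM) (pMul (pc 4) hm))
    (pMul (pMul (pc 2) (pr_cB t₀ p₀ hN hM)) hm))) (pMul (pMul (pc 2) (pr_cA t₀ p₀ hN hM)) hm)

theorem pr_cK (cq : ℕ) {v i N M : ℕ → ℕ} (hv : Primrec v) (hi : Primrec i) (hN : Primrec N)
    (hM : Primrec M) : Primrec (fun z => cK cq (v z) (i z) (N z) (M z)) :=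
  pMul (pPow (pc 2) hv) (pMul (pPow (pc cq) hv) (pMul (pPow (pc cq) hN)
    (pPow (pPow (pPow (pAdd (pAdd (pAdd (pMul (pc 2) hN) (pc (2 * cq))) (pMul (pc 2) hv)) (pc 1))
      (pAdd hN hM)) (pc 2)) hi)))

theorem pr_mB (t₀ p₀ cq : ℕ) {v i N M : ℕ → ℕ} (hv : Primrec v) (hi : Primrec i)
    (hN : Primrec N) (hM : Primrec M) :
    Primrec (fun z => mB t₀ p₀ cq (v z) (i z) (N z) (M z)) :=
  pPow (pAdd (pAdd (pr_pa t₀ p₀ hN hM) (pr_pb t₀ p₀ hN hM hv)) (pc 1)) (pr_cK cq hv hi hN hM)

theorem pr_cI : Primrec cI :=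
  pMul Primrec.id (pMul (pc 2) (pMul (pAdd Primrec.id (pc 1)) (pc 3)))

theorem pr_bndM (t₀ p₀ cq C : ℕ) : Primrec (bndM t₀ p₀ cq C) :=
  pMul (pc 3) (pMul (pc C) (pr_mB t₀ p₀ cq (pAdd Primrec.id pr_cI) pr_cI
    (pAdd (pAdd (pMul (pc 6) pr_cI) (pMul (pc 60) (pMul (pc 4) pr_cI))) (pMul (pc 4) pr_cI))
    (pMul (pc 4) pr_cI)))

/-- The Diophantine problem of `⟨b, c | bcbc = 1⟩` is decidable. -/
theorem diophantine_computable : ComputablePred (fun S : MSys => ∃ ρ, MSol S ρ) := by
  obtain ⟨t₀, p₀, cq, C, h⟩ := small_solution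
  have h1 := (pr_srch (bndM t₀ p₀ cq C) (pr_bndM t₀ p₀ cq C)).computablePred
  exact h1.of_eq (fun S => srch_iff (bndM t₀ p₀ cq C) h S)

end Pool.Agent.helper13.WE
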