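import Pool.Agent.helper13.WE.Red

/-!
# Completeness of the reduction and the bound for solutions
-/

namespace Pool.Agent.helper13.WE

theorem ez_complete (S : MSys) (z : ℕ) (hS : Small S z) (ρ : ℕ → MM) (hρ : MSol S ρ) :
    ∃ σ : VZ z → List SG, Solves fS σ (EZ S z) ∧
      (∀ i s j, run (σ (Sum.inr (i, s, j, 1))) = 0) := by
  choose X hX1 hX2 using fun n => exists_red (ρ n)
  -- prefix products
  set pp : Fin z → Bool → ℕ → MM := fun i s j =>
    (((side S i s).take j).map (Sum.elim gM ρ)).prod with hpp
  choose W hW1 hW2 using fun (i : Fin z) (s : Bool) (j : ℕ) => exists_red (pp i s j)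
  set Y : Fin z → Bool → ℕ → List L3 := fun i s j =>
    match (side S i s)[j]? with
    | none => []
    | some (Sum.inl false) => [L3.a]
    | some (Sum.inl true) => [L3.b, L3.u]
    | some (Sum.inr n) => X n with hY
  have hYred : ∀ i s j, Red (Y i s j) ∧
      ph (Y i s j) = (((side S i s)[j]?.toList).map (Sum.elim gM ρ)).prod := by
    intro i s j
    simp only [hY]
    generalize (side S i s)[j]? = o
    match o with
    | none => exact ⟨by simp [Red], by simp [ph]⟩
    | some (Sum.inl false) => exact ⟨by simp [Red], by simp [ph, g3]⟩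
    | some (Sum.inl true) => exact ⟨by simp [Red, canc], by simp [ph, gM_c]⟩
    | some (Sum.inr n) => exact ⟨hX1 n, by simp [hX2]⟩
  choose A P B hA1 hA2 hA3 hA4 using fun (i : Fin z) (s : Bool) (j : ℕ) =>
    red_mul (W i s j) (Y i s j) (hW1 i s j) (hYred i s j).1
  have hstep : ∀ i s j, A i s j ++ B i s j = W i s (j + 1) := by
    intro i s j
    apply ph_inj _ _ (hA4 i s j) (hW1 i s (j + 1))
    rw [hW2]
    have e1 : pp i s (j + 1) = pp i s j * ph (Y i s j) := by
      rw [(hYred i s j).2]
      simp only [hpp]
      rw [List.take_add_one, List.map_append, List.prod_append]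
    rw [e1, ← hW2, hA1 i s j, hA2 i s j, ph_append, ph_append, ph_append]
    have hPP := ph_bar (P i s j) (hA3 i s j)
    calc ph (A i s j) * ph (B i s j)
        = ph (A i s j) * (ph (P i s j) * ph (barL bar3 (P i s j))) * ph (B i s j) := by
          rw [hPP, mul_one]
      _ = _ := by simp only [mul_assoc]
  have hW0 : ∀ i s, W i s 0 = [] := by
    intro i s
    apply ph_inj _ _ (hW1 i s 0) (by simp [Red])
    rw [hW2]
    simp [hpp, ph]
  set σ : VZ z → List SG := fun v =>
    match v with
    | Sum.inl n => encL (X n)
    | Sum.inr (i, s, j, k) =>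
      if k = 0 then encL (A i s j) else if k = 1 then encL (P i s j) else encL (B i s j) with hσ
  have s0 : ∀ i s j, σ (Sum.inr (i, s, j, 0)) = encL (A i s j) := by
    intro i s j; simp [hσ]
  have s1 : ∀ i s j, σ (Sum.inr (i, s, j, 1)) = encL (P i s j) := by
    intro i s j; simp [hσ]
  have s2 : ∀ i s j, σ (Sum.inr (i, s, j, 2)) = encL (B i s j) := by
    intro i s j; simp [hσ]
  have sx : ∀ n, σ (Sum.inl n) = encL (X n) := by
    intro n; simp [hσ]
  clear_value σ
  have hyw : ∀ (i : Fin z) s (j : ℕ), ev fS σ (yw z (side S i s)[j]?) = encL (Y i s j) := by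
    intro i s j
    have hsp := (side_spec S z hS i s).2
    simp only [hY]
    cases ho : (side S i s)[j]? with
    | none => rfl
    | some y =>
      have hmem : y ∈ side S i s := List.mem_of_getElem? ho
      match y, hmem with
      | Sum.inl false, _ => simp only [yw, ev_map_inl]
      | Sum.inl true, _ => simp only [yw, ev_map_inl]
      | Sum.inr n, hmem =>
        have hn := hsp n hmem
        simp only [yw]
        rw [dif_pos hn]
        simp [ev, evs, sx]
  have hab : ∀ i s (j : Fin (z + 1)), ev fS σ (ab z i s j) = encL (W i s (j + 1)) := by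
    intro i s j
    rw [ev_ab, s0, s2, ← encL_append, hstep]
  refine ⟨σ, ?_, ?_⟩
  · rintro ⟨i, s, j, k⟩
    by_cases h0 : k = 0
    · subst h0
      have ht : ev fS σ (EZ S z (i, s, j, 0) true) = encL (W i s j) := by
        have : ev fS σ (EZ S z (i, s, j, 0) true) =
            σ (Sum.inr (i, s, j, 0)) ++ σ (Sum.inr (i, s, j, 1)) := by simp [EZ, ev, evs]
        rw [this, s0, s1, ← encL_append, ← hA1]
      rw [ht]
      refine Fin.cases ?_ (fun j' => ?_) j
      · have : EZ S z (i, s, 0, 0) false = [] := by simp [EZ]
        rw [this]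
        simp only [Fin.val_zero]
        rw [hW0]
        rfl
      · have : EZ S z (i, s, j'.succ, 0) false = ab z i s j'.castSucc := by simp [EZ]
        rw [this, hab]
        simp
    · by_cases h1 : k = 1
      · subst h1
        have hf' : ev fS σ (EZ S z (i, s, j, 1) false) = encL (Y i s j) := by
          have : EZ S z (i, s, j, 1) false = yw z (side S i s)[(j : ℕ)]? := by simp [EZ]
          rw [this, hyw]
        have ht : ev fS σ (EZ S z (i, s, j, 1) true) =
            barL fS (σ (Sum.inr (i, s, j, 1))) ++ σ (Sum.inr (i, s, j, 2)) := by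
          simp [EZ, ev, evs]
        rw [hf', ht, s1, s2, ← encL_bar, ← encL_append, ← hA2]
      · have hf' : ∀ b, EZ S z (i, s, j, k) b = ab z i b (Fin.last z) := by
          intro b; simp [EZ, h0, h1]
        rw [hf', hf', hab, hab]
        congr 1
        apply ph_inj _ _ (hW1 _ _ _) (hW1 _ _ _)
        rw [hW2, hW2]
        simp only [hpp, Fin.val_last]
        rw [List.take_of_length_le (by have := (side_spec S z hS i false).1; omega),
          List.take_of_length_le (by have := (side_spec S z hS i true).1; omega)]
        by_cases hi : (i : ℕ) < S.length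
        · have hsf : side S i false = S[(i : ℕ)].1 := by simp [side, hi]
          have hst : side S i true = S[(i : ℕ)].2 := by simp [side, hi]
          rw [hsf, hst]
          exact hρ _ (List.getElem_mem hi)
        · have : S.getD i ([], []) = ([], []) := List.getD_eq_default _ _ (by omega)
          unfold side
          rw [this]
          simp
  · intro i s j
    rw [s1]
    exact run_encL _ (hA3 i s j)

/-- Words over the generators. -/
def toB (c : SG) : List Bool :=
  match c with
  | (false, false) => [false]
  | (false, true) => [true, false, true]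
  | (true, false) => [false, true]
  | (true, true) => []

theorem val_toB (w : List SG) : val (w.flatMap toB) = etaL w := by
  induction w with
  | nil => rfl
  | cons c w ih =>
    have e1 : etaL (c :: w) = eta c * etaL w := by simp [etaL]
    have e2 : val ((c :: w).flatMap toB) = val (toB c) * val (w.flatMap toB) := by simp [val]
    rw [e1, e2, ih]
    congr 1
    match c with
    | (false, false) => simp [val, toB, eta, g3]
    | (false, true) => simp [val, toB, eta, g3, mul_assoc]
    | (true, false) => simp [val, toB, eta, g3]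
    | (true, true) => simp [val, toB, eta]

theorem length_toB (w : List SG) : (w.flatMap toB).length ≤ 3 * w.length := by
  induction w with
  | nil => simp
  | cons c w ih =>
    rw [List.flatMap_cons, List.length_append, List.length_cons]
    have : (toB c).length ≤ 3 := by
      match c with
      | (false, false) => simp [toB]
      | (false, true) => simp [toB]
      | (true, false) => simp [toB]
      | (true, true) => simp [toB]
    omega

/-- The bound. -/
def bndM (t₀ p₀ cq C z : ℕ) : ℕ :=
  3 * (C * mB t₀ p₀ cq (z + cI z) (cI z) (6 * cI z + 60 * (4 * cI z) + 4 * cI z) (4 * cI z))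

/-- Solvable systems have small solutions. -/
theorem small_solution : ∃ t₀ p₀ cq C : ℕ, ∀ (S : MSys) (z : ℕ), Small S z →
    (∃ ρ, MSol S ρ) → ∃ α : ℕ → List Bool, (∀ n, (α n).length ≤ bndM t₀ p₀ cq C z) ∧
      MSol S (fun n => val (α n)) := by
  have hfin : Finite (Function.End (Fin 3)) := inferInstanceAs (Finite (Fin 3 → Fin 3))
  obtain ⟨t₀, p₀, cq, C, h⟩ := top_T (T := Function.End (Fin 3)) fS fS_fS fS_ne τS
  refine ⟨t₀, p₀, cq, C, ?_⟩
  rintro S z hS ⟨ρ, hρ⟩
  obtain ⟨σ, h1, h2⟩ := ez_complete S z hS ρ hρ
  obtain ⟨σ', h3, h4, h5⟩ := h (VZ z) (IZ z) inferInstance inferInstance (EZ S z)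
    (6 * cI z + 60 * (4 * cI z) + 4 * cI z) (4 * cI z)
    (by have := NL_EZ S z; omega) (NV_EZ S z) (by rw [card_IZ]; omega) σ h1
  refine ⟨fun n => if hn : n < z then (σ' (Sum.inl ⟨n, hn⟩)).flatMap toB else [], ?_, ?_⟩
  · intro n
    by_cases hn : n < z
    · simp only [hn, dite_true]
      refine (length_toB _).trans ?_
      unfold bndM
      apply Nat.mul_le_mul_left
      have := h5 (Sum.inl ⟨n, hn⟩)
      rw [card_VZ, card_IZ] at this
      exact this
    · simp [hn]
  · apply ez_sound S z hS σ' h3
    · intro i s j
      have := h4 (Sum.inr (i, s, j, 1))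
      unfold run
      rw [this]
      exact h2 i s j
    · intro n hn
      simp only [hn, dite_true]
      exact val_toB _

end Pool.Agent.helper13.WE
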