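import Pool.Agent.helper13.WE.Top

/-!
# Types in an arbitrary finite monoid
-/

namespace Pool.Agent.helper13.WE

open MulOpposite

variable {Γ : Type}

/-- The doubled type of a letter. -/
def dμ {T : Type} (f : Γ → Γ) (τ : Γ → T) (c : Γ) : T × Tᵐᵒᵖ := (τ c, op (τ (f c)))

/-- The swap. -/
def dsw {T : Type} (x : T × Tᵐᵒᵖ) : T × Tᵐᵒᵖ := (unop x.2, op x.1)

theorem dsw_mul {T : Type} [Monoid T] (x y : T × Tᵐᵒᵖ) : dsw (x * y) = dsw y * dsw x := by
  unfold dsw; simp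

theorem dsw_one {T : Type} [Monoid T] : dsw (1 : T × Tᵐᵒᵖ) = 1 := rfl

theorem dsw_dsw {T : Type} (x : T × Tᵐᵒᵖ) : dsw (dsw x) = x := rfl

theorem dsw_dμ {T : Type} (f : Γ → Γ) (hf : ∀ c, f (f c) = c) (τ : Γ → T) (c : Γ) :
    dsw (dμ f τ c) = dμ f τ (f c) := by
  unfold dsw dμ; simp [hf]

/-- The generated submonoid. -/
def dQ {T : Type} [Monoid T] (f : Γ → Γ) (τ : Γ → T) : Submonoid (T × Tᵐᵒᵖ) where
  carrier := {x | ∃ w : List Γ, (w.map (dμ f τ)).prod = x}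
  one_mem' := ⟨[], rfl⟩
  mul_mem' := by
    rintro x y ⟨w, rfl⟩ ⟨w', rfl⟩
    exact ⟨w ++ w', by simp⟩

theorem dsw_mem {T : Type} [Monoid T] (f : Γ → Γ) (hf : ∀ c, f (f c) = c) (τ : Γ → T)
    (x : T × Tᵐᵒᵖ) (hx : x ∈ dQ f τ) : dsw x ∈ dQ f τ := by
  obtain ⟨w, rfl⟩ := hx
  refine ⟨barL f w, ?_⟩
  induction w with
  | nil => rfl
  | cons c w ih =>
    rw [barL_cons, List.map_append, List.prod_append, ih,
      show ((c :: w).map (dμ f τ)).prod = dμ f τ c * (w.map (dμ f τ)).prod from by simp,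
      dsw_mul, dsw_dμ f hf]
    simp

/-- The star structure. -/
@[reducible] def dStar {T : Type} [Monoid T] (f : Γ → Γ) (hf : ∀ c, f (f c) = c) (τ : Γ → T) :
    StarMul (dQ f τ) where
  star x := ⟨dsw x.1, dsw_mem f hf τ x.1 x.2⟩
  star_involutive _ := rfl
  star_mul x y := Subtype.ext (dsw_mul x.1 y.1)

theorem top_T {T : Type} [Monoid T] [Finite T] (f : Γ → Γ) (hf : ∀ c, f (f c) = c)
    (hne : ∀ c, f c ≠ c) (τ : Γ → T) :
    ∃ t₀ p₀ cq C : ℕ, ∀ (V I : Type) (_ : Fintype V) (_ : Fintype I)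
      (E : I → Bool → List (Sym Γ V)) (N M : ℕ) (_ : NL E ≤ N) (_ : NV E ≤ M)
      (_ : 60 * M + 4 * Fintype.card I ≤ N) (σ : V → List Γ) (_ : Solves f σ E),
      ∃ σ' : V → List Γ, Solves f σ' E ∧ (∀ v, ((σ' v).map τ).prod = ((σ v).map τ).prod) ∧
        ∀ v, (σ' v).length ≤ C * mB t₀ p₀ cq (Fintype.card V) (Fintype.card I) N M := by
  let _ : StarMul (dQ f τ) := dStar f hf τ
  have hfin : Finite (T × Tᵐᵒᵖ) := by
    have : Finite Tᵐᵒᵖ := Finite.of_equiv T MulOpposite.opEquiv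
    infer_instance
  have : Finite (dQ f τ) := Subtype.finite
  set μ : Γ → dQ f τ := fun c => ⟨dμ f τ c, [c], by simp⟩ with hμ
  have hval : ∀ w : List Γ, (((w.map μ).prod : dQ f τ) : T × Tᵐᵒᵖ) = (w.map (dμ f τ)).prod := by
    intro w
    induction w with
    | nil => rfl
    | cons c w ih =>
      rw [List.map_cons, List.prod_cons, List.map_cons, List.prod_cons, ← ih]
      rfl
  have hfst : ∀ w : List Γ, ((w.map (dμ f τ)).prod).1 = (w.map τ).prod := by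
    intro w
    induction w with
    | nil => rfl
    | cons c w ih =>
      rw [List.map_cons, List.prod_cons, List.map_cons, List.prod_cons, ← ih]
      rfl
  obtain ⟨t₀, p₀, cq, C, h⟩ := top_bound (Q := dQ f τ) f hf hne μ
    (fun c => Subtype.ext (dsw_dμ f hf τ c).symm)
    (by
      rintro ⟨x, w, rfl⟩
      exact ⟨w, Subtype.ext (hval w)⟩)
  refine ⟨t₀, p₀, cq, C, ?_⟩
  intro V I iV iI E N M h1 h2 h3 σ hσ
  obtain ⟨σ', h4, h5, h6⟩ := h V I iV iI E N M h1 h2 h3 σ hσ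
  refine ⟨σ', h4, ?_, h6⟩
  intro v
  have := congrArg Subtype.val (h5 v)
  rw [hval, hval] at this
  have := congrArg Prod.fst this
  rwa [hfst, hfst] at this

end Pool.Agent.helper13.WE
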