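import Mathlib

/-!
# Grouping a list into maximal chains of a relation
-/

namespace Pool.Agent.helper13.WE

variable {α β : Type*}

/-- No pair at the boundary of `u` and `v` is related. -/
def Bd (r : α → α → Prop) (u v : List α) : Prop := ∀ x ∈ u.getLast?, ∀ y ∈ v.head?, ¬ r x y

open Classical in
/-- Put one more element in front of a list of groups. -/
noncomputable def push (r : α → α → Prop) (a : α) : List (List α) → List (List α)
  | (b :: g) :: gs => if r a b then (a :: b :: g) :: gs else [a] :: (b :: g) :: gs
  | gs => [a] :: gs

/-- Group a list into maximal `r`-chains. -/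
noncomputable def grp (r : α → α → Prop) (l : List α) : List (List α) := l.foldr (push r) []

/-- A valid grouping. -/
def Valid (r : α → α → Prop) : List (List α) → Prop
  | [] => True
  | g :: gs => g ≠ [] ∧ g.IsChain r ∧ Bd r g gs.flatten ∧ Valid r gs

theorem Bd.nil_left (r : α → α → Prop) (v : List α) : Bd r [] v := by simp [Bd]
theorem Bd.nil_right (r : α → α → Prop) (v : List α) : Bd r v [] := by simp [Bd]

theorem push_flatten (r : α → α → Prop) (a : α) (gs : List (List α)) :
    (push r a gs).flatten = a :: gs.flatten := by
  unfold push
  split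
  · split <;> simp
  · simp

theorem push_valid (r : α → α → Prop) (a : α) (gs : List (List α)) (h : Valid r gs) :
    Valid r (push r a gs) := by
  match gs, h with
  | [], _ => simp [push, Valid, Bd]
  | [] :: gs, h => exact absurd rfl h.1
  | (b :: g) :: gs, h =>
    obtain ⟨h1, h2, h3, h4⟩ := h
    simp only [push]
    split
    · rename_i hab
      refine ⟨by simp, ?_, ?_, h4⟩
      · exact List.IsChain.cons_cons hab h2
      · intro x hx y hy
        rw [List.getLast?_cons_cons] at hx
        exact h3 x hx y hy
    · rename_i hab
      refine ⟨by simp, by simp, ?_, h1, h2, h3, h4⟩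
      intro x hx y hy
      simp at hx hy
      subst hx; subst hy
      exact hab

theorem grp_cons (r : α → α → Prop) (a : α) (l : List α) : grp r (a :: l) = push r a (grp r l) :=
  rfl

theorem grp_nil (r : α → α → Prop) : grp r [] = [] := rfl

theorem grp_flatten (r : α → α → Prop) (l : List α) : (grp r l).flatten = l := by
  induction l with
  | nil => rfl
  | cons a l ih => rw [grp_cons, push_flatten, ih]

theorem grp_valid (r : α → α → Prop) (l : List α) : Valid r (grp r l) := by
  induction l with
  | nil => trivial
  | cons a l ih => rw [grp_cons]; exact push_valid r a _ ih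

theorem foldr_push (r : α → α → Prop) (gs : List (List α)) (hv : Valid r gs) :
    ∀ (g : List α), g ≠ [] → g.IsChain r → Bd r g gs.flatten → g.foldr (push r) gs = g :: gs := by
  intro g
  induction g with
  | nil => intro h; exact absurd rfl h
  | cons a g ih =>
    intro _ hc hb
    match g, ih, hc, hb with
    | [], _, _, hb =>
      match gs, hv, hb with
      | [], _, _ => simp [push]
      | [] :: gs, hv, _ => exact absurd rfl hv.1
      | (b :: g) :: gs, hv, hb =>
        have : ¬ r a b := hb a (by simp) b (by simp)
        simp [push, this]
    | b :: g, ih, hc, hb =>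
      have h1 : r a b := hc.rel
      have h2 : (b :: g).IsChain r := hc.tail
      have h3 : Bd r (b :: g) gs.flatten := by
        intro x hx y hy
        exact hb x (by rw [List.getLast?_cons_cons]; exact hx) y hy
      have := ih (by simp) h2 h3
      rw [List.foldr_cons, this]
      simp [push, h1]

theorem grp_unique (r : α → α → Prop) (gs : List (List α)) (hv : Valid r gs) :
    grp r gs.flatten = gs := by
  induction gs with
  | nil => rfl
  | cons g gs ih =>
    obtain ⟨h1, h2, h3, h4⟩ := hv
    rw [List.flatten_cons, grp, List.foldr_append]
    have := ih h4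
    rw [grp] at this
    rw [this]
    exact foldr_push r gs h4 g h1 h2 h3

theorem valid_append (r : α → α → Prop) (gs hs : List (List α)) (h1 : Valid r gs)
    (h2 : Valid r hs) (hb : Bd r gs.flatten hs.flatten) : Valid r (gs ++ hs) := by
  induction gs with
  | nil => exact h2
  | cons g gs ih =>
    obtain ⟨a1, a2, a3, a4⟩ := h1
    have hgs : gs = [] ∨ gs.flatten ≠ [] := by
      cases gs with
      | nil => left; rfl
      | cons g' gs' =>
        right
        have := a4.1
        intro h
        rw [List.flatten_cons] at h
        exact this (List.append_eq_nil_iff.mp h).1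
    refine ⟨a1, a2, ?_, ?_⟩
    · intro x hx y hy
      change y ∈ (gs ++ hs).flatten.head? at hy
      rw [List.flatten_append] at hy
      rcases hgs with rfl | hne
      · refine hb x ?_ y (by simpa using hy)
        simpa using hx
      · rw [List.head?_append_of_ne_nil _ hne] at hy
        exact a3 x hx y hy
    · apply ih a4
      intro x hx y hy
      apply hb x _ y hy
      rw [List.flatten_cons]
      rcases hgs with rfl | hne
      · simp at hx
      · rw [List.getLast?_append_of_ne_nil _ hne]; exact hx

theorem grp_append (r : α → α → Prop) (u v : List α) (hb : Bd r u v) :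
    grp r (u ++ v) = grp r u ++ grp r v := by
  have h := valid_append r (grp r u) (grp r v) (grp_valid r u) (grp_valid r v)
    (by rw [grp_flatten, grp_flatten]; exact hb)
  have := grp_unique r _ h
  rwa [List.flatten_append, grp_flatten, grp_flatten] at this

theorem grp_singleton (r : α → α → Prop) (a : α) : grp r [a] = [[a]] := by
  simp [grp, push]

theorem grp_of_chain (r : α → α → Prop) (l : List α) (hne : l ≠ []) (hc : l.IsChain r) :
    grp r l = [l] := by
  have := grp_unique r [l] ⟨hne, hc, by simp [Bd], trivial⟩
  simpa using this

theorem grp_eq_nil_iff (r : α → α → Prop) (l : List α) : grp r l = [] ↔ l = [] := by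
  constructor
  · intro h
    rw [← grp_flatten r l, h]; rfl
  · rintro rfl; rfl

theorem Valid.ne_nil {r : α → α → Prop} {gs : List (List α)} (h : Valid r gs) :
    ∀ g ∈ gs, g ≠ [] := by
  induction gs with
  | nil => simp
  | cons g gs ih =>
    intro g' hg'
    rcases List.mem_cons.mp hg' with rfl | h'
    · exact h.1
    · exact ih h.2.2.2 g' h'

theorem Valid.isChain {r : α → α → Prop} {gs : List (List α)} (h : Valid r gs) :
    ∀ g ∈ gs, g.IsChain r := by
  induction gs with
  | nil => simp
  | cons g gs ih =>
    intro g' hg'
    rcases List.mem_cons.mp hg' with rfl | h'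
    · exact h.2.1
    · exact ih h.2.2.2 g' h'

theorem Valid.tail {r : α → α → Prop} {gs : List (List α)} (h : Valid r gs) : Valid r gs.tail := by
  cases gs with
  | nil => trivial
  | cons g gs => exact h.2.2.2

theorem Valid.left {r : α → α → Prop} {gs hs : List (List α)} (h : Valid r (gs ++ hs)) :
    Valid r gs := by
  induction gs with
  | nil => trivial
  | cons g gs ih =>
    obtain ⟨h1, h2, h3, h4⟩ := h
    refine ⟨h1, h2, ?_, ih h4⟩
    intro x hx y hy
    refine h3 x hx y ?_
    change y ∈ (gs ++ hs).flatten.head?
    rw [List.flatten_append]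
    cases hf : gs.flatten with
    | nil => rw [hf] at hy; simp at hy
    | cons b l => rw [hf] at hy; simpa using hy

theorem Valid.right {r : α → α → Prop} {gs hs : List (List α)} (h : Valid r (gs ++ hs)) :
    Valid r hs := by
  induction gs with
  | nil => exact h
  | cons g gs ih => exact ih h.2.2.2

theorem Valid.bd {r : α → α → Prop} {gs hs : List (List α)} (h : Valid r (gs ++ hs)) :
    Bd r gs.flatten hs.flatten := by
  induction gs with
  | nil => simp [Bd]
  | cons g gs ih =>
    have ih' := ih h.2.2.2
    obtain ⟨h1, h2, h3, h4⟩ := h
    intro x hx y hy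
    rw [List.flatten_cons] at hx
    by_cases hgs : gs.flatten = []
    · rw [hgs, List.append_nil] at hx
      refine h3 x hx y ?_
      change y ∈ (gs ++ hs).flatten.head?
      rw [List.flatten_append, hgs]
      simpa using hy
    · rw [List.getLast?_append_of_ne_nil _ hgs] at hx
      exact ih' x hx y hy

/-- Last element of a `flatMap` with nonempty pieces. -/
theorem getLast?_flatMap (e : α → List β) (G : List α) (he : ∀ a ∈ G, e a ≠ []) :
    (G.flatMap e).getLast? = G.getLast?.bind (fun a => (e a).getLast?) := by
  induction G with
  | nil => rfl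
  | cons a G ih =>
    rw [List.flatMap_cons]
    by_cases hG : G = []
    · subst hG; simp
    · have : G.flatMap e ≠ [] := by
        obtain ⟨b, G', rfl⟩ := List.exists_cons_of_ne_nil hG
        simp only [List.flatMap_cons]
        intro h
        exact he b (by simp) (List.append_eq_nil_iff.mp h).1
      rw [List.getLast?_append_of_ne_nil _ this, ih (fun a ha => he a (by simp [ha]))]
      obtain ⟨b, G', rfl⟩ := List.exists_cons_of_ne_nil hG
      rw [List.getLast?_cons_cons]

theorem head?_flatMap (e : α → List β) (G : List α) (he : ∀ a ∈ G, e a ≠ []) :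
    (G.flatMap e).head? = G.head?.bind (fun a => (e a).head?) := by
  cases G with
  | nil => rfl
  | cons a G =>
    rw [List.flatMap_cons, List.head?_append_of_ne_nil _ (he a (by simp))]
    rfl

theorem Bd_flatMap (r : β → β → Prop) (e : α → List β) (G H : List α) (hG : ∀ a ∈ G, e a ≠ [])
    (hH : ∀ a ∈ H, e a ≠ [])
    (h : ∀ x ∈ G.getLast?, ∀ y ∈ H.head?, Bd r (e x) (e y)) :
    Bd r (G.flatMap e) (H.flatMap e) := by
  intro x hx y hy
  rw [getLast?_flatMap e G hG] at hx
  rw [head?_flatMap e H hH] at hy
  obtain ⟨a, ha, hxa⟩ := Option.bind_eq_some_iff.mp hx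
  obtain ⟨b, hb, hyb⟩ := Option.bind_eq_some_iff.mp hy
  exact h a ha b hb x hxa y hyb

/-- Grouping of a `flatMap`. -/
theorem grp_flatMap (R : α → α → Prop) (r : β → β → Prop) (e : α → List β) (W : List α)
    (he : ∀ a ∈ W, e a ≠ []) (hc : W.IsChain (fun a b => ¬ R a b → Bd r (e a) (e b))) :
    grp r (W.flatMap e) = (grp R W).flatMap (fun G => grp r (G.flatMap e)) := by
  have key : ∀ gs : List (List α), Valid R gs → (∀ a ∈ gs.flatten, e a ≠ []) →
      gs.flatten.IsChain (fun a b => ¬ R a b → Bd r (e a) (e b)) →
      grp r (gs.flatten.flatMap e) = gs.flatMap (fun G => grp r (G.flatMap e)) := by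
    intro gs
    induction gs with
    | nil => intros; rfl
    | cons g gs ih =>
      intro hv he hc
      obtain ⟨h1, h2, h3, h4⟩ := hv
      rw [List.flatten_cons] at he hc
      rw [List.flatten_cons, List.flatMap_append, grp_append, List.flatMap_cons,
        ih h4 (fun a ha => he a (by simp [ha])) hc.right_of_append]
      apply Bd_flatMap r e g gs.flatten (fun a ha => he a (by simp [ha]))
        (fun a ha => he a (by simp [ha]))
      intro x hx y hy
      rw [List.isChain_append] at hc
      exact hc.2.2 x hx y hy (h3 x hx y hy)
  have := key (grp R W) (grp_valid R W) (by rw [grp_flatten]; exact he)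
    (by rw [grp_flatten]; exact hc)
  rwa [grp_flatten] at this

/-- The reversed word with the involution applied to all letters. -/
def barL (f : α → α) (l : List α) : List α := (l.map f).reverse

@[simp] theorem barL_nil (f : α → α) : barL f [] = [] := rfl

theorem barL_append (f : α → α) (u v : List α) : barL f (u ++ v) = barL f v ++ barL f u := by
  simp [barL]

theorem barL_cons (f : α → α) (a : α) (v : List α) : barL f (a :: v) = barL f v ++ [f a] := by
  simp [barL]

theorem barL_barL (f : α → α) (hf : ∀ a, f (f a) = a) (u : List α) : barL f (barL f u) = u := by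
  simp only [barL, List.map_reverse, List.reverse_reverse, List.map_map]
  rw [show f ∘ f = id from funext hf]
  simp

@[simp] theorem length_barL (f : α → α) (u : List α) : (barL f u).length = u.length := by
  simp [barL]

theorem barL_eq_nil (f : α → α) (u : List α) : barL f u = [] ↔ u = [] := by
  simp [barL]

theorem barL_flatten (f : α → α) (gs : List (List α)) :
    barL f gs.flatten = ((gs.map (barL f)).reverse).flatten := by
  induction gs with
  | nil => rfl
  | cons g gs ih =>
    rw [List.flatten_cons, barL_append, ih]
    simp

theorem barL_flatMap (f : α → α) (g : β → β) (e : α → List β)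
    (he : ∀ a, e (f a) = barL g (e a)) (l : List α) :
    (barL f l).flatMap e = barL g (l.flatMap e) := by
  induction l with
  | nil => rfl
  | cons a l ih =>
    rw [barL_cons, List.flatMap_append, ih]
    simp [he, barL_append]

theorem head?_barL (f : α → α) (u : List α) : (barL f u).head? = u.getLast?.map f := by
  simp [barL]

theorem getLast?_barL (f : α → α) (u : List α) : (barL f u).getLast? = u.head?.map f := by
  simp [barL]

theorem isChain_barL (f : α → α) (r : α → α → Prop) (hr : ∀ x y, r (f y) (f x) ↔ r x y)
    (u : List α) : (barL f u).IsChain r ↔ u.IsChain r := by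
  rw [barL, List.isChain_reverse, List.isChain_map]
  simp only [hr]

theorem Bd_barL (f : α → α) (r : α → α → Prop) (hr : ∀ x y, r (f y) (f x) ↔ r x y)
    (u v : List α) : Bd r (barL f v) (barL f u) ↔ Bd r u v := by
  unfold Bd
  rw [head?_barL, getLast?_barL]
  constructor
  · intro h x hx y hy hxy
    exact h (f y) (by simp [Option.mem_def.mp hy]) (f x) (by simp [Option.mem_def.mp hx])
      ((hr x y).mpr hxy)
  · intro h x hx y hy hxy
    obtain ⟨y', hy', rfl⟩ := Option.map_eq_some_iff.mp hx
    obtain ⟨x', hx', rfl⟩ := Option.map_eq_some_iff.mp hy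
    exact h x' hx' y' hy' ((hr x' y').mp hxy)

theorem grp_barL (f : α → α) (r : α → α → Prop) (hr : ∀ x y, r (f y) (f x) ↔ r x y)
    (l : List α) : grp r (barL f l) = ((grp r l).map (barL f)).reverse := by
  have key : ∀ gs : List (List α), Valid r gs → Valid r ((gs.map (barL f)).reverse) := by
    intro gs
    induction gs with
    | nil => intro _; trivial
    | cons g gs ih =>
      intro h
      obtain ⟨h1, h2, h3, h4⟩ := h
      rw [List.map_cons, List.reverse_cons]
      apply valid_append r _ _ (ih h4)
      · refine ⟨?_, ?_, by simp [Bd], trivial⟩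
        · rw [ne_eq, barL_eq_nil]; exact h1
        · rw [isChain_barL f r hr]; exact h2
      · rw [← barL_flatten]
        simp only [List.flatten_cons, List.flatten_nil, List.append_nil]
        rw [Bd_barL f r hr]
        exact h3
  have h := grp_unique r _ (key _ (grp_valid r l))
  rwa [← barL_flatten, grp_flatten] at h

/-- The number of groups is subadditive. -/
theorem length_push_le (r : α → α → Prop) (a : α) (gs : List (List α)) :
    (push r a gs).length ≤ gs.length + 1 := by
  unfold push
  split
  · split <;> simp
  · simp

end Pool.Agent.helper13.WE
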