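import Mathlib

/-!
# Short sub-multisets with prescribed sums

A long multiset of bounded integer vectors with bounded sum contains a short sub-multiset with
the same sum, with an explicit bound.
-/

universe u

namespace Pool.Agent.helper13.WE

/-- Threshold for the existence of a short zero sum sub-multiset. -/
def thr (a β : ℕ) : ℕ := β + 2 * (a + 1) ^ 3

theorem exists_le_card {J : Type u} (M : Multiset J) (n : ℕ) (h : n ≤ M.card) :
    ∃ Y ≤ M, Y.card = n := by
  induction M using Quotient.inductionOn with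
  | _ l =>
    refine ⟨((l.take n : List J) : Multiset J), ?_, ?_⟩
    · exact (List.take_sublist n l).subperm
    · simpa using h

theorem sum_eq_of_forall {J : Type u} (f : J → ℤ) (c : ℤ) (Y : Multiset J)
    (h : ∀ j ∈ Y, f j = c) : (Y.map f).sum = Y.card * c := by
  rw [Multiset.map_congr rfl h]
  simp

theorem card_filter_split {J : Type u} (f : J → ℤ) (a : ℕ) (M : Multiset J)
    (hf : ∀ j ∈ M, 0 < f j ∧ f j ≤ a) (hcard : a * a < M.card) :
    ∃ x : ℕ, 0 < x ∧ x ≤ a ∧ a < (M.filter (fun j => f j = x)).card := by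
  classical
  by_contra hcon
  push Not at hcon
  have h1 : M.card = ∑ x ∈ Finset.Icc 1 a, (M.filter (fun j => f j = x)).card := by
    clear hcon hcard
    induction M using Multiset.induction_on with
    | empty => simp
    | cons j M ih =>
      have ih' := ih (fun k hk => hf k (Multiset.mem_cons_of_mem hk))
      have hj := hf j (Multiset.mem_cons_self j M)
      obtain ⟨y, hy⟩ : ∃ y : ℕ, f j = y := ⟨(f j).toNat, by omega⟩
      rw [Multiset.card_cons, ih']
      have : ∀ x ∈ Finset.Icc 1 a, ((j ::ₘ M).filter (fun j => f j = x)).card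
          = (M.filter (fun j => f j = x)).card + (if x = y then 1 else 0) := by
        intro x hx
        by_cases hxy : x = y
        · subst hxy
          rw [Multiset.filter_cons_of_pos (p := fun j => f j = (x : ℤ)) M hy]; simp
        · rw [Multiset.filter_cons_of_neg (p := fun j => f j = (x : ℤ))]
          · simp [hxy]
          · rw [hy]
            intro h
            exact hxy (by exact_mod_cast h.symm)
      rw [Finset.sum_congr rfl this, Finset.sum_add_distrib, Finset.sum_ite_eq']
      rw [if_pos]
      rw [Finset.mem_Icc]; omega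
  have h2 : ∑ x ∈ Finset.Icc 1 a, (M.filter (fun j => f j = x)).card ≤ ∑ x ∈ Finset.Icc 1 a, a := by
    apply Finset.sum_le_sum
    intro x hx
    rw [Finset.mem_Icc] at hx
    exact hcon x (by omega) (by omega)
  simp at h2
  omega

theorem exists_zero_sum {J : Type u} (f : J → ℤ) (a β : ℕ) (M : Multiset J)
    (hf : ∀ j ∈ M, |f j| ≤ a) (hβ : |(M.map f).sum| ≤ β) (hcard : thr a β < M.card) :
    ∃ Y ≤ M, Y ≠ 0 ∧ Y.card ≤ 2 * a + 1 ∧ (Y.map f).sum = 0 := by
  classical
  unfold thr at hcard
  by_cases hz : ∃ z ∈ M, f z = 0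
  · obtain ⟨z, hz, hz0⟩ := hz
    exact ⟨{z}, by simpa using hz, by simp, by simp, by simpa using hz0⟩
  push Not at hz
  set P := M.filter (fun j => 0 < f j) with hP
  set N := M.filter (fun j => ¬ 0 < f j) with hN
  have hPN : P + N = M := Multiset.filter_add_not _ _
  have hPf : ∀ j ∈ P, 0 < f j ∧ f j ≤ a := by
    intro j hj
    rw [hP, Multiset.mem_filter] at hj
    exact ⟨hj.2, (le_abs_self _).trans (hf j hj.1)⟩
  have hNf : ∀ j ∈ N, 0 < - f j ∧ - f j ≤ a := by
    intro j hj
    rw [hN, Multiset.mem_filter] at hj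
    have := hz j hj.1
    have h2 := (neg_le_abs (f j)).trans (hf j hj.1)
    constructor
    · have := hj.2; omega
    · exact h2
  have hsum : (M.map f).sum = (P.map f).sum + (N.map f).sum := by
    rw [← hPN]; simp
  have hcardPN : M.card = P.card + N.card := by
    rw [← hPN]; simp
  -- lower bounds of sums by cardinality, upper bounds by a * card
  have hPlow : (P.card : ℤ) ≤ (P.map f).sum := by
    have : ∀ M' : Multiset J, (∀ j ∈ M', 0 < f j) → (M'.card : ℤ) ≤ (M'.map f).sum := by
      intro M' 
      induction M' using Multiset.induction_on with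
      | empty => simp
      | cons j M ih =>
        intro h
        have h1 := ih (fun k hk => h k (Multiset.mem_cons_of_mem hk))
        have h2 := h j (Multiset.mem_cons_self j M)
        simp only [Multiset.card_cons, Multiset.map_cons, Multiset.sum_cons, Nat.cast_add,
          Nat.cast_one]
        linarith
    exact this P (fun j hj => (hPf j hj).1)
  have hNlow : (N.card : ℤ) ≤ - (N.map f).sum := by
    have : ∀ M' : Multiset J, (∀ j ∈ M', 0 < - f j) → (M'.card : ℤ) ≤ - (M'.map f).sum := by
      intro M' 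
      induction M' using Multiset.induction_on with
      | empty => simp
      | cons j M ih =>
        intro h
        have h1 := ih (fun k hk => h k (Multiset.mem_cons_of_mem hk))
        have h2 := h j (Multiset.mem_cons_self j M)
        simp only [Multiset.card_cons, Multiset.map_cons, Multiset.sum_cons, Nat.cast_add,
          Nat.cast_one]
        linarith
    exact this N (fun j hj => (hNf j hj).1)
  have hPup : (P.map f).sum ≤ P.card * (a : ℤ) := by
    have : ∀ M' : Multiset J, (∀ j ∈ M', f j ≤ a) → (M'.map f).sum ≤ M'.card * (a : ℤ) := by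
      intro M' 
      induction M' using Multiset.induction_on with
      | empty => simp
      | cons j M ih =>
        intro h
        have h1 := ih (fun k hk => h k (Multiset.mem_cons_of_mem hk))
        have h2 := h j (Multiset.mem_cons_self j M)
        simp only [Multiset.card_cons, Multiset.map_cons, Multiset.sum_cons, Nat.cast_add,
          Nat.cast_one]
        linarith
    exact this P (fun j hj => (hPf j hj).2)
  have hNup : - (N.map f).sum ≤ N.card * (a : ℤ) := by
    have : ∀ M' : Multiset J, (∀ j ∈ M', - f j ≤ a) → - (M'.map f).sum ≤ M'.card * (a : ℤ) := by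
      intro M' 
      induction M' using Multiset.induction_on with
      | empty => simp
      | cons j M ih =>
        intro h
        have h1 := ih (fun k hk => h k (Multiset.mem_cons_of_mem hk))
        have h2 := h j (Multiset.mem_cons_self j M)
        simp only [Multiset.card_cons, Multiset.map_cons, Multiset.sum_cons, Nat.cast_add,
          Nat.cast_one]
        linarith
    exact this N (fun j hj => (hNf j hj).2)
  have habs := abs_le.mp hβ
  have hpoly : (a : ℤ) * a + a * a * a ≤ 2 * (a + 1) ^ 3 := by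
    nlinarith [sq_nonneg (a : ℤ), (by positivity : (0 : ℤ) ≤ (a : ℤ))]
  have hP2 : a * a < P.card := by
    by_contra hcon
    push Not at hcon
    have h1 : (P.card : ℤ) ≤ a * a := by exact_mod_cast hcon
    have h2 : (P.map f).sum ≤ a * a * a := hPup.trans (by nlinarith)
    have h3 : (N.card : ℤ) ≤ β + a * a * a := by linarith
    have h4 : (M.card : ℤ) ≤ β + 2 * (a + 1) ^ 3 := by
      rw [hcardPN]; push_cast; linarith
    have : M.card ≤ β + 2 * (a + 1) ^ 3 := by exact_mod_cast h4
    omega
  have hN2 : a * a < N.card := by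
    by_contra hcon
    push Not at hcon
    have h1 : (N.card : ℤ) ≤ a * a := by exact_mod_cast hcon
    have h2 : - (N.map f).sum ≤ a * a * a := hNup.trans (by nlinarith)
    have h3 : (P.card : ℤ) ≤ β + a * a * a := by linarith
    have h4 : (M.card : ℤ) ≤ β + 2 * (a + 1) ^ 3 := by
      rw [hcardPN]; push_cast; linarith
    have : M.card ≤ β + 2 * (a + 1) ^ 3 := by exact_mod_cast h4
    omega
  obtain ⟨x, hx0, hxa, hx⟩ := card_filter_split f a P hPf hP2
  obtain ⟨y, hy0, hya, hy⟩ := card_filter_split (fun j => - f j) a N hNf hN2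
  obtain ⟨Y1, hY1, hY1c⟩ := exists_le_card (P.filter (fun j => f j = x)) y (by omega)
  obtain ⟨Y2, hY2, hY2c⟩ := exists_le_card (N.filter (fun j => - f j = y)) x (by omega)
  refine ⟨Y1 + Y2, ?_, ?_, ?_, ?_⟩
  · rw [← hPN]
    exact add_le_add (hY1.trans (Multiset.filter_le _ _)) (hY2.trans (Multiset.filter_le _ _))
  · intro h
    have := congrArg Multiset.card h
    rw [Multiset.card_add, Multiset.card_zero] at this
    omega
  · rw [Multiset.card_add]; omega
  · rw [Multiset.map_add, Multiset.sum_add, sum_eq_of_forall f x Y1, sum_eq_of_forall f (-y) Y2,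
      hY1c, hY2c]
    · ring
    · intro j hj
      have := (Multiset.mem_filter.mp (Multiset.mem_of_le hY2 hj)).2
      linarith
    · intro j hj
      exact (Multiset.mem_filter.mp (Multiset.mem_of_le hY1 hj)).2

theorem decompose {J : Type u} (f : J → ℤ) (a β : ℕ) : ∀ (n : ℕ) (M : Multiset J), M.card = n →
    (∀ j ∈ M, |f j| ≤ a) → |(M.map f).sum| ≤ β →
    ∃ (M0 : Multiset J) (YY : Multiset (Multiset J)), M = M0 + YY.sum ∧ M0.card ≤ thr a β ∧
      ∀ Y ∈ YY, Y.card ≤ 2 * a + 1 ∧ (Y.map f).sum = 0 := by
  intro n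
  induction n using Nat.strong_induction_on with
  | _ n ih =>
    intro M hn hf hβ
    by_cases hcard : M.card ≤ thr a β
    · exact ⟨M, 0, by simp, hcard, by simp⟩
    push Not at hcard
    obtain ⟨Y, hYM, hY0, hYc, hYs⟩ := exists_zero_sum f a β M hf hβ hcard
    obtain ⟨R, hR⟩ := Multiset.le_iff_exists_add.mp hYM
    have hYpos : 0 < Y.card := Multiset.card_pos.mpr hY0
    have hRc : R.card < n := by
      have := congrArg Multiset.card hR
      simp at this
      omega
    have hRs : (R.map f).sum = (M.map f).sum := by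
      rw [hR]; simp [hYs]
    obtain ⟨M0, YY, h1, h2, h3⟩ := ih R.card hRc R rfl
      (fun j hj => hf j (by rw [hR]; exact Multiset.mem_add.mpr (Or.inr hj))) (by rw [hRs]; exact hβ)
    refine ⟨M0, Y ::ₘ YY, ?_, h2, ?_⟩
    · rw [Multiset.sum_cons, hR, h1]
      abel
    · intro Z hZ
      rcases Multiset.mem_cons.mp hZ with h | h
      · subst h; exact ⟨hYc, hYs⟩
      · exact h3 Z h

/-- The bound for the size of the short sub-multiset. -/
def bG : ℕ → ℕ → ℕ → ℕ
  | 0, _, _ => 0
  | m + 1, a, β => thr a β + (2 * a + 1) * bG m ((2 * a + 1) * a) (β + a * thr a β)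

theorem abs_sum_le {J : Type u} (f : J → ℤ) (a : ℕ) (M : Multiset J) (hf : ∀ j ∈ M, |f j| ≤ a) :
    |(M.map f).sum| ≤ M.card * a := by
  induction M using Multiset.induction_on with
  | empty => simp
  | cons j M ih =>
    have h1 := ih (fun k hk => hf k (Multiset.mem_cons_of_mem hk))
    have h2 := hf j (Multiset.mem_cons_self j M)
    simp only [Multiset.card_cons, Multiset.map_cons, Multiset.sum_cons, Nat.cast_add, Nat.cast_one]
    calc |f j + (M.map f).sum| ≤ |f j| + |(M.map f).sum| := abs_add_le _ _
      _ ≤ _ := by linarith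

theorem sum_map_sum {J : Type u} (f : J → ℤ) (YY : Multiset (Multiset J)) :
    (YY.sum.map f).sum = (YY.map (fun Y => (Y.map f).sum)).sum := by
  induction YY using Multiset.induction_on with
  | empty => simp
  | cons Y YY ih => simp [ih]

/-- Main lemma: a multiset of `J` contains a short sub-multiset with the same sums of
finitely many bounded integer functions. -/
theorem short_sub (fsl : ℕ) : ∀ {J : Type u} (fs : List (J → ℤ)) (_ : fs.length = fsl) (a β : ℕ)
    (M : Multiset J) (_ : ∀ f ∈ fs, ∀ j ∈ M, |f j| ≤ a) (_ : ∀ f ∈ fs, |(M.map f).sum| ≤ β),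
    ∃ M' ≤ M, M'.card ≤ bG fsl a β ∧ ∀ f ∈ fs, (M'.map f).sum = (M.map f).sum := by
  induction fsl with
  | zero =>
    intro J fs hl a β M hf hβ
    have : fs = [] := List.length_eq_zero_iff.mp hl
    subst this
    exact ⟨0, by simp, by simp, by simp⟩
  | succ m ih =>
    intro J fs hl a β M hf hβ
    obtain ⟨f, fs, rfl⟩ : ∃ f fs', fs = f :: fs' := by
      cases fs with
      | nil => simp at hl
      | cons f fs => exact ⟨f, fs, rfl⟩
    obtain ⟨M0, YY, h1, h2, h3⟩ := decompose f a β M.card M rfl
      (hf f List.mem_cons_self) (hβ f List.mem_cons_self)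
    have hM0 : ∀ j ∈ M0, j ∈ M := fun j hj => by rw [h1]; exact Multiset.mem_add.mpr (Or.inl hj)
    have hYM : ∀ Y ∈ YY, ∀ j ∈ Y, j ∈ M := fun Y hY j hj => by
      rw [h1]
      refine Multiset.mem_add.mpr (Or.inr ?_)
      exact Multiset.mem_of_le (Multiset.single_le_sum (fun _ _ => Multiset.zero_le _) Y hY) hj
    obtain ⟨YY', hle, hc, hs⟩ := ih (J := Multiset J)
      (fs.map (fun g => fun Y : Multiset J => (Y.map g).sum)) (by simpa using hl)
      ((2 * a + 1) * a) (β + a * thr a β) YY
      (by
        intro g' hg' Y hY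
        obtain ⟨g, hg, rfl⟩ := List.mem_map.mp hg'
        have e1 := abs_sum_le g a Y (fun j hj => hf g (List.mem_cons_of_mem _ hg) j (hYM Y hY j hj))
        have e2 := (h3 Y hY).1
        refine e1.trans ?_
        push_cast
        have : (Y.card : ℤ) ≤ 2 * a + 1 := by exact_mod_cast e2
        nlinarith [(by positivity : (0 : ℤ) ≤ (a : ℤ))])
      (by
        intro g' hg'
        obtain ⟨g, hg, rfl⟩ := List.mem_map.mp hg'
        rw [← sum_map_sum]
        have e1 := abs_sum_le g a M0
          (fun j hj => hf g (List.mem_cons_of_mem _ hg) j (hM0 j hj))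
        have e2 := hβ g (List.mem_cons_of_mem _ hg)
        have e3 : (M.map g).sum = (M0.map g).sum + (YY.sum.map g).sum := by
          rw [h1]; simp
        have e4 : (M0.card : ℤ) ≤ thr a β := by exact_mod_cast h2
        have e5 : |(M0.map g).sum| ≤ a * thr a β := e1.trans (by
          nlinarith [(by positivity : (0 : ℤ) ≤ (a : ℤ))])
        push_cast
        rw [abs_le] at e2 e5 ⊢
        constructor <;> linarith [e2.1, e2.2, e5.1, e5.2])
    refine ⟨M0 + YY'.sum, ?_, ?_, ?_⟩
    · rw [h1]
      refine add_le_add le_rfl ?_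
      obtain ⟨R, hR⟩ := Multiset.le_iff_exists_add.mp hle
      rw [hR, Multiset.sum_add]
      exact le_self_add
    · have hb : ∀ Z : Multiset (Multiset J), (∀ Y ∈ Z, Y.card ≤ 2 * a + 1) →
          Z.sum.card ≤ (2 * a + 1) * Z.card := by
        intro Z
        induction Z using Multiset.induction_on with
        | empty => simp
        | cons Y Z ih =>
          intro h
          have e1 := ih (fun k hk => h k (Multiset.mem_cons_of_mem hk))
          have e2 := h Y (Multiset.mem_cons_self Y Z)
          simp only [Multiset.sum_cons, Multiset.card_add, Multiset.card_cons]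
          linarith
      have e := hb YY' (fun Y hY => (h3 Y (Multiset.mem_of_le hle hY)).1)
      simp only [Multiset.card_add, bG]
      have : (2 * a + 1) * YY'.card ≤ (2 * a + 1) * bG m ((2 * a + 1) * a) (β + a * thr a β) :=
        Nat.mul_le_mul_left _ hc
      omega
    · intro g hg
      have hz : ∀ Z : Multiset (Multiset J), (∀ Y ∈ Z, (Y.map f).sum = 0) →
          (Z.map (fun Y => (Y.map f).sum)).sum = 0 := by
        intro Z hZ
        apply Multiset.sum_eq_zero
        intro x hx
        obtain ⟨Y, hY, rfl⟩ := Multiset.mem_map.mp hx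
        exact hZ Y hY
      rcases List.mem_cons.mp hg with rfl | hg
      · rw [h1, Multiset.map_add, Multiset.map_add, Multiset.sum_add, Multiset.sum_add,
          sum_map_sum, sum_map_sum, hz YY (fun Y hY => (h3 Y hY).2),
          hz YY' (fun Y hY => (h3 Y (Multiset.mem_of_le hle hY)).2)]
      · have := hs _ (List.mem_map.mpr ⟨g, hg, rfl⟩)
        rw [h1, Multiset.map_add, Multiset.map_add, Multiset.sum_add, Multiset.sum_add,
          sum_map_sum, sum_map_sum, this]

/-- Version for multiplicity functions on a finite type. -/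
theorem short_fun {J : Type u} [Fintype J] (fs : List (J → ℤ)) (a β : ℕ)
    (κ : J → ℕ) (hf : ∀ f ∈ fs, ∀ j, |f j| ≤ a)
    (hβ : ∀ f ∈ fs, |∑ j, (κ j : ℤ) * f j| ≤ β) :
    ∃ κ' : J → ℕ, (∀ j, κ' j ≤ κ j) ∧ (∀ j, κ' j ≤ bG fs.length a β) ∧
      ∀ f ∈ fs, ∑ j, (κ' j : ℤ) * f j = ∑ j, (κ j : ℤ) * f j := by
  classical
  have hsum : ∀ (M : Multiset J) (f : J → ℤ), (M.map f).sum = ∑ j, (M.count j : ℤ) * f j := by
    intro M f
    induction M using Multiset.induction_on with
    | empty => simp
    | cons j M ih =>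
      rw [Multiset.map_cons, Multiset.sum_cons, ih]
      simp only [Multiset.count_cons, Nat.cast_add, add_mul, Finset.sum_add_distrib]
      simp [add_comm]
  set M : Multiset J := ∑ j, Multiset.replicate (κ j) j with hM
  have hcount : ∀ j, M.count j = κ j := by
    intro j
    rw [hM, Multiset.count_sum']
    simp [Multiset.count_replicate]
  obtain ⟨M', hle, hc, hs⟩ := short_sub fs.length fs rfl a β M (fun f hf' j _ => hf f hf' j)
    (by
      intro f hf'
      rw [hsum]
      simp only [hcount]
      exact hβ f hf')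
  refine ⟨fun j => M'.count j, ?_, ?_, ?_⟩
  · intro j
    rw [← hcount j]
    exact Multiset.count_le_of_le j hle
  · intro j
    exact (Multiset.count_le_card j M').trans hc
  · intro f hf'
    have := hs f hf'
    rw [hsum, hsum] at this
    simpa only [hcount] using this

/-- Closed form estimate. -/
theorem bG_le : ∀ (m a β : ℕ), bG m a β ≤ (a + β + 2) ^ (11 ^ m) := by
  intro m
  induction m with
  | zero => intro a β; simp [bG]
  | succ m ih =>
    intro a β
    set X := a + β + 2 with hX
    have hX2 : 2 ≤ X := by omega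
    have ha : a + 1 ≤ X := by omega
    have hb : β ≤ X := by omega
    have hXpos : 0 < X := by omega
    have hthr : thr a β ≤ X ^ 5 := by
      unfold thr
      have h1 : (a + 1) ^ 3 ≤ X ^ 3 := Nat.pow_le_pow_left ha 3
      have h2 : 2 * (a + 1) ^ 3 ≤ X ^ 4 := by
        calc 2 * (a + 1) ^ 3 ≤ X * X ^ 3 := Nat.mul_le_mul hX2 h1
          _ = X ^ 4 := by ring
      have h3 : X + X ^ 4 ≤ X ^ 5 := by
        have : X ≤ X ^ 4 := by
          calc X = X ^ 1 := (pow_one X).symm
            _ ≤ X ^ 4 := Nat.pow_le_pow_right hXpos (by norm_num)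
        calc X + X ^ 4 ≤ X ^ 4 + X ^ 4 := by omega
          _ = 2 * X ^ 4 := by ring
          _ ≤ X * X ^ 4 := Nat.mul_le_mul_right _ hX2
          _ = X ^ 5 := by ring
      omega
    have h2a : 2 * a + 1 ≤ X ^ 2 := by nlinarith
    have ha' : (2 * a + 1) * a ≤ X ^ 3 := by
      calc (2 * a + 1) * a ≤ X ^ 2 * X := Nat.mul_le_mul h2a (by omega)
        _ = X ^ 3 := by ring
    have hb' : β + a * thr a β + 2 ≤ X ^ 7 := by
      have : a * thr a β ≤ X * X ^ 5 := Nat.mul_le_mul (by omega) hthr
      have h6 : X * X ^ 5 = X ^ 6 := by ring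
      have h7 : X ≤ X ^ 6 := by
        calc X = X ^ 1 := (pow_one X).symm
          _ ≤ X ^ 6 := Nat.pow_le_pow_right hXpos (by norm_num)
      calc β + a * thr a β + 2 ≤ X + X ^ 6 := by omega
        _ ≤ X ^ 6 + X ^ 6 := by omega
        _ = 2 * X ^ 6 := by ring
        _ ≤ X * X ^ 6 := Nat.mul_le_mul_right _ hX2
        _ = X ^ 7 := by ring
    have hX' : (2 * a + 1) * a + (β + a * thr a β) + 2 ≤ X ^ 8 := by
      have h37 : X ^ 3 ≤ X ^ 7 := Nat.pow_le_pow_right hXpos (by norm_num)
      calc (2 * a + 1) * a + (β + a * thr a β) + 2 ≤ X ^ 7 + X ^ 7 := by omega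
        _ = 2 * X ^ 7 := by ring
        _ ≤ X * X ^ 7 := Nat.mul_le_mul_right _ hX2
        _ = X ^ 8 := by ring
    have hih := ih ((2 * a + 1) * a) (β + a * thr a β)
    have hpow : ((2 * a + 1) * a + (β + a * thr a β) + 2) ^ (11 ^ m) ≤ X ^ (8 * 11 ^ m) := by
      rw [pow_mul]
      exact Nat.pow_le_pow_left hX' _
    have h11 : 1 ≤ 11 ^ m := Nat.one_le_pow _ _ (by norm_num)
    calc bG (m + 1) a β = thr a β + (2 * a + 1) * bG m ((2 * a + 1) * a) (β + a * thr a β) := rfl
      _ ≤ X ^ 5 + X ^ 2 * X ^ (8 * 11 ^ m) :=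
        Nat.add_le_add hthr (Nat.mul_le_mul h2a (hih.trans hpow))
      _ = X ^ 5 + X ^ (8 * 11 ^ m + 2) := by rw [← pow_add]; congr 2; ring
      _ ≤ X ^ (8 * 11 ^ m + 2) + X ^ (8 * 11 ^ m + 2) := by
        have : X ^ 5 ≤ X ^ (8 * 11 ^ m + 2) := Nat.pow_le_pow_right hXpos (by omega)
        omega
      _ = 2 * X ^ (8 * 11 ^ m + 2) := by ring
      _ ≤ X * X ^ (8 * 11 ^ m + 2) := Nat.mul_le_mul_right _ hX2
      _ = X ^ (8 * 11 ^ m + 3) := by ring
      _ ≤ X ^ (11 ^ (m + 1)) := Nat.pow_le_pow_right hXpos (by rw [pow_succ]; omega)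

end Pool.Agent.helper13.WE
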