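import Pool.Agent.helper13.WE.Ilp
import Pool.Agent.helper13.WE.Chn

/-!
# Shortening the popped chains
-/

namespace Pool.Agent.helper13.WE

open Classical

variable {Γ Pi' : Type*}

/-- Length of a symbolic letter. -/
def lenZ (L : Pi' → ℕ) : Γ ⊕ (Pi' × Bool) → ℕ
  | Sum.inl _ => 1
  | Sum.inr (π, _) => L π

/-- Length of a symbolic group. -/
def lenG (L : Pi' → ℕ) (g : List (Γ ⊕ (Pi' × Bool))) : ℕ := (g.map (lenZ L)).sum

/-- Number of occurrences of a piece. -/
noncomputable def cntZ (g : List (Γ ⊕ (Pi' × Bool))) (π : Pi') : ℕ :=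
  g.countP (fun y => decide (∃ b, y = Sum.inr (π, b)))

/-- Number of plain letters. -/
noncomputable def cntL (g : List (Γ ⊕ (Pi' × Bool))) : ℕ :=
  g.countP (fun y => decide (∃ c, y = Sum.inl c))

theorem lenG_eq [Fintype Pi'] (L : Pi' → ℕ) (g : List (Γ ⊕ (Pi' × Bool))) :
    lenG L g = cntL g + ∑ π, cntZ g π * L π := by
  induction g with
  | nil => simp [lenG, cntL, cntZ]
  | cons y g ih =>
    have e : lenG L (y :: g) = lenZ L y + lenG L g := by simp [lenG]
    rw [e, ih]
    match y with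
    | Sum.inl c =>
      have h1 : cntL (Sum.inl c :: g) = cntL g + 1 := by
        unfold cntL
        rw [List.countP_cons_of_pos]
        simp
      have h2 : ∀ π : Pi', cntZ (Sum.inl c :: g) π = cntZ g π := by
        intro π
        unfold cntZ
        rw [List.countP_cons_of_neg]
        simp
      simp only [h1, h2, lenZ]
      ring
    | Sum.inr (ρ, b) =>
      have h1 : cntL (Sum.inr (ρ, b) :: g) = cntL g := by
        unfold cntL
        rw [List.countP_cons_of_neg]
        simp
      have h2 : ∀ π : Pi', cntZ (Sum.inr (ρ, b) :: g) π = cntZ g π + if π = ρ then 1 else 0 := by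
        intro π
        unfold cntZ
        rw [List.countP_cons]
        by_cases h : π = ρ
        · subst h; simp
        · have h' : ¬ ρ = π := fun e => h e.symm
          simp [h, h']
      simp only [h1, h2, lenZ, add_mul, Finset.sum_add_distrib]
      simp
      ring

theorem sum_cntZ_le [Fintype Pi'] (g : List (Γ ⊕ (Pi' × Bool))) :
    cntL g + ∑ π, cntZ g π ≤ g.length := by
  have h := lenG_eq (fun _ => 1) g
  simp only [mul_one] at h
  rw [← h]
  have : ∀ g : List (Γ ⊕ (Pi' × Bool)), lenG (fun _ => 1) g = g.length := by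
    intro g
    induction g with
    | nil => rfl
    | cons y g ih =>
      have e : lenG (fun _ => 1) (y :: g) = lenZ (fun _ => 1) y + lenG (fun _ => 1) g := by
        simp [lenG]
      rw [e, ih]
      match y with
      | Sum.inl c => simp [lenZ]; ring
      | Sum.inr (ρ, b) => simp [lenZ]; ring
  rw [this]

theorem cntZ_le (g : List (Γ ⊕ (Pi' × Bool))) (π : Pi') : cntZ g π ≤ g.length :=
  List.countP_le_length

/-- Bound for the new lengths. -/
def bLam (S t P : ℕ) : ℕ := t + P + P * (S + (S + (t + P) * (2 * S)) + 2) ^ (11 ^ (S * S))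

theorem exists_lam [Fintype Pi'] (GS : List (List (Γ ⊕ (Pi' × Bool)))) (lam : Pi' → ℕ)
    (t P S : ℕ) (hP : 0 < P) (hlen : GS.length ≤ S) (hg : ∀ g ∈ GS, g.length ≤ S) :
    ∃ lam' : Pi' → ℕ, (∀ π, Good t P (lam π) (lam' π)) ∧ (∀ π, lam' π ≤ bLam S t P) ∧
      (∀ g ∈ GS, ∀ h ∈ GS, lenG lam g = lenG lam h → lenG lam' g = lenG lam' h) := by
  set lam0 : Pi' → ℕ := fun π => if lam π < t then lam π else t + (lam π - t) % P with hlam0
  set κ : Pi' → ℕ := fun π => if lam π < t then 0 else (lam π - t) / P with hκ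
  have hdec : ∀ π, lam π = lam0 π + P * κ π := by
    intro π
    simp only [hlam0, hκ]
    split
    · simp
    · have := Nat.mod_add_div (lam π - t) P
      omega
  have hlam0le : ∀ π, lam0 π ≤ t + P := by
    intro π
    simp only [hlam0]
    split
    · omega
    · have := Nat.mod_lt (lam π - t) hP
      omega
  set pairs := (GS ×ˢ GS).filter (fun gh => decide (lenG lam gh.1 = lenG lam gh.2)) with hpairs
  set fs : List (Pi' → ℤ) := pairs.map (fun gh π => (cntZ gh.1 π : ℤ) - cntZ gh.2 π) with hfs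
  set β := S + (t + P) * (2 * S) with hβ
  have hmem : ∀ gh ∈ pairs, gh.1 ∈ GS ∧ gh.2 ∈ GS ∧ lenG lam gh.1 = lenG lam gh.2 := by
    intro gh hgh
    rw [hpairs, List.mem_filter] at hgh
    have h1 := hgh.1
    rw [List.mem_product] at h1
    exact ⟨h1.1, h1.2, by simpa using hgh.2⟩
  obtain ⟨κ', hκ'1, hκ'2, hκ'3⟩ := short_fun fs S β κ
    (by
      intro f hf π
      obtain ⟨gh, hgh, rfl⟩ := List.mem_map.mp hf
      obtain ⟨h1, h2, _⟩ := hmem gh hgh
      have e1 : cntZ gh.1 π ≤ S := (cntZ_le _ π).trans (hg _ h1)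
      have e2 : cntZ gh.2 π ≤ S := (cntZ_le _ π).trans (hg _ h2)
      rw [abs_le]
      constructor
      · have : (cntZ gh.2 π : ℤ) ≤ S := by exact_mod_cast e2
        have h0 : (0 : ℤ) ≤ cntZ gh.1 π := by positivity
        linarith
      · have : (cntZ gh.1 π : ℤ) ≤ S := by exact_mod_cast e1
        have h0 : (0 : ℤ) ≤ cntZ gh.2 π := by positivity
        linarith)
    (by
      intro f hf
      obtain ⟨gh, hgh, rfl⟩ := List.mem_map.mp hf
      obtain ⟨h1, h2, h3⟩ := hmem gh hgh
      have l1 := lenG_eq lam gh.1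
      have l2 := lenG_eq lam gh.2
      have s1 := sum_cntZ_le gh.1
      have s2 := sum_cntZ_le gh.2
      have g1 := hg _ h1
      have g2 := hg _ h2
      -- express via lam0 and κ
      have m1 : ∀ g : List (Γ ⊕ (Pi' × Bool)), (∑ π, (cntZ g π : ℤ) * lam π) =
          (∑ π, (cntZ g π : ℤ) * lam0 π) + P * ∑ π, (κ π : ℤ) * cntZ g π := by
        intro g
        rw [Finset.mul_sum, ← Finset.sum_add_distrib]
        apply Finset.sum_congr rfl
        intro π _
        have : (lam π : ℤ) = lam0 π + P * κ π := by exact_mod_cast hdec π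
        rw [this]; ring
      have m2 : ∀ g : List (Γ ⊕ (Pi' × Bool)), (∑ π, (cntZ g π : ℤ) * lam0 π) ≤
          (t + P) * ∑ π, (cntZ g π : ℤ) := by
        intro g
        rw [Finset.mul_sum]
        apply Finset.sum_le_sum
        intro π _
        have : (lam0 π : ℤ) ≤ t + P := by exact_mod_cast hlam0le π
        have h0 : (0 : ℤ) ≤ cntZ g π := by positivity
        nlinarith
      have m3 : ∀ g : List (Γ ⊕ (Pi' × Bool)), (0 : ℤ) ≤ (∑ π, (cntZ g π : ℤ) * lam0 π) := by
        intro g
        exact Finset.sum_nonneg (fun π _ => by positivity)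
      have e3 : (lenG lam gh.1 : ℤ) = lenG lam gh.2 := by exact_mod_cast h3
      have e1 : (lenG lam gh.1 : ℤ) = cntL gh.1 + ∑ π, (cntZ gh.1 π : ℤ) * lam π := by
        rw [l1]; push_cast; rfl
      have e2 : (lenG lam gh.2 : ℤ) = cntL gh.2 + ∑ π, (cntZ gh.2 π : ℤ) * lam π := by
        rw [l2]; push_cast; rfl
      rw [m1] at e1 e2
      have s1' : (cntL gh.1 : ℤ) + ∑ π, (cntZ gh.1 π : ℤ) ≤ S := by exact_mod_cast s1.trans g1
      have s2' : (cntL gh.2 : ℤ) + ∑ π, (cntZ gh.2 π : ℤ) ≤ S := by exact_mod_cast s2.trans g2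
      have n1 : (0 : ℤ) ≤ ∑ π, (cntZ gh.1 π : ℤ) := Finset.sum_nonneg (fun π _ => by positivity)
      have n2 : (0 : ℤ) ≤ ∑ π, (cntZ gh.2 π : ℤ) := Finset.sum_nonneg (fun π _ => by positivity)
      have n3 : (0 : ℤ) ≤ (cntL gh.1 : ℤ) := by positivity
      have n4 : (0 : ℤ) ≤ (cntL gh.2 : ℤ) := by positivity
      have tP : (0 : ℤ) ≤ (t : ℤ) + P := by positivity
      have u1 := m2 gh.1
      have u2 := m2 gh.2
      have u3 := m3 gh.1
      have u4 := m3 gh.2
      have v1 : ((t : ℤ) + P) * ∑ π, (cntZ gh.1 π : ℤ) ≤ (t + P) * S := by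
        apply mul_le_mul_of_nonneg_left _ tP; linarith
      have v2 : ((t : ℤ) + P) * ∑ π, (cntZ gh.2 π : ℤ) ≤ (t + P) * S := by
        apply mul_le_mul_of_nonneg_left _ tP; linarith
      have hsplit : ∑ π, (κ π : ℤ) * ((cntZ gh.1 π : ℤ) - cntZ gh.2 π) =
          (∑ π, (κ π : ℤ) * cntZ gh.1 π) - ∑ π, (κ π : ℤ) * cntZ gh.2 π := by
        rw [← Finset.sum_sub_distrib]
        apply Finset.sum_congr rfl
        intro π _; ring
      rw [hsplit]
      set K1 := ∑ π, (κ π : ℤ) * cntZ gh.1 π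
      set K2 := ∑ π, (κ π : ℤ) * cntZ gh.2 π
      have hPz : (1 : ℤ) ≤ P := by exact_mod_cast hP
      have hup : (P : ℤ) * (K1 - K2) ≤ S + (t + P) * S := by linarith
      have hlo : -((S : ℤ) + (t + P) * S) ≤ (P : ℤ) * (K1 - K2) := by linarith
      have hSnn : (0 : ℤ) ≤ (S : ℤ) + (t + P) * S := by positivity
      have hbb : (S : ℤ) + (t + P) * S ≤ β := by
        rw [hβ]; push_cast
        nlinarith [(by positivity : (0 : ℤ) ≤ ((t : ℤ) + P) * S)]
      rw [abs_le]
      constructor
      · by_contra hcon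
        push Not at hcon
        have : (P : ℤ) * (K1 - K2) ≤ 1 * (K1 - K2) := by
          apply mul_le_mul_of_nonpos_right hPz
          linarith
        linarith
      · by_contra hcon
        push Not at hcon
        have : 1 * (K1 - K2) ≤ (P : ℤ) * (K1 - K2) := by
          apply mul_le_mul_of_nonneg_right hPz
          linarith
        linarith)
  refine ⟨fun π => lam0 π + P * κ' π, ?_, ?_, ?_⟩
  · intro π
    have h1 := hdec π
    have h2 := hκ'1 π
    by_cases ht : lam π < t
    · left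
      have : κ π = 0 := by simp [hκ, ht]
      have h3 : κ' π = 0 := by omega
      change lam π = lam0 π + P * κ' π
      rw [h3]; rw [this] at h1; omega
    · right
      have h3 : t ≤ lam0 π := by simp only [hlam0, if_neg ht]; omega
      refine ⟨by omega, ?_, ?_⟩
      · change t ≤ lam0 π + P * κ' π
        omega
      change lam π ≡ lam0 π + P * κ' π [MOD P]
      rw [h1]
      have e1 : lam0 π + P * κ π ≡ lam0 π [MOD P] := by
        simp [Nat.ModEq]
      have e2 : lam0 π + P * κ' π ≡ lam0 π [MOD P] := by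
        simp [Nat.ModEq]
      exact e1.trans e2.symm
  · intro π
    have h1 := hlam0le π
    have h2 := (hκ'2 π).trans (bG_le fs.length S β)
    have hfl : fs.length ≤ S * S := by
      rw [hfs, List.length_map]
      calc pairs.length ≤ (GS ×ˢ GS).length := List.length_filter_le _ _
        _ = GS.length * GS.length := by rw [List.length_product]
        _ ≤ S * S := Nat.mul_le_mul hlen hlen
    have h3 : (S + β + 2) ^ (11 ^ fs.length) ≤ (S + β + 2) ^ (11 ^ (S * S)) :=
      Nat.pow_le_pow_right (by omega) (Nat.pow_le_pow_right (by norm_num) hfl)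
    have h4 : P * κ' π ≤ P * (S + β + 2) ^ (11 ^ (S * S)) := Nat.mul_le_mul_left _ (h2.trans h3)
    unfold bLam
    rw [hβ] at h4
    change lam0 π + P * κ' π ≤ _
    omega
  · intro g hgm h hhm hgh
    have hin : (fun π => (cntZ g π : ℤ) - cntZ h π) ∈ fs := by
      rw [hfs]
      refine List.mem_map.mpr ⟨(g, h), ?_, rfl⟩
      rw [hpairs, List.mem_filter]
      refine ⟨List.mem_product.mpr ⟨hgm, hhm⟩, by simpa using hgh⟩
    have hsum := hκ'3 _ hin
    have l1 := lenG_eq lam g
    have l2 := lenG_eq lam h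
    have l3 := lenG_eq (fun π => lam0 π + P * κ' π) g
    have l4 := lenG_eq (fun π => lam0 π + P * κ' π) h
    have m1 : ∀ (g : List (Γ ⊕ (Pi' × Bool))), (∑ π, (cntZ g π : ℤ) * lam π) =
        (∑ π, (cntZ g π : ℤ) * lam0 π) + P * ∑ π, (κ π : ℤ) * cntZ g π := by
      intro g
      rw [Finset.mul_sum, ← Finset.sum_add_distrib]
      apply Finset.sum_congr rfl
      intro π _
      have : (lam π : ℤ) = lam0 π + P * κ π := by exact_mod_cast hdec π
      rw [this]; ring
    have m1' : ∀ (g : List (Γ ⊕ (Pi' × Bool))), (∑ π, (cntZ g π : ℤ) * (lam0 π + P * κ' π : ℕ)) =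
        (∑ π, (cntZ g π : ℤ) * lam0 π) + P * ∑ π, (κ' π : ℤ) * cntZ g π := by
      intro g
      rw [Finset.mul_sum, ← Finset.sum_add_distrib]
      apply Finset.sum_congr rfl
      intro π _
      push_cast; ring
    have hsplit : ∀ κ : Pi' → ℕ, ∑ π, (κ π : ℤ) * ((cntZ g π : ℤ) - cntZ h π) =
        (∑ π, (κ π : ℤ) * cntZ g π) - ∑ π, (κ π : ℤ) * cntZ h π := by
      intro κ
      rw [← Finset.sum_sub_distrib]
      apply Finset.sum_congr rfl
      intro π _; ring
    rw [hsplit, hsplit] at hsum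
    have e3 : (lenG lam g : ℤ) = lenG lam h := by exact_mod_cast hgh
    have e1 : (lenG lam g : ℤ) = cntL g + ∑ π, (cntZ g π : ℤ) * lam π := by
      rw [l1]; push_cast; rfl
    have e2 : (lenG lam h : ℤ) = cntL h + ∑ π, (cntZ h π : ℤ) * lam π := by
      rw [l2]; push_cast; rfl
    rw [m1] at e1 e2
    have e4 : (lenG (fun π => lam0 π + P * κ' π) g : ℤ) =
        cntL g + ((∑ π, (cntZ g π : ℤ) * lam0 π) + P * ∑ π, (κ' π : ℤ) * cntZ g π) := by
      rw [← m1', l3]; push_cast; rfl
    have e5 : (lenG (fun π => lam0 π + P * κ' π) h : ℤ) =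
        cntL h + ((∑ π, (cntZ h π : ℤ) * lam0 π) + P * ∑ π, (κ' π : ℤ) * cntZ h π) := by
      rw [← m1', l4]; push_cast; rfl
    have hz : (lenG (fun π => lam0 π + P * κ' π) g : ℤ) =
        lenG (fun π => lam0 π + P * κ' π) h := by
      rw [e4, e5]
      have hmul : (P : ℤ) * ((∑ π, (κ' π : ℤ) * cntZ g π) - ∑ π, (κ' π : ℤ) * cntZ h π) =
        P * ((∑ π, (κ π : ℤ) * cntZ g π) - ∑ π, (κ π : ℤ) * cntZ h π) := by rw [hsum]
      linarith
    exact_mod_cast hz

end Pool.Agent.helper13.WE
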