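import Pool.Agent.helper13.WE.Lam

/-!
# Backward transfer for chain compression
-/

namespace Pool.Agent.helper13.WE

open Classical

variable {Q : Type*} [Monoid Q] [StarMul Q] {Γ Δ V I : Type*}

/-- Successor relation of `s`. -/
def rs (s : Γ → Γ) : Γ → Γ → Prop := fun x y => y = s x

theorem rs_sym (f s : Γ → Γ) (hf : ∀ c, f (f c) = c) (hs : ∀ c, s (s c) = c)
    (hfs : ∀ c, f (s c) = s (f c)) (x y : Γ) : rs s (f y) (f x) ↔ rs s x y := by
  unfold rs
  constructor
  · intro h
    rw [← hfs] at h
    have := congrArg f h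
    rw [hf, hf] at this
    rw [this, hs]
  · rintro rfl
    rw [hfs, hs]

section ChainStep

variable (A : Alpha Q Γ) (s : Γ → Γ) (σ : V → List Γ)

/-- The popped pieces. -/
noncomputable def piece (π : V × Bool) : List Γ :=
  if π.2 then lstG (rs s) (σ π.1) else fstG (rs s) (σ π.1)

/-- Length of a popped piece. -/
noncomputable def plen (π : V × Bool) : ℕ := (piece s σ π).length

/-- First letter of a popped piece. -/
noncomputable def phd (π : V × Bool) : Γ := (piece s σ π).head?.getD (A.full 1).choose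

/-- Symbolic letters. -/
abbrev ZL (Γ V : Type*) := Γ ⊕ ((V × Bool) × Bool)

/-- First letter of the value of a symbolic letter. -/
noncomputable def hdZ : ZL Γ V → Γ
  | Sum.inl c => c
  | Sum.inr (π, false) => phd A s σ π
  | Sum.inr (π, true) => A.bar (s^[plen s σ π - 1] (phd A s σ π))

/-- Value of a symbolic letter for the length function `L`. -/
noncomputable def zL (L : V × Bool → ℕ) (y : ZL Γ V) : List Γ := chn s (hdZ A s σ y) (lenZ L y)

/-- Adjacency relation on symbolic letters. -/
def RZ (y y' : ZL Γ V) : Prop :=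
  hdZ A s σ y' = s (s^[lenZ (plen s σ) y - 1] (hdZ A s σ y))

/-- Admissible length functions. -/
def Adm (L : V × Bool → ℕ) : Prop := ∀ π, (plen s σ π = 0 → L π = 0) ∧
  (1 ≤ plen s σ π → 1 ≤ L π ∧ L π % 2 = plen s σ π % 2)

theorem adm_plen : Adm s σ (plen s σ) := fun _ => ⟨id, fun h => ⟨h, rfl⟩⟩

/-- Symbolic substitution. -/
noncomputable def sbX : Sym Γ V → List (Sym (ZL Γ V) V)
  | Sum.inl c => [Sum.inl (Sum.inl c)]
  | Sum.inr (v, false) => [Sum.inl (Sum.inr ((v, false), false))] ++
    ((if mid (rs s) (σ v) ≠ [] then [Sum.inr (v, false)] else []) ++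
      (if lstG (rs s) (σ v) ≠ [] then [Sum.inl (Sum.inr ((v, true), false))] else []))
  | Sum.inr (v, true) =>
    (if lstG (rs s) (σ v) ≠ [] then [Sum.inl (Sum.inr ((v, true), true))] else []) ++
    ((if mid (rs s) (σ v) ≠ [] then [Sum.inr (v, true)] else []) ++
      [Sum.inl (Sum.inr ((v, false), true))])

/-- New prefixes. -/
noncomputable def pL (L : V × Bool → ℕ) (v : V) : List Γ :=
  chn s (phd A s σ (v, false)) (L (v, false))

/-- New suffixes. -/
noncomputable def sL (L : V × Bool → ℕ) (v : V) : List Γ :=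
  chn s (phd A s σ (v, true)) (L (v, true))

theorem piece_eq (hv : ∀ v : V, ∀ b, piece s σ (v, b) ≠ [] → σ v ≠ []) (π : V × Bool) :
    piece s σ π = chn s (phd A s σ π) (plen s σ π) := by
  by_cases h : piece s σ π = []
  · simp [plen, h, chn]
  · obtain ⟨v, b⟩ := π
    have hne := hv v b h
    obtain ⟨c, l, hcl⟩ := List.exists_cons_of_ne_nil h
    have hc : (piece s σ (v, b)).IsChain (rs s) := by
      cases b with
      | false => exact fstG_chain _ _ hne
      | true => exact lstG_chain _ _ hne
    have := eq_chn' s _ c (by rw [hcl]; simp) hc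
    rw [plen, phd, hcl]
    rw [hcl] at this
    exact this

theorem piece_ne (v : V) (b : Bool) (h : piece s σ (v, b) ≠ []) : σ v ≠ [] := by
  rintro h0
  apply h
  cases b with
  | false => simp [piece, h0, fstG, grp_nil]
  | true => simp [piece, h0, lstG, grp_nil]

theorem zL_bar (hs : ∀ c, s (s c) = c) (hfs : ∀ c, A.bar (s c) = s (A.bar c))
    (L : V × Bool → ℕ) (hL : Adm s σ L) (π : V × Bool) :
    zL A s σ L (Sum.inr (π, true)) = barL A.bar (chn s (phd A s σ π) (L π)) := by
  simp only [zL, hdZ, lenZ]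
  by_cases h : plen s σ π = 0
  · rw [(hL π).1 h]; simp [chn]
  · obtain ⟨h1, h2⟩ := (hL π).2 (by omega)
    rw [barL_chn A.bar s A.bar_bar hs hfs _ _ h1]
    congr 2
    exact iter_congr s hs _ (by omega)

theorem sbX_mor (hs : ∀ c, s (s c) = c) (hfs : ∀ c, A.bar (s c) = s (A.bar c))
    (L : V × Bool → ℕ) (hL : Adm s σ L) (y : Sym Γ V) :
    (sbX s σ y).flatMap (mor (zL A s σ L)) =
      sb A.bar (pL A s σ L) (sL A s σ L) (fun v => mid (rs s) (σ v) ≠ []) y := by
  have h0 : ∀ v, lstG (rs s) (σ v) = [] → sL A s σ L v = [] := by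
    intro v hv
    have : plen s σ (v, true) = 0 := by simp [plen, piece, hv]
    simp [sL, (hL (v, true)).1 this, chn]
  match y with
  | Sum.inl c => simp [sbX, sb, mor, zL, lenZ, hdZ, chn]
  | Sum.inr (v, false) =>
    by_cases hm : mid (rs s) (σ v) = [] <;> by_cases hl : lstG (rs s) (σ v) = []
    · simp [sbX, sb, mor, hm, hl, h0 v hl, zL, hdZ, lenZ, pL]
    · simp [sbX, sb, mor, hm, hl, zL, hdZ, lenZ, pL, sL]
    · simp [sbX, sb, mor, hm, hl, h0 v hl, zL, hdZ, lenZ, pL]
    · simp [sbX, sb, mor, hm, hl, zL, hdZ, lenZ, pL, sL]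
  | Sum.inr (v, true) =>
    by_cases hm : mid (rs s) (σ v) = [] <;> by_cases hl : lstG (rs s) (σ v) = []
    · simp [sbX, sb, mor, hm, hl, h0 v hl, zL_bar A s σ hs hfs L hL, pL]
    · simp [sbX, sb, mor, hm, hl, zL_bar A s σ hs hfs L hL, pL, sL]
    · simp [sbX, sb, mor, hm, hl, h0 v hl, zL_bar A s σ hs hfs L hL, pL]
    · simp [sbX, sb, mor, hm, hl, zL_bar A s σ hs hfs L hL, pL, sL]

theorem sb_plen (W : List (Sym Γ V)) :
    W.flatMap (sb A.bar (pL A s σ (plen s σ)) (sL A s σ (plen s σ))
      (fun v => mid (rs s) (σ v) ≠ [])) = W.flatMap (sbG A.bar (rs s) σ) := by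
  have h1 : ∀ v, pL A s σ (plen s σ) v = fstG (rs s) (σ v) := by
    intro v
    have := piece_eq A s σ (fun v b => piece_ne s σ v b) (v, false)
    rw [pL, ← this]; simp [piece]
  have h2 : ∀ v, sL A s σ (plen s σ) v = lstG (rs s) (σ v) := by
    intro v
    have := piece_eq A s σ (fun v b => piece_ne s σ v b) (v, true)
    rw [sL, ← this]; simp [piece]
  have h1' : pL A s σ (plen s σ) = fun v => fstG (rs s) (σ v) := funext h1
  have h2' : sL A s σ (plen s σ) = fun v => lstG (rs s) (σ v) := funext h2
  rw [h1', h2']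
  rfl

theorem length_sbX (y : Sym Γ V) : (sbX s σ y).length ≤ 3 := by
  match y with
  | Sum.inl c => simp [sbX]
  | Sum.inr (v, false) => simp only [sbX]; split <;> split <;> simp
  | Sum.inr (v, true) => simp only [sbX]; split <;> split <;> simp

theorem sbX_pos (W : List (Sym Γ V)) (hW : ∀ v, Occ W v → σ v ≠ []) (y : ZL Γ V)
    (hy : Sum.inl y ∈ W.flatMap (sbX s σ)) : 1 ≤ lenZ (plen s σ) y := by
  obtain ⟨z, hz, hyz⟩ := List.mem_flatMap.mp hy
  have hp : ∀ v, σ v ≠ [] → 1 ≤ plen s σ (v, false) := by
    intro v hv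
    have := List.length_pos_of_ne_nil (fstG_ne (rs s) (σ v) hv)
    exact Nat.succ_le_of_lt (by simpa [plen, piece] using this)
  have hq : ∀ v, lstG (rs s) (σ v) ≠ [] → 1 ≤ plen s σ (v, true) := by
    intro v hv
    have := List.length_pos_of_ne_nil hv
    exact Nat.succ_le_of_lt (by simpa [plen, piece] using this)
  match z, hz, hyz with
  | Sum.inl c, _, hyz =>
    simp [sbX] at hyz; subst hyz; simp [lenZ]
  | Sum.inr (v, false), hz, hyz =>
    have hv := hW v ⟨_, hz⟩
    simp only [sbX, List.mem_append, List.mem_singleton] at hyz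
    rcases hyz with h | h | h
    · simp at h; subst h; exact hp v hv
    · split at h <;> simp at h
    · split at h
      · rename_i hl
        simp at h; subst h; exact hq v hl
      · simp at h
  | Sum.inr (v, true), hz, hyz =>
    have hv := hW v ⟨_, hz⟩
    simp only [sbX, List.mem_append, List.mem_singleton] at hyz
    rcases hyz with h | h | h
    · split at h
      · rename_i hl
        simp at h; subst h; exact hq v hl
      · simp at h
    · split at h <;> simp at h
    · simp at h; subst h; exact hp v hv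

theorem flat_chain (hs : ∀ c, s (s c) = c) (L : V × Bool → ℕ) (hL : Adm s σ L) :
    ∀ (y : ZL Γ V) (g : List (ZL Γ V)), (y :: g).IsChain (RZ A s σ) →
    (∀ z ∈ y :: g, 1 ≤ lenZ (plen s σ) z) →
    (y :: g).flatMap (zL A s σ L) = chn s (hdZ A s σ y) (lenG L (y :: g)) := by
  intro y g
  induction g generalizing y with
  | nil => intro _ _; simp [zL, lenG]
  | cons z g ih =>
    intro hc hp
    rw [List.flatMap_cons, ih z hc.tail (fun w hw => hp w (by simp at hw ⊢; tauto))]
    have e : lenG L (y :: z :: g) = lenZ L y + lenG L (z :: g) := by simp [lenG]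
    rw [e, chn_add]
    congr 2
    have h1 : RZ A s σ y z := hc.rel
    rw [h1, ← Function.iterate_succ_apply' s]
    have h2 : 1 ≤ lenZ (plen s σ) y := hp y (by simp)
    apply iter_congr s hs
    match y, h2 with
    | Sum.inl c, _ => simp [lenZ]
    | Sum.inr (π, b), h2 =>
      have h3 := (hL π).2 h2
      simp only [lenZ] at h2 ⊢
      omega

theorem grp_sbX (hs : ∀ c, s (s c) = c) (X : List (Sym (ZL Γ V) V))
    (hX : ∀ y, Sum.inl y ∈ X → 1 ≤ lenZ (plen s σ) y) :
    tokS A.bar (rs s) (X.flatMap (mor (zL A s σ (plen s σ)))) =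
      (grp (rS (RZ A s σ)) X).flatMap
        (fun G => codeS A.bar (G.flatMap (mor (zL A s σ (plen s σ))))) := by
  unfold tokS
  have hne : ∀ a ∈ X, mor (V := V) (zL A s σ (plen s σ)) a ≠ [] := by
    intro a ha
    match a, ha with
    | Sum.inl y, ha =>
      have := hX y ha
      have h2 : (zL A s σ (plen s σ) y).length ≠ 0 := by simp [zL]; omega
      simp only [mor, ne_eq, List.map_eq_nil_iff]
      intro h; rw [h] at h2; simp at h2
    | Sum.inr x, _ => simp [mor]
  have hbd : ∀ a ∈ X, ∀ b ∈ X, ¬ rS (RZ A s σ) a b →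
      Bd (rS (rs s)) (mor (V := V) (zL A s σ (plen s σ)) a)
        (mor (zL A s σ (plen s σ)) b) := by
    intro a ha b hb hab
    match a, b, ha, hb, hab with
    | Sum.inl y, Sum.inl z, ha, hb, hab =>
      intro p hp q hq
      obtain ⟨c, hc, rfl⟩ := getLast?_map_inl _ _ hp
      obtain ⟨d, hd, rfl⟩ := head?_map_inl _ _ hq
      have e1 := hX y ha
      have e2 := hX z hb
      rw [zL, getLast?_chn s _ _ e1, Option.mem_def, Option.some_inj] at hc
      rw [zL, head?_chn s _ _ e2, Option.mem_def, Option.some_inj] at hd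
      intro hcd
      apply hab
      change d = s c at hcd
      change hdZ A s σ z = s (s^[lenZ (plen s σ) y - 1] (hdZ A s σ y))
      rw [hd, hc, hcd]
    | Sum.inl y, Sum.inr x, _, _, _ =>
      intro p hp q hq
      simp only [mor, List.head?_cons, Option.mem_def, Option.some_inj] at hq
      subst hq
      cases p <;> exact id
    | Sum.inr x, b, _, _, _ =>
      intro p hp q hq
      simp only [mor, List.getLast?_singleton, Option.mem_def, Option.some_inj] at hp
      subst hp
      cases q <;> exact id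
  rw [grp_flatMap (rS (RZ A s σ)) (rS (rs s)) _ X hne]
  · rw [List.flatMap_assoc]
    apply List.flatMap_congr
    intro G hG
    have hsub : ∀ a ∈ G, a ∈ X := by
      intro a ha
      rw [← grp_flatten (rS (RZ A s σ)) X]
      exact List.mem_flatten.mpr ⟨G, hG, ha⟩
    have : grp (rS (rs s)) (G.flatMap (mor (zL A s σ (plen s σ)))) =
        [G.flatMap (mor (zL A s σ (plen s σ)))] := by
      rcases shape_of_mem _ _ G hG with ⟨x, rfl⟩ | ⟨g, hg, rfl, hc⟩
      · simp only [List.flatMap_cons, mor, List.flatMap_nil, List.append_nil]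
        exact grp_singleton _ _
      · rw [flatMap_mor_map_inl]
        obtain ⟨y, g', rfl⟩ := List.exists_cons_of_ne_nil hg
        have hpos : ∀ z ∈ y :: g', 1 ≤ lenZ (plen s σ) z := by
          intro z hz
          exact hX z (hsub _ (List.mem_map.mpr ⟨z, hz, rfl⟩))
        rw [flat_chain A s σ hs (plen s σ) (adm_plen s σ) y g' hc hpos]
        apply grp_of_chain
        · simp only [ne_eq, List.map_eq_nil_iff]
          intro h
          have := congrArg List.length h
          simp [lenG] at this
          have h2 := hpos y (by simp)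
          omega
        · rw [List.isChain_map]
          exact chn_isChain s _ _
    rw [this]; simp
  · rw [List.isChain_iff_forall_rel_of_append_cons_cons]
    intro a b l1 l2 h
    exact hbd a (by rw [h]; simp) b (by rw [h]; simp)

theorem length_grp_le (r : Γ → Γ → Prop) (l : List Γ) : (grp r l).length ≤ l.length := by
  induction l with
  | nil => simp [grp_nil]
  | cons a l ih =>
    rw [grp_cons]
    have := length_push_le r a (grp r l)
    simp only [List.length_cons]
    omega

theorem length_mem_grp_le (r : Γ → Γ → Prop) (l : List Γ) (G : List Γ) (hG : G ∈ grp r l) :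
    G.length ≤ l.length := by
  have h := grp_flatten r l
  have h2 : (grp r l).flatten.length = l.length := by rw [h]
  rw [List.length_flatten] at h2
  rw [← h2]
  exact List.single_le_sum (by simp) _ (List.mem_map.mpr ⟨G, hG, rfl⟩)

/-- The constant of the chain step. -/
def bC (S t P : ℕ) : ℕ := (S + 1) * (bLam S t P + 1)

theorem lenG_le (L : V × Bool → ℕ) (B : ℕ) (hB : ∀ π, L π ≤ B) (g : List (ZL Γ V)) :
    lenG L g ≤ g.length * (B + 1) := by
  induction g with
  | nil => simp [lenG]
  | cons y g ih =>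
    have e : lenG L (y :: g) = lenZ L y + lenG L g := by simp [lenG]
    have h1 : lenZ L y ≤ B + 1 := by
      match y with
      | Sum.inl c => simp [lenZ]
      | Sum.inr (π, b) => simp only [lenZ]; have := hB π; omega
    rw [e, List.length_cons]
    calc lenZ L y + lenG L g ≤ (B + 1) + g.length * (B + 1) := Nat.add_le_add h1 ih
      _ = _ := by ring

theorem chain_back [Fintype V] [Fintype I] (hs : ∀ c, s (s c) = c)
    (hfs : ∀ c, A.bar (s c) = s (A.bar c)) {t₀ p₀ : ℕ} (ht₀ : 1 ≤ t₀) (hp₀ : 0 < p₀)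
    (hQ : ∀ (x : Q) n, t₀ ≤ n → x ^ (n + p₀) = x ^ n)
    (alive : Finset V) (q : V → Q) (E : I → Bool → List (Sym Γ V)) (hocc : OccIn alive E)
    (hne : ∀ v ∈ alive, σ v ≠ []) (hty : ∀ v ∈ alive, A.μL (σ v) = q v) (S : ℕ)
    (hS : 3 * ∑ ib : I × Bool, (E ib.1 ib.2).length ≤ S) :
    Back A alive q E A.tokA (kp alive (fun v => mid (rs s) (σ v) ≠ []))
      (fun v => A.μL (mid (rs s) (σ v))) (stepE A.bar (rs s) σ E)
      (bC S (4 * t₀) (4 * p₀)) (2 * bC S (4 * t₀) (4 * p₀) * alive.card) := by
  set t := 4 * t₀ with ht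
  set P := 4 * p₀ with hPdef
  set X : I × Bool → List (Sym (ZL Γ V) V) := fun ib => (E ib.1 ib.2).flatMap (sbX s σ) with hX
  have hWne : ∀ ib : I × Bool, ∀ v, Occ (E ib.1 ib.2) v → σ v ≠ [] :=
    fun ib v hv => hne v (hocc ib.1 ib.2 v hv)
  have hXpos : ∀ ib : I × Bool, ∀ y, Sum.inl y ∈ X ib → 1 ≤ lenZ (plen s σ) y :=
    fun ib y hy => sbX_pos s σ (E ib.1 ib.2) (hWne ib) y hy
  have hXlen : ∑ ib : I × Bool, (X ib).length ≤ S := by
    refine le_trans ?_ hS
    rw [Finset.mul_sum]
    apply Finset.sum_le_sum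
    intro ib _
    simp only [hX]
    rw [List.length_flatMap]
    calc ((E ib.1 ib.2).map (fun a => (sbX s σ a).length)).sum
        ≤ ((E ib.1 ib.2).map (fun _ => 3)).sum := by
          apply List.sum_le_sum
          intro y _
          exact length_sbX s σ y
      _ = 3 * (E ib.1 ib.2).length := by simp [mul_comm]
  have hE' : ∀ ib : I × Bool, stepE A.bar (rs s) σ E ib.1 ib.2 =
      (grp (rS (RZ A s σ)) (X ib)).flatMap
        (fun G => codeS A.bar (G.flatMap (mor (zL A s σ (plen s σ))))) := by
    intro ib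
    rw [← grp_sbX A s σ hs (X ib) (hXpos ib)]
    unfold stepE
    rw [← sb_plen]
    congr 1
    simp only [hX]
    rw [List.flatMap_assoc]
    apply List.flatMap_congr
    intro y _
    exact (sbX_mor A s σ hs hfs (plen s σ) (adm_plen s σ) y).symm
  set GS : List (List (ZL Γ V)) := (Finset.univ : Finset (I × Bool)).toList.flatMap
    (fun ib => (grp (rS (RZ A s σ)) (X ib)).map (fun G => G.filterMap Sum.getLeft?)) with hGS
  have hGSlen : GS.length ≤ S := by
    rw [hGS, List.length_flatMap]
    refine le_trans ?_ hXlen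
    rw [← Finset.sum_map_toList (f := fun ib => (X ib).length)]
    apply List.sum_le_sum
    intro ib _
    rw [List.length_map]
    exact length_grp_le _ _
  have hGSmem : ∀ g ∈ GS, g.length ≤ S := by
    intro g hg
    rw [hGS, List.mem_flatMap] at hg
    obtain ⟨ib, _, hg⟩ := hg
    obtain ⟨G, hG, rfl⟩ := List.mem_map.mp hg
    calc (G.filterMap Sum.getLeft?).length ≤ G.length := List.length_filterMap_le _ _
      _ ≤ (X ib).length := length_mem_grp_le _ _ G hG
      _ ≤ ∑ ib, (X ib).length := Finset.single_le_sum (f := fun ib => (X ib).length)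
          (fun _ _ => Nat.zero_le _) (Finset.mem_univ ib)
      _ ≤ S := hXlen
  obtain ⟨lam', hl1, hl2, hl3⟩ := exists_lam GS (plen s σ) t P S (by omega) hGSlen hGSmem
  have hadm : Adm s σ lam' := by
    intro π
    have h := hl1 π
    have hm : plen s σ π % 2 = lam' π % 2 := by
      have : P = 2 * (2 * p₀) := by omega
      rw [this] at h
      exact h.mod2
    constructor
    · intro h0
      rcases h with h | ⟨h, _, _⟩
      · omega
      · omega
    · intro h1
      refine ⟨?_, hm.symm⟩
      rcases h with h | ⟨_, h, _⟩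
      · omega
      · omega
  have hlenGood : ∀ g : List (ZL Γ V), Good t P (lenG (plen s σ) g) (lenG lam' g) := by
    intro g
    induction g with
    | nil => exact Good.refl _ _ _
    | cons y g ih =>
      have e1 : lenG (plen s σ) (y :: g) = lenZ (plen s σ) y + lenG (plen s σ) g := by simp [lenG]
      have e2 : lenG lam' (y :: g) = lenZ lam' y + lenG lam' g := by simp [lenG]
      rw [e1, e2]
      refine Good.add ?_ ih
      match y with
      | Sum.inl c => exact Good.refl _ _ _
      | Sum.inr (π, b) => exact hl1 π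
  -- the length map
  set F : ℕ → ℕ := fun n => if h : ∃ g ∈ GS, lenG (plen s σ) g = n then lenG lam' h.choose else n
    with hFdef
  have hF : ∀ g ∈ GS, F (lenG (plen s σ) g) = lenG lam' g := by
    intro g hg
    have hex : ∃ g' ∈ GS, lenG (plen s σ) g' = lenG (plen s σ) g := ⟨g, hg, rfl⟩
    simp only [hFdef]
    rw [dif_pos hex]
    exact hl3 _ hex.choose_spec.1 g hg hex.choose_spec.2
  obtain ⟨gn, hgn1, hgn2⟩ := exists_gen A.tokA A
  set E' := stepE A.bar (rs s) σ E with hE'def
  set vis : Tok Γ → Prop := fun u => ∃ i b, Sum.inl u ∈ E' i b ∨ Sum.inl (barT A.bar u) ∈ E' i b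
    with hvis
  have hvisbar : ∀ u, vis (barT A.bar u) ↔ vis u := by
    intro u
    simp only [hvis, barT_barT A.bar A.bar_bar]
    constructor
    · rintro ⟨i, b, h⟩; exact ⟨i, b, h.symm⟩
    · rintro ⟨i, b, h⟩; exact ⟨i, b, h.symm⟩
  -- facts about groups
  have hgrp : ∀ ib : I × Bool, ∀ g : List (ZL Γ V), g ≠ [] →
      (g.map Sum.inl : List (Sym (ZL Γ V) V)) ∈ grp (rS (RZ A s σ)) (X ib) →
      g.IsChain (RZ A s σ) → ∃ c, (∀ L, Adm s σ L → g.flatMap (zL A s σ L) = chn s c (lenG L g)) ∧
        1 ≤ lenG (plen s σ) g ∧ g ∈ GS := by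
    intro ib g hg hG hc
    obtain ⟨y, g', rfl⟩ := List.exists_cons_of_ne_nil hg
    have hpos : ∀ z ∈ y :: g', 1 ≤ lenZ (plen s σ) z := by
      intro z hz
      apply hXpos ib z
      rw [← grp_flatten (rS (RZ A s σ)) (X ib)]
      exact List.mem_flatten.mpr ⟨_, hG, List.mem_map.mpr ⟨z, hz, rfl⟩⟩
    refine ⟨hdZ A s σ y, fun L hL => flat_chain A s σ hs L hL y g' hc hpos, ?_, ?_⟩
    · have e : lenG (plen s σ) (y :: g') = lenZ (plen s σ) y + lenG (plen s σ) g' := by simp [lenG]
      have := hpos y (by simp)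
      omega
    · rw [hGS, List.mem_flatMap]
      exact ⟨ib, Finset.mem_toList.mpr (Finset.mem_univ _), List.mem_map.mpr
        ⟨_, hG, filterMap_getLeft _⟩⟩
  -- facts about visible tokens
  set TF : Tok Γ → Prop := fun u => ∃ g ∈ GS, ∃ c, u.w = chn s c u.w.length ∧ 1 ≤ u.w.length ∧
    (lenG (plen s σ) g = if u.k then 2 * u.w.length else u.w.length) with hTF
  have hTFbar : ∀ u, TF u → TF (barT A.bar u) := by
    rintro u ⟨g, hg, c, h1, h2, h3⟩
    refine ⟨g, hg, A.bar (s^[u.w.length - 1] c), ?_, ?_, ?_⟩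
    · rw [barT_w, length_barL]
      conv_lhs => rw [h1]
      exact barL_chn A.bar s A.bar_bar hs hfs c _ h2
    · simpa using h2
    · simpa using h3
  have hcodeTF : ∀ (g : List (ZL Γ V)) (c : Γ), g ∈ GS → 1 ≤ lenG (plen s σ) g →
      ∀ u ∈ code A.bar (chn s c (lenG (plen s σ) g)), TF u := by
    intro g c hg h1 u hu
    unfold code at hu
    split at hu
    · rename_i hsd
      obtain ⟨hc2, hev⟩ := selfdual_chn A.bar s A.bar_bar A.bar_ne hs hfs c _ h1 hsd
      have hh : TF ⟨(chn s c (lenG (plen s σ) g)).take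
          ((chn s c (lenG (plen s σ) g)).length / 2), true, false⟩ := by
        refine ⟨g, hg, c, ?_, ?_, ?_⟩
        · simp only [length_chn]
          rw [take_chn s c _ _ (Nat.div_le_self _ _)]
          simp
        · simp only [length_chn, List.length_take]
          omega
        · simp only [length_chn, List.length_take, if_true]
          omega
      simp only [List.mem_cons, List.not_mem_nil, or_false] at hu
      rcases hu with rfl | rfl
      · exact hh
      · exact hTFbar _ hh
    · simp only [List.mem_singleton] at hu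
      subst hu
      exact ⟨g, hg, c, by simp, by simpa using h1, by simp⟩
  have hvisTF : ∀ u, vis u → TF u := by
    have key : ∀ i b u, Sum.inl u ∈ E' i b → TF u := by
      intro i b u hu
      have e0 := hE' (i, b)
      simp only at e0
      rw [e0, List.mem_flatMap] at hu
      obtain ⟨G, hG, hu⟩ := hu
      rcases shape_of_mem _ _ G hG with ⟨x, rfl⟩ | ⟨g, hg, rfl, hc⟩
      · simp [mor, codeS] at hu
      · obtain ⟨c, hc1, hc2, hc3⟩ := hgrp (i, b) g hg hG hc
        rw [flatMap_mor_map_inl, hc1 _ (adm_plen s σ), codeS_inl] at hu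
        obtain ⟨u', hu', he⟩ := List.mem_map.mp hu
        have : u' = u := Sum.inl_injective he
        subst this
        exact hcodeTF g c hc3 hc2 u' hu'
    rintro u ⟨i, b, h | h⟩
    · exact key i b u h
    · have := hTFbar _ (key i b _ h)
      rwa [barT_barT A.bar A.bar_bar] at this
  -- new lengths of tokens
  set nw : Tok Γ → ℕ := fun u => if u.k then F (2 * u.w.length) / 2 else F u.w.length with hnw
  have hnwbar : ∀ u, nw (barT A.bar u) = nw u := by
    intro u; simp [hnw]
  have hnwfact : ∀ u, TF u → Good (2 * t₀) (2 * p₀) u.w.length (nw u) ∧ nw u ≤ S * (bLam S t P + 1)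
      ∧ (u.k = true → 2 * nw u = F (2 * u.w.length)) := by
    rintro u ⟨g, hg, c, h1, h2, h3⟩
    have hG := hlenGood g
    have hFg := hF g hg
    have hub : lenG lam' g ≤ S * (bLam S t P + 1) :=
      (lenG_le lam' _ hl2 g).trans (Nat.mul_le_mul_right _ (hGSmem g hg))
    have e1 : t = 2 * (2 * t₀) := by omega
    have e2 : P = 2 * (2 * p₀) := by omega
    rw [e1, e2] at hG
    by_cases hk : u.k = true
    · rw [if_pos hk] at h3
      have hmod := hG.mod2
      rw [h3] at hG hmod hFg
      have h2nw : 2 * nw u = F (2 * u.w.length) := by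
        simp only [hnw, if_pos hk]
        omega
      refine ⟨?_, by omega, fun _ => h2nw⟩
      rw [← hFg, ← h2nw] at hG
      exact hG.half
    · rw [if_neg hk] at h3
      rw [h3] at hG hFg
      have : nw u = lenG lam' g := by simp only [hnw, if_neg hk]; exact hFg
      refine ⟨?_, by omega, fun h => absurd h hk⟩
      rw [this]
      exact hG.weaken
  have hnwpos : ∀ u, TF u → 1 ≤ nw u := by
    intro u hu
    obtain ⟨h, _, _⟩ := hnwfact u hu
    obtain ⟨g, hg, c, h1, h2, h3⟩ := hu
    rcases h with h | ⟨_, h, _⟩ <;> omega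
  set c0 : Γ := (A.full 1).choose with hc0
  set ψ : Tok Γ → List Γ := fun u => if vis u then chn s (u.w.head?.getD c0) (nw u) else [gn u]
    with hψdef
  have hψvis : ∀ u c n, vis u → 1 ≤ n → u.w = chn s c n → ψ u = chn s c (nw u) := by
    intro u c n hu hn hw
    simp only [hψdef, if_pos hu]
    rw [hw, head?_chn s c n hn]
    rfl
  have hψbar : ∀ u, ψ (A.tokA.bar u) = barL A.bar (ψ u) := by
    intro u
    change ψ (barT A.bar u) = _
    by_cases hu : vis u
    · obtain ⟨hG, _, _⟩ := hnwfact u (hvisTF u hu)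
      have hpos := hnwpos u (hvisTF u hu)
      obtain ⟨g, hg, c, h1, h2, h3⟩ := hvisTF u hu
      rw [hψvis u c _ hu h2 h1]
      have hw : (barT A.bar u).w = chn s (A.bar (s^[u.w.length - 1] c)) u.w.length := by
        rw [barT_w]
        conv_lhs => rw [h1]
        exact barL_chn A.bar s A.bar_bar hs hfs c _ h2
      rw [hψvis (barT A.bar u) _ _ ((hvisbar u).mpr hu) h2 hw, hnwbar,
        barL_chn A.bar s A.bar_bar hs hfs c _ hpos]
      congr 2
      apply iter_congr s hs
      have := hG.mod2
      omega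
    · have hu' : ¬ vis (barT A.bar u) := fun h => hu ((hvisbar u).mp h)
      simp only [hψdef, if_neg hu, if_neg hu']
      have := hgn1 u
      change gn (barT A.bar u) = _ at this
      rw [this]
      simp [barL]
  have hψμ : ∀ u, A.μL (ψ u) = A.tokA.μ u := by
    intro u
    by_cases hu : vis u
    · obtain ⟨hG, _, _⟩ := hnwfact u (hvisTF u hu)
      obtain ⟨g, hg, c, h1, h2, h3⟩ := hvisTF u hu
      rw [hψvis u c _ hu h2 h1, ← μL_chn_congr A s hs hQ c _ _ hG, ← h1]
      rfl
    · simp only [hψdef, if_neg hu]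
      rw [Alpha.μL_singleton, hgn2]
  have hψlen : ∀ u, (ψ u).length ≤ bC S t P := by
    intro u
    by_cases hu : vis u
    · obtain ⟨_, hG, _⟩ := hnwfact u (hvisTF u hu)
      simp only [hψdef, if_pos hu, length_chn]
      refine hG.trans ?_
      unfold bC
      exact Nat.mul_le_mul_right _ (by omega)
    · simp only [hψdef, if_neg hu, List.length_singleton]
      unfold bC
      nlinarith [Nat.zero_le S, Nat.zero_le (bLam S t P)]
  have hlamC : ∀ π, lam' π ≤ bC S t P := by
    intro π
    refine (hl2 π).trans ?_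
    unfold bC
    nlinarith [Nat.zero_le S, Nat.zero_le (bLam S t P)]
  have hfst : ∀ v, fstG (rs s) (σ v) = chn s (phd A s σ (v, false)) (plen s σ (v, false)) := by
    intro v
    have := piece_eq A s σ (fun v b => piece_ne s σ v b) (v, false)
    rw [← this]; simp [piece]
  have hlst : ∀ v, lstG (rs s) (σ v) = chn s (phd A s σ (v, true)) (plen s σ (v, true)) := by
    intro v
    have := piece_eq A s σ (fun v b => piece_ne s σ v b) (v, true)
    rw [← this]; simp [piece]
  have hGood' : ∀ π, Good (2 * t₀) (2 * p₀) (plen s σ π) (lam' π) := by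
    intro π
    have h := hl1 π
    have e1 : t = 2 * (2 * t₀) := by omega
    have e2 : P = 2 * (2 * p₀) := by omega
    rw [e1, e2] at h
    exact h.weaken
  have hμp : ∀ v, A.μL (pL A s σ lam' v) = A.μL (fstG (rs s) (σ v)) := by
    intro v
    rw [hfst v]
    exact (μL_chn_congr A s hs hQ _ _ _ (hGood' (v, false))).symm
  have hμs : ∀ v, A.μL (sL A s σ lam' v) = A.μL (lstG (rs s) (σ v)) := by
    intro v
    rw [hlst v]
    exact (μL_chn_congr A s hs hQ _ _ _ (hGood' (v, true))).symm
  refine back_of_lift A alive q E A.tokA (fun v => A.μL (mid (rs s) (σ v))) E' (bC S t P)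
    (pL A s σ lam') (sL A s σ lam') (fun v => mid (rs s) (σ v) ≠ []) ψ hψbar hψμ hψlen
    (fun v _ => by rw [pL, length_chn]; exact hlamC _)
    (fun v _ => by rw [sL, length_chn]; exact hlamC _) ?_ ?_ ?_ ?_
  · intro v hv h
    have h1 := congrArg List.length h
    rw [pL, length_chn] at h1
    have h2 := List.length_pos_of_ne_nil (fstG_ne (rs s) (σ v) (hne v hv))
    rw [hfst v, length_chn] at h2
    have := ((hadm (v, false)).2 h2).1
    simp at h1
    omega
  · intro v hv hk
    rw [hμp, hμs, ← hty v hv]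
    conv_lhs => rw [← pop_eq (rs s) (σ v)]
    rw [Alpha.μL_append, Alpha.μL_append]
  · intro v hv hk
    have hk' : mid (rs s) (σ v) = [] := not_not.mp hk
    rw [hμp, hμs, ← hty v hv]
    conv_lhs => rw [← pop_eq (rs s) (σ v)]
    rw [hk', List.nil_append, Alpha.μL_append]
  · intro i b
    have e1 : (E i b).flatMap (sb A.bar (pL A s σ lam') (sL A s σ lam')
        (fun v => mid (rs s) (σ v) ≠ [])) = (X (i, b)).flatMap (mor (zL A s σ lam')) := by
      simp only [hX]
      rw [List.flatMap_assoc]
      apply List.flatMap_congr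
      intro y _
      exact (sbX_mor A s σ hs hfs lam' hadm y).symm
    have e0 := hE' (i, b)
    simp only at e0
    have hflat : (X (i, b)).flatMap (mor (zL A s σ lam')) =
        (grp (rS (RZ A s σ)) (X (i, b))).flatMap (fun G => G.flatMap (mor (zL A s σ lam'))) := by
      have h1 : X (i, b) = (grp (rS (RZ A s σ)) (X (i, b))).flatMap id := by
        rw [List.flatMap_id, grp_flatten]
      calc (X (i, b)).flatMap (mor (zL A s σ lam'))
          = ((grp (rS (RZ A s σ)) (X (i, b))).flatMap id).flatMap (mor (zL A s σ lam')) := by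
            rw [← h1]
        _ = _ := by rw [List.flatMap_assoc]; rfl
    have hright : (E' i b).flatMap (mor ψ) = (grp (rS (RZ A s σ)) (X (i, b))).flatMap
        (fun G => (codeS A.bar (G.flatMap (mor (zL A s σ (plen s σ))))).flatMap (mor ψ)) := by
      rw [e0, List.flatMap_assoc]
    rw [e1, hflat, hright]
    apply List.flatMap_congr
    intro G hG
    rcases shape_of_mem _ _ G hG with ⟨x, rfl⟩ | ⟨g, hg, rfl, hc⟩
    · simp [mor, codeS]
    · obtain ⟨c, hc1, hc2, hc3⟩ := hgrp (i, b) g hg hG hc
      have hvisc : ∀ u ∈ code A.bar (chn s c (lenG (plen s σ) g)), vis u := by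
        intro u hu
        refine ⟨i, b, Or.inl ?_⟩
        rw [e0, List.mem_flatMap]
        refine ⟨_, hG, ?_⟩
        rw [flatMap_mor_map_inl, hc1 _ (adm_plen s σ), codeS_inl]
        exact List.mem_map.mpr ⟨u, hu, rfl⟩
      rw [flatMap_mor_map_inl, flatMap_mor_map_inl, hc1 _ (adm_plen s σ), hc1 _ hadm, codeS_inl,
        flatMap_mor_map_inl]
      congr 1
      set ℓ := lenG (plen s σ) g with hℓ
      have hFℓ : F ℓ = lenG lam' g := hF g hc3
      rw [← hFℓ]
      unfold code at hvisc ⊢
      by_cases hsd : barL A.bar (chn s c ℓ) = chn s c ℓ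
      · rw [if_pos hsd] at hvisc ⊢
        obtain ⟨hcs, hev⟩ := selfdual_chn A.bar s A.bar_bar A.bar_ne hs hfs c ℓ hc2 hsd
        set h : Tok Γ := ⟨(chn s c ℓ).take ((chn s c ℓ).length / 2), true, false⟩ with hh
        have hvh : vis h := hvisc h (by simp)
        have hw : h.w = chn s c (ℓ / 2) := by
          simp only [hh, length_chn]
          exact take_chn s c _ _ (Nat.div_le_self _ _)
        have hl2' : 1 ≤ ℓ / 2 := by omega
        have hψh : ψ h = chn s c (nw h) := hψvis h c (ℓ / 2) hvh hl2' hw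
        have hψb : ψ (barT A.bar h) = barL A.bar (ψ h) := hψbar h
        have h2nw := (hnwfact h (hvisTF h hvh)).2.2 rfl
        have hwl : 2 * h.w.length = ℓ := by rw [hw, length_chn]; omega
        rw [hwl] at h2nw
        simp only [List.flatMap_cons, List.flatMap_nil, List.append_nil]
        rw [hψb, hψh, double_chn A.bar s A.bar_bar hs hfs c _ hcs, ← h2nw]
        congr 1
        omega
      · rw [if_neg hsd] at hvisc ⊢
        have hvh := hvisc ⟨chn s c ℓ, false, false⟩ (by simp)
        simp only [List.flatMap_cons, List.flatMap_nil, List.append_nil]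
        rw [hψvis _ c ℓ hvh hc2 rfl]
        simp [hnw]

end ChainStep

end Pool.Agent.helper13.WE
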