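import Pool.Agent.helper13.WE.Dbl

/-!
# The monoid `⟨b, c | bcbc = 1⟩`: normal forms and the product relation
-/

namespace Pool.Agent.helper13.WE

/-- The defining relation `bcbc = 1`; the generator `b` is `false`, the generator `c` is `true`. -/
def relM : FreeMonoid Bool → FreeMonoid Bool → Prop := fun x y =>
  x = FreeMonoid.of false * FreeMonoid.of true * FreeMonoid.of false * FreeMonoid.of true ∧ y = 1

/-- The monoid `⟨b, c | bcbc = 1⟩`. -/
abbrev MM := PresentedMonoid relM

/-- The generators. -/
def gM (x : Bool) : MM := PresentedMonoid.of relM x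

theorem gM_rel : gM false * gM true * gM false * gM true = 1 := by
  have h := PresentedMonoid.mk_eq_mk_of_rel (rels := relM)
    (x := FreeMonoid.of false * FreeMonoid.of true * FreeMonoid.of false * FreeMonoid.of true)
    (y := 1) ⟨rfl, rfl⟩
  simp only [map_mul, map_one] at h
  exact h

/-- Letters of the normal forms. -/
inductive L3 | a | b | u
  deriving DecidableEq

/-- Values of the letters. -/
def g3 : L3 → MM
  | L3.a => gM false
  | L3.b => gM true * gM false * gM true
  | L3.u => gM false * gM true

theorem g3_ab : g3 L3.a * g3 L3.b = 1 := by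
  have := gM_rel
  simp only [g3]
  simpa [mul_assoc] using this

theorem g3_uu : g3 L3.u * g3 L3.u = 1 := by
  have := gM_rel
  simp only [g3]
  simpa [mul_assoc] using this

theorem gM_c : gM true = g3 L3.b * g3 L3.u := by
  have h := gM_rel
  simp only [g3]
  calc gM true = gM true * (gM false * gM true * gM false * gM true) := by rw [h, mul_one]
    _ = _ := by simp only [mul_assoc]

/-- The bar on letters. -/
def bar3 : L3 → L3
  | L3.a => L3.b
  | L3.b => L3.a
  | L3.u => L3.u

theorem bar3_bar3 (c : L3) : bar3 (bar3 c) = c := by cases c <;> rfl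

theorem g3_bar (c : L3) (hc : c ≠ L3.b) : g3 c * g3 (bar3 c) = 1 := by
  cases c
  · exact g3_ab
  · exact absurd rfl hc
  · exact g3_uu

/-- Value of a word. -/
def ph (w : List L3) : MM := (w.map g3).prod

theorem ph_append (v w : List L3) : ph (v ++ w) = ph v * ph w := by simp [ph]

theorem ph_cons (c : L3) (w : List L3) : ph (c :: w) = g3 c * ph w := by simp [ph]

theorem ph_bar (P : List L3) (hP : ∀ c ∈ P, c ≠ L3.b) : ph P * ph (barL bar3 P) = 1 := by
  induction P using List.reverseRecOn with
  | nil => simp [ph]
  | append_singleton P c ih =>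
    have h1 := ih (fun d hd => hP d (by simp [hd]))
    have h2 := g3_bar c (hP c (by simp))
    rw [barL_append, ph_append, ph_append]
    have e1 : ph [c] = g3 c := by simp [ph]
    have e2 : ph (barL bar3 [c]) = g3 (bar3 c) := by simp [ph, barL]
    rw [e1, e2]
    calc ph P * g3 c * (g3 (bar3 c) * ph (barL bar3 P))
        = ph P * (g3 c * g3 (bar3 c)) * ph (barL bar3 P) := by simp only [mul_assoc]
      _ = 1 := by rw [h2, mul_one, h1]

/-- Cancelling pairs. -/
def canc (c d : L3) : Prop := d = bar3 c ∧ c ≠ L3.b

/-- Reduced words. -/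
def Red (w : List L3) : Prop := w.IsChain (fun c d => ¬ canc c d)

theorem red_mul (x : List L3) : ∀ y, Red x → Red y → ∃ A P B, x = A ++ P ∧ y = barL bar3 P ++ B ∧
    (∀ c ∈ P, c ≠ L3.b) ∧ Red (A ++ B) := by
  induction x using List.reverseRecOn with
  | nil =>
    intro y _ hy
    exact ⟨[], [], y, rfl, by simp, by simp, hy⟩
  | append_singleton x c ih =>
    intro y hx hy
    cases y with
    | nil => exact ⟨x ++ [c], [], [], by simp, by simp, by simp, by simpa using hx⟩
    | cons d y =>
      by_cases hcd : canc c d
      · obtain ⟨A, P, B, h1, h2, h3, h4⟩ := ih y hx.left_of_append hy.tail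
        refine ⟨A, P ++ [c], B, ?_, ?_, ?_, h4⟩
        · rw [h1, List.append_assoc]
        · rw [barL_append, h2, hcd.1]
          simp [barL]
        · intro e he
          rcases List.mem_append.mp he with he | he
          · exact h3 e he
          · simp only [List.mem_singleton] at he
            subst he
            exact hcd.2
      · refine ⟨x ++ [c], [], d :: y, by simp, by simp, by simp, ?_⟩
        unfold Red
        rw [List.isChain_append]
        refine ⟨hx, hy, ?_⟩
        intro e he e' he'
        simp only [List.getLast?_append, List.getLast?_singleton, Option.some_or,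
          Option.mem_def, Option.some_inj] at he
        simp only [List.head?_cons, Option.mem_def, Option.some_inj] at he'
        subst he; subst he'
        exact hcd

/-- Every element has a reduced representative. -/
theorem exists_red (m : MM) : ∃ w, Red w ∧ ph w = m := by
  obtain ⟨x, rfl⟩ := PresentedMonoid.surjective_mk m
  have hmul : ∀ v w, Red v → Red w → ∃ t, Red t ∧ ph t = ph v * ph w := by
    intro v w hv hw
    obtain ⟨A, P, B, rfl, rfl, h3, h4⟩ := red_mul v w hv hw
    refine ⟨A ++ B, h4, ?_⟩
    rw [ph_append, ph_append, ph_append]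
    calc ph A * ph B = ph A * 1 * ph B := by rw [mul_one]
      _ = ph A * (ph P * ph (barL bar3 P)) * ph B := by rw [ph_bar P h3]
      _ = _ := by simp only [mul_assoc]
  induction x using FreeMonoid.inductionOn' with
  | one => exact ⟨[], by simp [Red], by simp [ph]⟩
  | of_mul x xs ih =>
    obtain ⟨w, hw, he⟩ := ih
    have hx : ∃ v, Red v ∧ ph v = gM x := by
      cases x
      · exact ⟨[L3.a], by simp [Red], by simp [ph, g3]⟩
      · refine ⟨[L3.b, L3.u], by simp [Red, canc], ?_⟩
        rw [gM_c]; simp [ph]
    obtain ⟨v, hv, hve⟩ := hx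
    obtain ⟨t, ht, hte⟩ := hmul v w hv hw
    refine ⟨t, ht, ?_⟩
    rw [hte, hve, he, map_mul]
    rfl

/-! ### The stack machine -/

/-- Stacks. -/
abbrev Stk := Bool × List (Bool × Bool)

/-- Multiplication by `u`. -/
def pU (s : Stk) : Stk := (!s.1, s.2)

/-- Multiplication by `b'`. -/
def pB (s : Stk) : Stk := (false, (true, s.1) :: s.2)

/-- Multiplication by `a`. -/
def pA (s : Stk) : Stk :=
  if s.1 = false ∧ s.2.head?.map Prod.fst = some true then
    ((s.2.head?.map Prod.snd).getD false, s.2.tail) else (false, (false, s.1) :: s.2)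

theorem pU_pU (s : Stk) : pU (pU s) = s := by simp [pU]

theorem pA_pB (s : Stk) : pA (pB s) = s := by simp [pA, pB]

/-- Multiplication by the generators. -/
def actM (x : Bool) (s : Stk) : Stk := if x then pB (pU s) else pA s

/-- Multiplication by the generators. -/
def actE (x : Bool) : Function.End Stk := actM x

theorem actE_rel (x y : FreeMonoid Bool) (h : relM x y) :
    FreeMonoid.lift actE x = FreeMonoid.lift actE y := by
  obtain ⟨rfl, rfl⟩ := h
  simp only [map_mul, FreeMonoid.lift_eval_of, map_one]
  funext s
  change pA (pB (pU (pA (pB (pU s))))) = s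
  rw [pA_pB, pA_pB, pU_pU]

/-- The action of the monoid on stacks. -/
def homM : MM →* Function.End Stk := PresentedMonoid.lift actE actE_rel

theorem homM_gM (x : Bool) : homM (gM x) = actE x := PresentedMonoid.lift_of _ _

theorem homM_a (s : Stk) : homM (g3 L3.a) s = pA s := by
  simp only [g3, homM_gM]
  rfl

theorem homM_u (s : Stk) : homM (g3 L3.u) s = pU s := by
  simp only [g3, map_mul, homM_gM]
  change pA (pB (pU s)) = _
  rw [pA_pB]

theorem homM_b (s : Stk) : homM (g3 L3.b) s = pB s := by
  simp only [g3, map_mul, homM_gM]
  change pB (pU (pA (pB (pU s)))) = _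
  rw [pA_pB, pU_pU]

/-- Multiplication by letters. -/
def p3 : L3 → Stk → Stk
  | L3.a => pA
  | L3.b => pB
  | L3.u => pU

theorem homM_g3 (c : L3) (s : Stk) : homM (g3 c) s = p3 c s := by
  cases c
  · exact homM_a s
  · exact homM_b s
  · exact homM_u s

/-- Empty stack. -/
def s0 : Stk := (false, [])

theorem homM_ph (w : List L3) : homM (ph w) s0 = w.foldr p3 s0 := by
  induction w with
  | nil =>
    have : ph [] = 1 := rfl
    rw [this, map_one]
    rfl
  | cons c w ih =>
    rw [ph_cons, map_mul]
    change homM (g3 c) (homM (ph w) s0) = _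
    rw [ih, homM_g3]
    rfl

/-- The word `u` or the empty word. -/
def uW (e : Bool) : List L3 := if e then [L3.u] else []

/-- The word of a stack. -/
def wrd (s : Stk) : List L3 :=
  uW s.1 ++ s.2.flatMap (fun p => (if p.1 then L3.b else L3.a) :: uW p.2)

theorem wrd_red (w : List L3) (hw : Red w) : wrd (w.foldr p3 s0) = w := by
  induction w with
  | nil => rfl
  | cons c w ih =>
    have h1 := ih hw.tail
    rw [List.foldr_cons]
    generalize w.foldr p3 s0 = s at h1
    obtain ⟨e, l⟩ := s
    have hnc : ∀ d ∈ w.head?, ¬ canc c d := by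
      intro d hd
      cases w with
      | nil => simp at hd
      | cons d' w' =>
        simp only [List.head?_cons, Option.mem_def, Option.some_inj] at hd
        subst hd
        exact hw.rel
    cases c with
    | a =>
      simp only [p3, pA]
      rw [if_neg]
      · rw [← h1]
        simp [wrd, uW]
      · rintro ⟨h2, h3⟩
        subst h2
        cases l with
        | nil => simp at h3
        | cons p l =>
          simp only [List.head?_cons, Option.map_some, Option.some_inj] at h3
          apply hnc L3.b _ ⟨rfl, by simp⟩
          rw [← h1]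
          simp [wrd, uW, h3]
    | b =>
      simp only [p3, pB]
      rw [← h1]
      simp [wrd, uW]
    | u =>
      simp only [p3, pU]
      cases e with
      | false =>
        rw [← h1]
        simp [wrd, uW]
      | true =>
        exfalso
        apply hnc L3.u _ ⟨rfl, by simp⟩
        rw [← h1]
        simp [wrd, uW]

theorem ph_inj (v w : List L3) (hv : Red v) (hw : Red w) (h : ph v = ph w) : v = w := by
  rw [← wrd_red v hv, ← wrd_red w hw, ← homM_ph, ← homM_ph, h]

/-! ### The word problem -/

/-- Stack of a word over the generators. -/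
def nf (w : List Bool) : Stk := w.foldr actM s0

/-- Value of a word over the generators. -/
def val (w : List Bool) : MM := (w.map gM).prod

theorem homM_val (w : List Bool) : homM (val w) s0 = nf w := by
  induction w with
  | nil =>
    have : val [] = 1 := rfl
    rw [this, map_one]
    rfl
  | cons x w ih =>
    have : val (x :: w) = gM x * val w := by simp [val]
    rw [this, map_mul]
    change homM (gM x) (homM (val w) s0) = _
    rw [ih, homM_gM]
    rfl

theorem ph_wrd_pA (s : Stk) : ph (wrd (pA s)) = g3 L3.a * ph (wrd s) := by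
  obtain ⟨e, l⟩ := s
  unfold pA
  split
  · rename_i h
    obtain ⟨h1, h2⟩ := h
    simp only at h1 h2
    subst h1
    cases l with
    | nil => simp at h2
    | cons p l =>
      obtain ⟨x, e⟩ := p
      simp only [List.head?_cons, Option.map_some, Option.some_inj] at h2
      subst h2
      simp only [List.head?_cons, Option.map_some, Option.getD_some, List.tail_cons]
      have : wrd (false, (true, e) :: l) = L3.b :: wrd (e, l) := by simp [wrd, uW]
      rw [this, ph_cons, ← mul_assoc, g3_ab, one_mul]
  · have : wrd (false, (false, e) :: l) = L3.a :: wrd (e, l) := by simp [wrd, uW]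
    rw [this, ph_cons]

theorem ph_wrd_pB (s : Stk) : ph (wrd (pB s)) = g3 L3.b * ph (wrd s) := by
  obtain ⟨e, l⟩ := s
  have : wrd (pB (e, l)) = L3.b :: wrd (e, l) := by simp [wrd, uW, pB]
  rw [this, ph_cons]

theorem ph_wrd_pU (s : Stk) : ph (wrd (pU s)) = g3 L3.u * ph (wrd s) := by
  obtain ⟨e, l⟩ := s
  cases e with
  | false =>
    have : wrd (pU (false, l)) = L3.u :: wrd (false, l) := by simp [wrd, uW, pU]
    rw [this, ph_cons]
  | true =>
    have : wrd (true, l) = L3.u :: wrd (pU (true, l)) := by simp [wrd, uW, pU]
    rw [this, ph_cons, ← mul_assoc, g3_uu, one_mul]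

theorem ph_wrd_nf (w : List Bool) : ph (wrd (nf w)) = val w := by
  induction w with
  | nil => simp [nf, s0, wrd, uW, ph, val]
  | cons x w ih =>
    have e1 : val (x :: w) = gM x * val w := by simp [val]
    have e2 : nf (x :: w) = actM x (nf w) := rfl
    rw [e1, e2, ← ih]
    cases x with
    | false =>
      change ph (wrd (pA (nf w))) = _
      rw [ph_wrd_pA]; rfl
    | true =>
      change ph (wrd (pB (pU (nf w)))) = _
      rw [ph_wrd_pB, ph_wrd_pU, gM_c, mul_assoc]

theorem nf_iff (v w : List Bool) : nf v = nf w ↔ val v = val w := by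
  constructor
  · intro h
    rw [← ph_wrd_nf, ← ph_wrd_nf, h]
  · intro h
    rw [← homM_val, ← homM_val, h]

end Pool.Agent.helper13.WE
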