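import Pool.Agent.helper13.WE.Size

/-!
# Pair compression, orientations, and the shape of compressed words
-/

namespace Pool.Agent.helper13.WE

open Classical

variable {Q : Type*} [Monoid Q] [StarMul Q] {Γ Δ V I : Type*}

/-! ### Words of tokens -/

theorem mem_chn (s : Γ → Γ) (hs : ∀ c, s (s c) = c) (a : Γ) (n : ℕ) (c : Γ)
    (hc : c ∈ chn s a n) : c = a ∨ c = s a := by
  induction n generalizing a with
  | zero => simp [chn] at hc
  | succ n ih =>
    simp only [chn, List.mem_cons] at hc
    rcases hc with h | h
    · exact Or.inl h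
    · rcases ih (s a) h with h | h
      · exact Or.inr h
      · rw [hs] at h; exact Or.inl h

theorem chain_class (s : Γ → Γ) (hs : ∀ c, s (s c) = c) (g : List Γ) (hg : g.IsChain (rs s))
    (c d : Γ) (hc : c ∈ g) (hd : d ∈ g) : d = c ∨ d = s c := by
  cases g with
  | nil => simp at hc
  | cons a g =>
    have h := eq_chn s a g hg
    rw [h] at hc hd
    rcases mem_chn s hs a _ c hc with h1 | h1 <;> rcases mem_chn s hs a _ d hd with h2 | h2
    · exact Or.inl (h2.trans h1.symm)
    · right; rw [h2, h1]
    · right; rw [h2, h1, hs]
    · exact Or.inl (h2.trans h1.symm)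

theorem mem_code_letters (f : Γ → Γ) (g : List Γ) (u : Tok Γ) (hu : u ∈ code f g) (c : Γ)
    (hc : c ∈ u.w) : c ∈ g ∨ ∃ d ∈ g, c = f d := by
  unfold code at hu
  split at hu
  · simp only [List.mem_cons, List.not_mem_nil, or_false] at hu
    rcases hu with rfl | rfl
    · left; exact List.mem_of_mem_take hc
    · right
      simp only [barT_w, barL, List.mem_reverse, List.mem_map] at hc
      obtain ⟨d, hd, rfl⟩ := hc
      exact ⟨d, List.mem_of_mem_take hd, rfl⟩
  · simp only [List.mem_singleton] at hu
    subst hu
    left; exact hc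

theorem code_w_ne_nil (f : Γ → Γ) (hne : ∀ c, f c ≠ c) (g : List Γ) (hg : g ≠ []) (u : Tok Γ)
    (hu : u ∈ code f g) : u.w ≠ [] := by
  unfold code at hu
  split at hu
  · rename_i hsd
    have hlen : 2 ≤ g.length := by
      match g, hg, hsd with
      | [a], _, hsd => simp [barL] at hsd; exact absurd hsd (hne a)
      | a :: b :: g, _, _ => simp
    have h2 : g.take (g.length / 2) ≠ [] := by
      intro h
      have := congrArg List.length h
      rw [List.length_take, List.length_nil] at this
      omega
    simp only [List.mem_cons, List.not_mem_nil, or_false] at hu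
    rcases hu with rfl | rfl
    · exact h2
    · simp only [barT_w, ne_eq, barL_eq_nil]; exact h2
  · simp only [List.mem_singleton] at hu
    subst hu; exact hg

/-- Adjacent tokens after block compression are different. -/
theorem tok_id_chain (f : Γ → Γ) (hf : ∀ c, f (f c) = c) (hne : ∀ c, f c ≠ c) (w : List Γ) :
    (tok f (rs id) w).IsChain (fun x y => y ≠ x) := by
  have hcode : ∀ g : List Γ, g ≠ [] → g.IsChain (rs id) → code f g = [⟨g, false, false⟩] := by
    intro g hg hc
    obtain ⟨a, g', rfl⟩ := List.exists_cons_of_ne_nil hg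
    have h := eq_chn id a g' hc
    unfold code
    rw [if_neg]
    intro hsd
    rw [h] at hsd
    have := (selfdual_chn f id hf hne (fun _ => rfl) (fun _ => rfl) a _ (by omega) hsd).1
    exact hne a this
  have key : ∀ gs : List (List Γ), Valid (rs id) gs →
      (gs.flatMap (code f)).IsChain (fun x y => y ≠ x) := by
    intro gs
    induction gs with
    | nil => intro _; simp
    | cons g gs ih =>
      intro h
      rw [List.flatMap_cons, hcode g h.1 h.2.1, List.isChain_append]
      refine ⟨by simp, ih h.2.2.2, ?_⟩
      intro x hx y hy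
      simp only [List.getLast?_singleton, Option.mem_def, Option.some_inj] at hx
      subst hx
      cases gs with
      | nil => simp at hy
      | cons h' gs' =>
        have h2 := h.2.2.2
        rw [List.flatMap_cons, hcode h' h2.1 h2.2.1] at hy
        simp only [List.cons_append, List.nil_append, List.head?_cons, Option.mem_def,
          Option.some_inj] at hy
        subst hy
        intro he
        have he' : h' = g := congrArg Tok.w he
        subst he'
        have hb := h.2.2.1
        obtain ⟨a, g', hag⟩ := List.exists_cons_of_ne_nil h.1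
        have hlast : ∃ x, x ∈ h'.getLast? := ⟨h'.getLast h.1, List.getLast?_eq_getLast_of_ne_nil h.1⟩
        obtain ⟨x, hx⟩ := hlast
        have hxm : x ∈ h' := List.mem_of_mem_getLast? hx
        have hy : a ∈ (h' :: gs').flatten.head? := by rw [hag]; simp
        apply hb x hx a hy
        have := chain_class id (fun _ => rfl) h' h.2.1 x a hxm (by rw [hag]; simp)
        rcases this with h | h
        · exact h
        · exact h
  exact key _ (grp_valid _ w)

/-- No two consecutive bad pairs. -/
def P3 {β : Type*} (bad : β → β → Prop) : List β → Prop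
  | x :: y :: z :: l => ¬ (bad x y ∧ bad y z) ∧ P3 bad (y :: z :: l)
  | _ => True

theorem P3.tail {β : Type*} {bad : β → β → Prop} {x : β} {l : List β} (h : P3 bad (x :: l)) :
    P3 bad l := by
  match l, h with
  | [], _ => trivial
  | [y], _ => trivial
  | y :: z :: l, h => exact h.2

theorem P3.inf3 {β : Type*} {bad : β → β → Prop} {l : List β} (h : P3 bad l) (x y z : β)
    (hi : [x, y, z] <:+: l) : ¬ (bad x y ∧ bad y z) := by
  obtain ⟨l1, l2, rfl⟩ := hi
  induction l1 with
  | nil => exact h.1
  | cons a l1 ih => exact ih (by simpa using P3.tail h)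

theorem P3.cons {β : Type*} {bad : β → β → Prop} {x : β} {l : List β} (h : P3 bad l)
    (hb : ∀ y ∈ l.head?, ¬ bad x y) : P3 bad (x :: l) := by
  match l, h, hb with
  | [], _, _ => trivial
  | [y], _, _ => trivial
  | y :: z :: l, h, hb => exact ⟨fun h' => hb y (by simp) h'.1, h⟩

theorem P3.cons2 {β : Type*} {bad : β → β → Prop} {x x' : β} {l : List β} (h : P3 bad l)
    (hb : ∀ y ∈ l.head?, ¬ bad x' y) : P3 bad (x :: x' :: l) := by
  match l, h, hb with
  | [], _, _ => trivial
  | y :: l, h, hb => exact ⟨fun h' => hb y (by simp) h'.2, P3.cons h hb⟩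

/-- Bad pairs of letters. -/
def Bad (f : Γ → Γ) (x y : Γ) : Prop := y = x ∨ y = f x

theorem tok_bar_P3 (f : Γ → Γ) (hf : ∀ c, f (f c) = c) (hne : ∀ c, f c ≠ c) (w : List Γ)
    (hw : w.IsChain (fun x y => y ≠ x)) : P3 (Bad (barT f)) (tok f (rs f) w) := by
  have key : ∀ gs : List (List Γ), Valid (rs f) gs → gs.flatten.IsChain (fun x y => y ≠ x) →
      P3 (Bad (barT f)) (gs.flatMap (code f)) := by
    intro gs
    induction gs with
    | nil => intro _ _; trivial
    | cons g gs ih =>
      intro h hc
      rw [List.flatten_cons] at hc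
      have ih' := ih h.2.2.2 hc.right_of_append
      have hbd : ∀ x ∈ code f g, ∀ y ∈ (gs.flatMap (code f)).head?, ¬ Bad (barT f) x y := by
        intro x hx y hy
        cases gs with
        | nil => simp at hy
        | cons h' gs' =>
          have h2 := h.2.2.2
          rw [List.flatMap_cons, List.head?_append_of_ne_nil _ (code_ne_nil f h')] at hy
          have hy' : y ∈ code f h' := List.mem_of_mem_head? hy
          have hyw := code_w_ne_nil f hne h' h2.1 y hy'
          obtain ⟨c, hcy⟩ := List.exists_mem_of_ne_nil _ hyw
          -- letters of adjacent groups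
          obtain ⟨t, ht⟩ : ∃ t, t ∈ g.getLast? := ⟨g.getLast h.1, List.getLast?_eq_getLast_of_ne_nil h.1⟩
          obtain ⟨t', ht'⟩ : ∃ t', t' ∈ h'.head? := by
            obtain ⟨a, l, hal⟩ := List.exists_cons_of_ne_nil h2.1
            exact ⟨a, by rw [hal]; rfl⟩
          have ht'2 : t' ∈ (h' :: gs').flatten.head? := by
            rw [List.flatten_cons, List.head?_append_of_ne_nil _ h2.1]; exact ht'
          have htg := List.mem_of_mem_getLast? ht
          have hth := List.mem_of_mem_head? ht'
          have n1 : ¬ t' = f t := h.2.2.1 t ht t' ht'2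
          have n2 : t' ≠ t := by
            rw [List.isChain_append] at hc
            exact hc.2.2 t ht t' ht'2
          -- class of c from y
          have cy : c = t' ∨ c = f t' := by
            rcases mem_code_letters f h' y hy' c hcy with h3 | ⟨d, hd, rfl⟩
            · exact chain_class f hf h' h2.2.1 t' c hth h3
            · rcases chain_class f hf h' h2.2.1 t' d hth hd with rfl | rfl
              · exact Or.inr rfl
              · left; exact hf _
          have cx : ∀ c', c' ∈ x.w → c' = t ∨ c' = f t := by
            intro c' hc'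
            rcases mem_code_letters f g x hx c' hc' with h3 | ⟨d, hd, rfl⟩
            · exact chain_class f hf g h.2.1 t c' htg h3
            · rcases chain_class f hf g h.2.1 t d htg hd with rfl | rfl
              · exact Or.inr rfl
              · left; exact hf _
          have fin : c = t ∨ c = f t → False := by
            intro hct
            rcases cy with rfl | rfl <;> rcases hct with h3 | h3
            · exact n2 h3
            · exact n1 h3
            · apply n1
              rw [← h3, hf]
            · apply n2
              have := congrArg f h3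
              rwa [hf, hf] at this
          rintro (rfl | rfl)
          · exact fin (cx c hcy)
          · rw [barT_w, barL, List.mem_reverse, List.mem_map] at hcy
            obtain ⟨d, hd, rfl⟩ := hcy
            apply fin
            rcases cx d hd with rfl | rfl
            · exact Or.inr rfl
            · left; exact hf _
      rw [List.flatMap_cons]
      unfold code at hbd ⊢
      split
      · rename_i hsd
        rw [if_pos hsd] at hbd
        exact P3.cons2 ih' (hbd _ (by simp))
      · rename_i hsd
        rw [if_neg hsd] at hbd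
        exact P3.cons ih' (hbd _ (by simp))
  exact key _ (grp_valid _ w) (by rw [grp_flatten]; exact hw)

theorem infix_ev (f : Γ → Γ) (σ : V → List Γ) (W : List (Sym Γ V)) (x y z : Γ)
    (h : [Sum.inl x, Sum.inl y, Sum.inl z] <:+: W) : [x, y, z] <:+: ev f σ W := by
  obtain ⟨l1, l2, rfl⟩ := h
  refine ⟨ev f σ l1, ev f σ l2, ?_⟩
  simp [ev, evs]

/-! ### Orientations -/

theorem exists_orient (f : Γ → Γ) (hf : ∀ c, f (f c) = c) (hne : ∀ c, f c ≠ c) :
    ∃ o : Γ → Bool, ∀ c, o (f c) = !o c := by
  refine ⟨fun t => decide (WellOrderingRel t (f t)), ?_⟩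
  intro t
  have htri := trichotomous_of (WellOrderingRel (α := Γ)) t (f t)
  by_cases h : WellOrderingRel t (f t)
  · have h' : ¬ WellOrderingRel (f t) t := fun h2 => asymm_of (WellOrderingRel (α := Γ)) h h2
    simp [hf, h, h']
  · have h' : WellOrderingRel (f t) t := by
      rcases htri with h1 | h1 | h1
      · exact absurd h1 h
      · exact absurd h1.symm (hne t)
      · exact h1
    simp [hf, h, h']

theorem countP_split {α : Type*} (L : List α) (p q : α → Bool) :
    L.countP p = (L.filter q).countP p + (L.filter (fun x => !q x)).countP p := by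
  induction L with
  | nil => rfl
  | cons a L ih =>
    by_cases hq : q a = true
    · have hq' : ¬ (!q a) = true := by simp [hq]
      rw [List.filter_cons_of_pos hq, List.filter_cons_of_neg (p := fun x => !q x) hq']
      by_cases hp : p a = true
      · rw [List.countP_cons_of_pos hp, List.countP_cons_of_pos hp, ih]; omega
      · rw [List.countP_cons_of_neg hp, List.countP_cons_of_neg hp, ih]
    · have hq' : (!q a) = true := by simp [hq]
      rw [List.filter_cons_of_neg hq, List.filter_cons_of_pos (p := fun x => !q x) hq']
      by_cases hp : p a = true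
      · rw [List.countP_cons_of_pos hp, List.countP_cons_of_pos hp, ih]; omega
      · rw [List.countP_cons_of_neg hp, List.countP_cons_of_neg hp, ih]

/-- Cut lemma: some orientation separates at least half of the pairs. -/
theorem exists_cut (f : Γ → Γ) (hf : ∀ c, f (f c) = c) (hne : ∀ c, f c ≠ c)
    (rep : Γ → Γ) (hrep : ∀ c, rep (f c) = rep c) (K : Finset Γ) :
    ∀ L : List (Γ × Γ), (∀ p ∈ L, rep p.1 ∈ K ∧ rep p.2 ∈ K ∧ rep p.1 ≠ rep p.2) →
    ∃ o : Γ → Bool, (∀ c, o (f c) = !o c) ∧ L.length ≤ 2 * L.countP (fun p => o p.1 != o p.2) := by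
  induction K using Finset.induction with
  | empty =>
    intro L hL
    have : L = [] := by
      cases L with
      | nil => rfl
      | cons p L => exact absurd (hL p (by simp)).1 (by simp)
    subst this
    obtain ⟨o, ho⟩ := exists_orient f hf hne
    exact ⟨o, ho, by simp⟩
  | insert k K hk ih =>
    intro L hL
    set q : Γ × Γ → Bool := fun p => decide (rep p.1 = k ∨ rep p.2 = k) with hq
    obtain ⟨o, ho, hcut⟩ := ih (L.filter (fun x => !q x)) (by
      intro p hp
      rw [List.mem_filter] at hp
      obtain ⟨h1, h2, h3⟩ := hL p hp.1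
      have h4 : ¬ (rep p.1 = k ∨ rep p.2 = k) := by simpa [hq] using hp.2
      push Not at h4
      exact ⟨Finset.mem_of_mem_insert_of_ne h1 h4.1, Finset.mem_of_mem_insert_of_ne h2 h4.2, h3⟩)
    set o' : Γ → Bool := fun c => if rep c = k then !o c else o c with ho'
    have ho'' : ∀ c, o' (f c) = !o' c := by
      intro c
      simp only [ho', hrep, ho]
      split <;> rfl
    have hsame : ∀ p ∈ L.filter (fun x => !q x), (o' p.1 != o' p.2) = (o p.1 != o p.2) := by
      intro p hp
      rw [List.mem_filter] at hp
      have h4 : ¬ (rep p.1 = k ∨ rep p.2 = k) := by simpa [hq] using hp.2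
      push Not at h4
      simp [ho', h4.1, h4.2]
    have hflip : ∀ p ∈ L.filter q, (o' p.1 != o' p.2) = !(o p.1 != o p.2) := by
      intro p hp
      rw [List.mem_filter] at hp
      obtain ⟨h1, h2, h3⟩ := hL p hp.1
      have h4 : (rep p.1 = k ∨ rep p.2 = k) := by simpa [hq] using hp.2
      rcases h4 with h4 | h4
      · have h5 : ¬ rep p.2 = k := fun h => h3 (h4.trans h.symm)
        simp only [ho', if_pos h4, if_neg h5]
        cases o p.1 <;> cases o p.2 <;> rfl
      · have h5 : ¬ rep p.1 = k := fun h => h3 (h.trans h4.symm)
        simp only [ho', if_pos h4, if_neg h5]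
        cases o p.1 <;> cases o p.2 <;> rfl
    have e1 := countP_split L (fun p => o p.1 != o p.2) q
    have e2 := countP_split L (fun p => o' p.1 != o' p.2) q
    have e3 : (L.filter (fun x => !q x)).countP (fun p => o' p.1 != o' p.2) =
        (L.filter (fun x => !q x)).countP (fun p => o p.1 != o p.2) := by
      apply List.countP_congr
      intro p hp
      rw [hsame p hp]
    have e4 : (L.filter q).countP (fun p => o' p.1 != o' p.2) =
        (L.filter q).countP (fun p => !(o p.1 != o p.2)) := by
      apply List.countP_congr
      intro p hp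
      rw [hflip p hp]
    have e5 : (L.filter q).countP (fun p => o p.1 != o p.2) +
        (L.filter q).countP (fun p => !(o p.1 != o p.2)) = (L.filter q).length := by
      have := List.length_eq_countP_add_countP (fun p : Γ × Γ => o p.1 != o p.2) (l := L.filter q)
      rw [this]
      congr 1
      apply List.countP_congr
      intro p _
      simp
    have e6 : L.length = (L.filter q).length + (L.filter (fun x => !q x)).length := by
      have := countP_split L (fun _ => true) q
      simpa using this
    by_cases hc : (L.filter q).length ≤ 2 * (L.filter q).countP (fun p => o p.1 != o p.2)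
    · exact ⟨o, ho, by omega⟩
    · exact ⟨o', ho'', by omega⟩

theorem exists_dicut (f : Γ → Γ) (hf : ∀ c, f (f c) = c) (hne : ∀ c, f c ≠ c)
    (L : List (Γ × Γ)) (hL : ∀ p ∈ L, ¬ Bad f p.1 p.2) :
    ∃ o : Γ → Bool, (∀ c, o (f c) = !o c) ∧
      L.length ≤ 4 * L.countP (fun p => o p.1 && !o p.2) := by
  set rep : Γ → Γ := fun c => if WellOrderingRel c (f c) then c else f c with hrepdef
  have hcase : ∀ c, rep c = c ∨ rep c = f c := by
    intro c; simp only [hrepdef]; split
    · exact Or.inl rfl
    · exact Or.inr rfl
  have hrep : ∀ c, rep (f c) = rep c := by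
    intro t
    have htri := trichotomous_of (WellOrderingRel (α := Γ)) t (f t)
    by_cases h : WellOrderingRel t (f t)
    · have h' : ¬ WellOrderingRel (f t) t := fun h2 => asymm_of (WellOrderingRel (α := Γ)) h h2
      simp [hrepdef, hf, h, h']
    · have h' : WellOrderingRel (f t) t := by
        rcases htri with h1 | h1 | h1
        · exact absurd h1 h
        · exact absurd h1.symm (hne t)
        · exact h1
      simp [hrepdef, hf, h, h']
  have hdiff : ∀ p ∈ L, rep p.1 ≠ rep p.2 := by
    intro p hp h
    apply hL p hp
    unfold Bad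
    rcases hcase p.1 with h1 | h1 <;> rcases hcase p.2 with h2 | h2 <;> rw [h1, h2] at h
    · exact Or.inl h.symm
    · right
      rw [h, hf]
    · exact Or.inr h.symm
    · left
      have := congrArg f h
      rw [hf, hf] at this
      exact this.symm
  obtain ⟨o, ho, hcut⟩ := exists_cut f hf hne rep hrep
    ((L.map (fun p => rep p.1) ++ L.map (fun p => rep p.2)).toFinset) L (by
      intro p hp
      refine ⟨?_, ?_, hdiff p hp⟩
      · simp only [List.mem_toFinset, List.mem_append, List.mem_map]
        exact Or.inl ⟨p, hp, rfl⟩
      · simp only [List.mem_toFinset, List.mem_append, List.mem_map]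
        exact Or.inr ⟨p, hp, rfl⟩)
  have hsplit : L.countP (fun p => o p.1 != o p.2) = L.countP (fun p => o p.1 && !o p.2) +
      L.countP (fun p => !o p.1 && !(!o p.2)) := by
    clear hcut hdiff hL
    induction L with
    | nil => rfl
    | cons p L ih =>
      simp only [List.countP_cons, ih]
      cases o p.1 <;> cases o p.2 <;> simp <;> omega
  by_cases hc : L.length ≤ 4 * L.countP (fun p => o p.1 && !o p.2)
  · exact ⟨o, ho, hc⟩
  · refine ⟨fun c => !o c, fun c => by simp [ho], ?_⟩
    change L.length ≤ 4 * L.countP (fun p => !o p.1 && !(!o p.2))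
    omega

/-! ### Adjacent pairs of letters -/

/-- The pair formed by two symbols, if both are letters. -/
def pr1 : Sym Γ V → Option (Sym Γ V) → List (Γ × Γ)
  | Sum.inl a, some (Sum.inl b) => [(a, b)]
  | _, _ => []

/-- Adjacent pairs of letters. -/
def apairs : List (Sym Γ V) → List (Γ × Γ)
  | [] => []
  | y :: W => pr1 y W.head? ++ apairs W

theorem prs_eq (r : Γ → Γ → Prop) (W : List (Sym Γ V)) :
    prs r W = (apairs W).countP (fun p => decide (r p.1 p.2)) := by
  induction W with
  | nil => rfl
  | cons y W ih =>
    rw [prs, apairs, List.countP_append, ih]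
    congr 1
    match y, W with
    | Sum.inl a, [] => simp [pr1]
    | Sum.inl a, Sum.inl b :: W => by_cases h : r a b <;> simp [rS, pr1, h]
    | Sum.inl a, Sum.inr x :: W => simp [rS, pr1]
    | Sum.inr x, W =>
      rw [if_neg]
      · simp [pr1]
      · rintro ⟨z, _, hz⟩
        cases z <;> exact hz

/-- The relation of pair compression. -/
def rO (f : Γ → Γ) (o : Γ → Bool) : Γ → Γ → Prop := fun x y => o x = true ∧ o y = false ∧ y ≠ f x

theorem rO_sym (f : Γ → Γ) (hf : ∀ c, f (f c) = c) (o : Γ → Bool) (ho : ∀ c, o (f c) = !o c)
    (x y : Γ) : rO f o (f y) (f x) ↔ rO f o x y := by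
  unfold rO
  rw [ho, ho, hf]
  constructor
  · rintro ⟨h1, h2, h3⟩
    exact ⟨by simpa using h2, by simpa using h1, fun h => h3 h.symm⟩
  · rintro ⟨h1, h2, h3⟩
    exact ⟨by simpa using h2, by simpa using h1, fun h => h3 h.symm⟩

theorem rO_chain (f : Γ → Γ) (o : Γ → Bool) (l : List Γ) (hl : l.IsChain (rO f o)) :
    l.length ≤ 2 := by
  match l, hl with
  | [], _ => simp
  | [a], _ => simp
  | [a, b], _ => simp
  | a :: b :: c :: l, hl =>
    exfalso
    have h1 : rO f o a b := hl.rel
    have h2 : rO f o b c := hl.tail.rel
    have := h1.2.1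
    rw [h2.1] at this
    exact absurd this (by simp)

theorem rO_code (f : Γ → Γ) (hne : ∀ c, f c ≠ c) (o : Γ → Bool)
    (l : List Γ) (hne' : l ≠ []) (hl : l.IsChain (rO f o)) : (code f l).length = 1 := by
  unfold code
  rw [if_neg]
  · simp
  · match l, hne', hl with
    | [a], _, _ => simp [barL, hne]
    | [a, b], _, hl =>
      have h1 : rO f o a b := hl.rel
      intro h
      simp [barL] at h
      exact h1.2.2 h.2.symm
    | a :: b :: c :: l, _, hl =>
      have := rO_chain f o _ hl
      simp at this

/-! ### Backward transfer for relations with bounded chains -/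

theorem plain_back (A : Alpha Q Γ) (r : Γ → Γ → Prop) (σ : V → List Γ) (B : ℕ) (hB1 : 1 ≤ B)
    (hB : ∀ l : List Γ, l.IsChain r → l.length ≤ B)
    (alive : Finset V) (q : V → Q) (E : I → Bool → List (Sym Γ V))
    (hne : ∀ v ∈ alive, σ v ≠ []) (hty : ∀ v ∈ alive, A.μL (σ v) = q v) :
    Back A alive q E A.tokA (kp alive (fun v => mid r (σ v) ≠ []))
      (fun v => A.μL (mid r (σ v))) (stepE A.bar r σ E) B (2 * B * alive.card) := by
  obtain ⟨gn, hgn1, hgn2⟩ := exists_gen A.tokA A
  set E' := stepE A.bar r σ E with hE'def
  set vis : Tok Γ → Prop := fun u => ∃ i b, Sum.inl u ∈ E' i b ∨ Sum.inl (barT A.bar u) ∈ E' i b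
    with hvis
  have hvisbar : ∀ u, vis (barT A.bar u) ↔ vis u := by
    intro u
    simp only [hvis, barT_barT A.bar A.bar_bar]
    constructor
    · rintro ⟨i, b, h⟩; exact ⟨i, b, h.symm⟩
    · rintro ⟨i, b, h⟩; exact ⟨i, b, h.symm⟩
  have hvislen : ∀ u, vis u → u.w.length ≤ B := by
    have key : ∀ i b u, Sum.inl u ∈ E' i b → u.w.length ≤ B := by
      intro i b u hu
      rw [hE'def] at hu
      unfold stepE tokS at hu
      obtain ⟨G, hG, hu⟩ := List.mem_flatMap.mp hu
      rcases shape_of_mem _ _ G hG with ⟨x, rfl⟩ | ⟨g, hg, rfl, hc⟩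
      · simp [codeS] at hu
      · rw [codeS_inl] at hu
        obtain ⟨u', hu', he⟩ := List.mem_map.mp hu
        have : u' = u := Sum.inl_injective he
        subst this
        have hgB := hB g hc
        unfold code at hu'
        split at hu'
        · simp only [List.mem_cons, List.not_mem_nil, or_false] at hu'
          rcases hu' with rfl | rfl
          · simp only [List.length_take]; omega
          · simp only [barT_w, length_barL, List.length_take]; omega
        · simp only [List.mem_singleton] at hu'
          subst hu'; exact hgB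
    rintro u ⟨i, b, h | h⟩
    · exact key i b u h
    · have := key i b _ h
      simpa using this
  set ψ : Tok Γ → List Γ := fun u => if vis u then u.w else [gn u] with hψdef
  refine back_of_lift A alive q E A.tokA (fun v => A.μL (mid r (σ v))) E' B
    (fun v => fstG r (σ v)) (fun v => lstG r (σ v)) (fun v => mid r (σ v) ≠ []) ψ
    ?_ ?_ ?_ ?_ ?_ ?_ ?_ ?_ ?_
  · intro u
    change ψ (barT A.bar u) = _
    by_cases hu : vis u
    · simp only [hψdef, if_pos hu, if_pos ((hvisbar u).mpr hu)]
      rfl
    · have hu' : ¬ vis (barT A.bar u) := fun h => hu ((hvisbar u).mp h)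
      simp only [hψdef, if_neg hu, if_neg hu']
      have := hgn1 u
      change gn (barT A.bar u) = _ at this
      rw [this]
      simp [barL]
  · intro u
    by_cases hu : vis u
    · simp only [hψdef, if_pos hu]; rfl
    · simp only [hψdef, if_neg hu]
      rw [Alpha.μL_singleton, hgn2]
  · intro u
    by_cases hu : vis u
    · simp only [hψdef, if_pos hu]; exact hvislen u hu
    · simp only [hψdef, if_neg hu, List.length_singleton]; exact hB1
  · exact fun v hv => hB _ (fstG_chain r (σ v) (hne v hv))
  · exact fun v hv => hB _ (lstG_chain r (σ v) (hne v hv))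
  · exact fun v hv => fstG_ne r (σ v) (hne v hv)
  · intro v hv _
    rw [← hty v hv]
    conv_lhs => rw [← pop_eq r (σ v)]
    rw [Alpha.μL_append, Alpha.μL_append]
  · intro v hv hk
    have hk' : mid r (σ v) = [] := not_not.mp hk
    rw [← hty v hv]
    conv_lhs => rw [← pop_eq r (σ v)]
    rw [hk', List.nil_append, Alpha.μL_append]
  · intro i b
    change (E i b).flatMap (sbG A.bar r σ) = _
    have h1 : (E' i b).flatMap (mor ψ) = (E' i b).flatMap (mor Tok.w) := by
      apply List.flatMap_congr
      intro y hy
      match y, hy with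
      | Sum.inl u, hy =>
        have : vis u := ⟨i, b, Or.inl hy⟩
        simp [mor, hψdef, this]
      | Sum.inr x, _ => rfl
    rw [h1, hE'def]
    unfold stepE
    rw [tokS_flat A.bar A.bar_ne]

end Pool.Agent.helper13.WE
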