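import Pool.Agent.helper13.WE.Pair

/-!
# One phase: block, bar-block and pair compression
-/

namespace Pool.Agent.helper13.WE

open Classical

variable {Q : Type*} [Monoid Q] [StarMul Q] {Γ Δ V I : Type*}

theorem length_code_le_length (f : Γ → Γ) (hne : ∀ c, f c ≠ c) (g : List Γ) (hg : g ≠ []) :
    (code f g).length ≤ g.length := by
  unfold code
  split
  · rename_i hsd
    have hlen : 2 ≤ g.length := by
      match g, hg, hsd with
      | [a], _, hsd => simp [barL] at hsd; exact absurd hsd (hne a)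
      | a :: b :: g, _, _ => simp
    simpa using hlen
  · have := List.length_pos_of_ne_nil hg
    simp only [List.length_singleton]; omega

theorem length_tok_le (f : Γ → Γ) (hne : ∀ c, f c ≠ c) (r : Γ → Γ → Prop) (l : List Γ) :
    (tok f r l).length ≤ l.length := by
  have key : ∀ gs : List (List Γ), (∀ g ∈ gs, g ≠ []) →
      (gs.flatMap (code f)).length ≤ gs.flatten.length := by
    intro gs
    induction gs with
    | nil => intro _; simp
    | cons g gs ih =>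
      intro h
      have h1 := length_code_le_length f hne g (h g (by simp))
      have h2 := ih (fun g' hg' => h g' (by simp [hg']))
      simp only [List.flatMap_cons, List.flatten_cons, List.length_append]
      omega
  have h := key (grp r l) (grp_valid r l).ne_nil
  rwa [grp_flatten] at h

theorem sol_step (A : Alpha Q Γ) (r : Γ → Γ → Prop) (hr : ∀ x y, r (A.bar y) (A.bar x) ↔ r x y)
    (alive : Finset V) (q : V → Q) (E : I → Bool → List (Sym Γ V)) (n : ℕ) (σ : V → List Γ)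
    (h : Sol A alive q E n σ) (hocc : OccIn alive E) :
    ∃ n', n' ≤ n ∧ (alive.Nonempty → n' < n) ∧
      Sol A.tokA (kp alive (fun v => mid r (σ v) ≠ [])) (fun v => A.μL (mid r (σ v)))
        (stepE A.bar r σ E) n' (stepσ A.bar r σ) ∧
      OccIn (kp alive (fun v => mid r (σ v) ≠ [])) (stepE A.bar r σ E) := by
  have hW : ∀ i b v, Occ (E i b) v → σ v ≠ [] := fun i b v hv => h.ne v (hocc i b v hv)
  have hlt : ∀ v ∈ alive, (stepσ A.bar r σ v).length < (σ v).length := by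
    intro v hv
    have h1 := length_tok_le A.bar A.bar_ne r (mid r (σ v))
    have h2 := length_mid_lt r (σ v) (h.ne v hv)
    unfold stepσ
    omega
  have hsub : ∑ v ∈ kp alive (fun v => mid r (σ v) ≠ []), (stepσ A.bar r σ v).length ≤
      ∑ v ∈ alive, (stepσ A.bar r σ v).length := by
    apply Finset.sum_le_sum_of_subset
    intro v hv
    exact ((mem_kp _ _ v).mp hv).1
  refine ⟨∑ v ∈ kp alive (fun v => mid r (σ v) ≠ []), (stepσ A.bar r σ v).length, ?_, ?_,
    ⟨?_, ?_, ?_, rfl⟩, ?_⟩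
  · refine hsub.trans ?_
    rw [← h.len]
    exact Finset.sum_le_sum (fun v hv => (hlt v hv).le)
  · intro hne
    refine lt_of_le_of_lt hsub ?_
    rw [← h.len]
    exact Finset.sum_lt_sum_of_nonempty hne hlt
  · exact step_solves A.bar r σ A.bar_bar hr E hW h.solves
  · intro v hv
    rw [mem_kp] at hv
    exact tok_ne_nil _ _ _ hv.2
  · intro v _
    exact μL_tok A r _
  · intro i b v hv
    have h1 := occ_stepE A.bar r σ E i b v hv
    rw [mem_kp]
    exact ⟨hocc i b v h1.1, h1.2⟩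

section Sizes

variable [Fintype I]

/-- Total number of letters. -/
def NL (E : I → Bool → List (Sym Γ V)) : ℕ := ∑ ib : I × Bool, nl (E ib.1 ib.2)

/-- Total number of variable occurrences. -/
def NV (E : I → Bool → List (Sym Γ V)) : ℕ := ∑ ib : I × Bool, nv (E ib.1 ib.2)

theorem NL_add_NV (E : I → Bool → List (Sym Γ V)) :
    ∑ ib : I × Bool, (E ib.1 ib.2).length = NL E + NV E := by
  unfold NL NV
  rw [← Finset.sum_add_distrib]
  exact Finset.sum_congr rfl (fun ib _ => (nl_add_nv _).symm)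

theorem NV_stepE_le (f : Γ → Γ) (r : Γ → Γ → Prop) (σ : V → List Γ)
    (E : I → Bool → List (Sym Γ V)) : NV (stepE f r σ E) ≤ NV E :=
  Finset.sum_le_sum (fun ib _ => nv_stepE_le f r σ E ib.1 ib.2)

theorem NL_stepE_le (f : Γ → Γ) (hnef : ∀ a, f a ≠ a) (r : Γ → Γ → Prop)
    (hr : ∀ x y, r (f y) (f x) ↔ r x y) (σ : V → List Γ) (B : ℕ)
    (hB : ∀ l : List Γ, l ≠ [] → l.IsChain r → (code f l).length ≤ B)
    (E : I → Bool → List (Sym Γ V)) (hW : ∀ i b v, Occ (E i b) v → σ v ≠ []) :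
    NL (stepE f r σ E) ≤ NL E + 2 * B * NV E := by
  unfold NL NV
  rw [Finset.mul_sum, ← Finset.sum_add_distrib]
  exact Finset.sum_le_sum (fun ib _ => nl_step_le f hnef r hr σ B hB _ (hW ib.1 ib.2))

theorem NL_stepE_prs (f : Γ → Γ) (hnef : ∀ a, f a ≠ a) (r : Γ → Γ → Prop)
    (hr : ∀ x y, r (f y) (f x) ↔ r x y) (σ : V → List Γ)
    (hone : ∀ l : List Γ, l ≠ [] → l.IsChain r → (code f l).length = 1)
    (E : I → Bool → List (Sym Γ V)) (hW : ∀ i b v, Occ (E i b) v → σ v ≠ []) :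
    NL (stepE f r σ E) + ∑ ib : I × Bool, prs r (E ib.1 ib.2) ≤ NL E + 2 * NV E := by
  unfold NL NV
  rw [Finset.mul_sum, ← Finset.sum_add_distrib, ← Finset.sum_add_distrib]
  exact Finset.sum_le_sum (fun ib _ => nl_step_pairs f hnef r hr σ hone _ (hW ib.1 ib.2))

end Sizes

theorem code_id_chain (f : Γ → Γ) (hf : ∀ c, f (f c) = c) (hne : ∀ c, f c ≠ c) (l : List Γ)
    (hl : l ≠ []) (hc : l.IsChain (rs id)) : (code f l).length = 1 := by
  obtain ⟨a, g', rfl⟩ := List.exists_cons_of_ne_nil hl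
  have h := eq_chn id a g' hc
  unfold code
  rw [if_neg]
  · simp
  · intro hsd
    rw [h] at hsd
    exact hne a (selfdual_chn f id hf hne (fun _ => rfl) (fun _ => rfl) a _ (by omega) hsd).1

/-- The choice of the orientation. -/
theorem exists_rO [Fintype I] (f : Γ → Γ) (hf : ∀ c, f (f c) = c) (hne : ∀ c, f c ≠ c)
    (σ : V → List Γ) (E : I → Bool → List (Sym Γ V))
    (hP : ∀ i b, P3 (Bad f) (ev f σ (E i b))) :
    ∃ o : Γ → Bool, (∀ c, o (f c) = !o c) ∧
      NL E ≤ 8 * (∑ ib : I × Bool, prs (rO f o) (E ib.1 ib.2)) + 2 * NV E +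
        4 * Fintype.card I := by
  set L : List (Γ × Γ) := (Finset.univ : Finset (I × Bool)).toList.flatMap
    (fun ib => (apairs (E ib.1 ib.2)).filter (fun p => decide (¬ Bad f p.1 p.2))) with hL
  obtain ⟨o, ho, hcount⟩ := exists_dicut f hf hne L (by
    intro p hp
    rw [hL] at hp
    obtain ⟨ib, _, hp⟩ := List.mem_flatMap.mp hp
    have := (List.mem_filter.mp hp).2
    simpa using this)
  refine ⟨o, ho, ?_⟩
  have e1 : L.length = ∑ ib : I × Bool, prs (fun x y => ¬ Bad f x y) (E ib.1 ib.2) := by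
    rw [hL, List.length_flatMap, ← Finset.sum_map_toList]
    congr 1
    apply List.map_congr_left
    intro ib _
    rw [prs_eq, List.countP_eq_length_filter]
    apply congrArg List.length
    apply List.filter_congr
    intro p _
    exact decide_eq_decide.mpr Iff.rfl
  have e2 : L.countP (fun p => o p.1 && !o p.2) ≤
      ∑ ib : I × Bool, prs (rO f o) (E ib.1 ib.2) := by
    rw [hL, List.countP_flatMap, ← Finset.sum_map_toList]
    apply List.sum_le_sum
    intro ib _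
    simp only [Function.comp]
    rw [List.countP_filter, prs_eq]
    apply List.countP_mono_left
    intro p _ hp
    simp only [Bool.and_eq_true, decide_eq_true_eq, Bool.not_eq_true'] at hp
    apply decide_eq_true
    refine ⟨hp.1.1, by simpa using hp.1.2, ?_⟩
    intro h
    exact hp.2 (Or.inr h)
  have e3 : NL E ≤ ∑ ib : I × Bool, (2 * prs (fun x y => ¬ Bad f x y) (E ib.1 ib.2) +
      2 * nv (E ib.1 ib.2) + 2) := by
    unfold NL
    apply Finset.sum_le_sum
    intro ib _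
    apply nl_le_prs (Bad f) _ _ le_rfl
    intro x y z hi
    exact P3.inf3 (hP ib.1 ib.2) x y z (infix_ev f σ _ x y z hi)
  rw [Finset.sum_add_distrib, Finset.sum_add_distrib, ← Finset.mul_sum, ← Finset.mul_sum,
    ← e1] at e3
  simp only [Finset.sum_const, Finset.card_univ, Fintype.card_prod, Fintype.card_bool,
    smul_eq_mul] at e3
  unfold NV
  omega

/-- Constants of a phase. -/
def cA (t₀ p₀ N M : ℕ) : ℕ := bC (3 * (N + M)) (4 * t₀) (4 * p₀)
def cB (t₀ p₀ N M : ℕ) : ℕ := bC (3 * (N + 3 * M)) (4 * t₀) (4 * p₀)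
def pa (t₀ p₀ N M : ℕ) : ℕ := cA t₀ p₀ N M * (cB t₀ p₀ N M * 2)
def pb (t₀ p₀ N M m : ℕ) : ℕ :=
  cA t₀ p₀ N M * (cB t₀ p₀ N M * (4 * m) + 2 * cB t₀ p₀ N M * m) + 2 * cA t₀ p₀ N M * m

theorem phase [Fintype V] [Fintype I] (A : Alpha Q Γ) {t₀ p₀ : ℕ} (ht₀ : 1 ≤ t₀) (hp₀ : 0 < p₀)
    (hQ : ∀ (x : Q) n, t₀ ≤ n → x ^ (n + p₀) = x ^ n)
    (alive : Finset V) (q : V → Q) (E : I → Bool → List (Sym Γ V)) (n : ℕ) (σ : V → List Γ)
    (h : Sol A alive q E n σ) (hocc : OccIn alive E) (N M : ℕ) (hN : NL E ≤ N) (hM : NV E ≤ M)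
    (hNM : 60 * M + 4 * Fintype.card I ≤ N) (halive : alive.Nonempty) :
    ∃ (alive' : Finset V) (q' : V → Q) (E' : I → Bool → List (Sym (Tok (Tok (Tok Γ))) V))
      (n' : ℕ) (σ' : V → List (Tok (Tok (Tok Γ)))),
      Sol A.tokA.tokA.tokA alive' q' E' n' σ' ∧ OccIn alive' E' ∧ n' < n ∧ NL E' ≤ N ∧
      NV E' ≤ M ∧ Back A alive q E A.tokA.tokA.tokA alive' q' E' (pa t₀ p₀ N M)
        (pb t₀ p₀ N M (Fintype.card V)) := by
  have hWof : ∀ {Γ' : Type _} (A' : Alpha Q Γ') (al : Finset V) (q0 : V → Q)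
      (E0 : I → Bool → List (Sym Γ' V)) (n0 : ℕ) (σ0 : V → List Γ'), Sol A' al q0 E0 n0 σ0 →
      OccIn al E0 → ∀ i b v, Occ (E0 i b) v → σ0 v ≠ [] :=
    fun A' al q0 E0 n0 σ0 hs ho i b v hv => hs.ne v (ho i b v hv)
  have hW0 := hWof A alive q E n σ h hocc
  -- step A
  have hrA : ∀ x y, rs id (A.bar y) (A.bar x) ↔ rs id x y :=
    rs_sym A.bar id A.bar_bar (fun _ => rfl) (fun _ => rfl)
  obtain ⟨n1, hn1, hn1lt, hs1, hocc1⟩ := sol_step A (rs id) hrA alive q E n σ h hocc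
  have hback1 := chain_back A id σ (fun _ => rfl) (fun _ => rfl) ht₀ hp₀ hQ alive q E hocc
    h.ne h.ty (3 * (N + M)) (by rw [NL_add_NV]; omega)
  have hNL1 := NL_stepE_le A.bar A.bar_ne (rs id) hrA σ 1
    (fun l hl hc => (code_id_chain A.bar A.bar_bar A.bar_ne l hl hc).le) E hW0
  have hNV1 := NV_stepE_le A.bar (rs id) σ E
  have hev1 : ∀ i b, ev (barT A.bar) (stepσ A.bar (rs id) σ) (stepE A.bar (rs id) σ E i b) =
      tok A.bar (rs id) (ev A.bar σ (E i b)) :=
    ev_stepE A.bar (rs id) σ A.bar_bar hrA E hW0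
  generalize hE1 : stepE A.bar (rs id) σ E = E1 at *
  generalize hσ1 : stepσ A.bar (rs id) σ = σ1 at *
  generalize hal1 : kp alive (fun v => mid (rs id) (σ v) ≠ []) = alive1 at *
  generalize hq1 : (fun v => A.μL (mid (rs id) (σ v))) = q1 at *
  -- step B
  have hW1 := hWof A.tokA alive1 q1 E1 n1 σ1 hs1 hocc1
  have hrB : ∀ x y, rs A.tokA.bar (A.tokA.bar y) (A.tokA.bar x) ↔ rs A.tokA.bar x y :=
    rs_sym A.tokA.bar A.tokA.bar A.tokA.bar_bar A.tokA.bar_bar (fun _ => rfl)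
  obtain ⟨n2, hn2, _, hs2, hocc2⟩ := sol_step A.tokA (rs A.tokA.bar) hrB alive1 q1 E1 n1 σ1 hs1 hocc1
  have hback2 := chain_back A.tokA A.tokA.bar σ1 A.tokA.bar_bar (fun _ => rfl) ht₀ hp₀ hQ
    alive1 q1 E1 hocc1 hs1.ne hs1.ty (3 * (N + 3 * M)) (by rw [NL_add_NV]; omega)
  have hNL2 := NL_stepE_le A.tokA.bar A.tokA.bar_ne (rs A.tokA.bar) hrB σ1 2
    (fun l hl hc => length_code_le _ l) E1 hW1
  have hNV2 := NV_stepE_le A.tokA.bar (rs A.tokA.bar) σ1 E1
  have hev2 : ∀ i b, ev A.tokA.tokA.bar (stepσ A.tokA.bar (rs A.tokA.bar) σ1)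
      (stepE A.tokA.bar (rs A.tokA.bar) σ1 E1 i b) =
      tok A.tokA.bar (rs A.tokA.bar) (ev A.tokA.bar σ1 (E1 i b)) :=
    ev_stepE A.tokA.bar (rs A.tokA.bar) σ1 A.tokA.bar_bar hrB E1 hW1
  have hP3 : ∀ i b, P3 (Bad A.tokA.tokA.bar) (ev A.tokA.tokA.bar
      (stepσ A.tokA.bar (rs A.tokA.bar) σ1) (stepE A.tokA.bar (rs A.tokA.bar) σ1 E1 i b)) := by
    intro i b
    rw [hev2]
    apply tok_bar_P3 A.tokA.bar A.tokA.bar_bar A.tokA.bar_ne
    change List.IsChain _ (ev (barT A.bar) σ1 (E1 i b))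
    rw [hev1]
    exact tok_id_chain A.bar A.bar_bar A.bar_ne _
  generalize hE2 : stepE A.tokA.bar (rs A.tokA.bar) σ1 E1 = E2 at *
  generalize hσ2 : stepσ A.tokA.bar (rs A.tokA.bar) σ1 = σ2 at *
  generalize hal2 : kp alive1 (fun v => mid (rs A.tokA.bar) (σ1 v) ≠ []) = alive2 at *
  generalize hq2 : (fun v => A.tokA.μL (mid (rs A.tokA.bar) (σ1 v))) = q2 at *
  -- step C
  obtain ⟨o, ho, hoc⟩ := exists_rO A.tokA.tokA.bar A.tokA.tokA.bar_bar A.tokA.tokA.bar_ne σ2 E2 hP3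
  have hW2 := hWof A.tokA.tokA alive2 q2 E2 n2 σ2 hs2 hocc2
  have hrC := rO_sym A.tokA.tokA.bar A.tokA.tokA.bar_bar o ho
  obtain ⟨n3, hn3, _, hs3, hocc3⟩ := sol_step A.tokA.tokA (rO A.tokA.tokA.bar o) hrC alive2 q2 E2
    n2 σ2 hs2 hocc2
  have hback3 := plain_back A.tokA.tokA (rO A.tokA.tokA.bar o) σ2 2 (by norm_num)
    (rO_chain A.tokA.tokA.bar o) alive2 q2 E2 hs2.ne hs2.ty
  have hNL3 := NL_stepE_prs A.tokA.tokA.bar A.tokA.tokA.bar_ne (rO A.tokA.tokA.bar o) hrC σ2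
    (rO_code A.tokA.tokA.bar A.tokA.tokA.bar_ne o) E2 hW2
  have hNV3 := NV_stepE_le A.tokA.tokA.bar (rO A.tokA.tokA.bar o) σ2 E2
  refine ⟨_, _, _, n3, _, hs3, hocc3, ?_, ?_, ?_, ?_⟩
  · have := hn1lt halive
    omega
  · omega
  · omega
  · refine ((hback1.trans (hback2.trans hback3))).mono ?_ ?_
    · exact le_rfl
    · have c1 : alive.card ≤ Fintype.card V := Finset.card_le_univ _
      have c2 : alive1.card ≤ Fintype.card V := Finset.card_le_univ _
      have c3 : alive2.card ≤ Fintype.card V := Finset.card_le_univ _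
      unfold pb cA cB
      gcongr

end Pool.Agent.helper13.WE
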