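import Pool.Agent.helper13.WE.Mon

/-!
# Reduction of equations over `⟨b, c | bcbc = 1⟩` to word equations
-/

namespace Pool.Agent.helper13.WE

/-- The base alphabet: `a = (false, false)`, `b = (false, true)`, `v = (true, false)` and
`v̄ = (true, true)`. -/
abbrev SG := Bool × Bool

/-- The involution of the base alphabet. -/
def fS (c : SG) : SG := (c.1, !c.2)

theorem fS_fS (c : SG) : fS (fS c) = c := by simp [fS]

theorem fS_ne (c : SG) : fS c ≠ c := by
  obtain ⟨k, x⟩ := c
  cases x <;> simp [fS]

/-- The automaton, reading from right to left. -/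
def tS (c : SG) (s : Fin 3) : Fin 3 :=
  if c = (false, false) ∧ s = 0 then 0
  else if c = (true, false) ∧ s = 1 then 0
  else if c = (true, true) ∧ s = 0 then 1 else 2

/-- The types. -/
def τS (c : SG) : Function.End (Fin 3) := tS c

theorem tS_a : ∀ s, tS (false, false) s = 0 → s = 0 := by decide
theorem tS_b : ∀ s, tS (false, true) s ≠ 0 := by decide
theorem tS_v : ∀ s, tS (true, false) s = 0 → s = 1 := by decide
theorem tS_w : ∀ s, tS (true, true) s ≠ 0 := by decide
theorem tS_one : ∀ c s, tS c s = 1 → c = (true, true) ∧ s = 0 := by decide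

/-- State after reading a word. -/
def run (w : List SG) : Fin 3 := ((w.map τS).prod : Function.End (Fin 3)) 0

theorem run_nil : run [] = 0 := rfl

theorem run_cons (c : SG) (w : List SG) : run (c :: w) = tS c (run w) := by
  unfold run
  rw [List.map_cons, List.prod_cons]
  rfl

/-- Values of the letters. -/
def eta (c : SG) : MM :=
  match c with
  | (false, false) => g3 L3.a
  | (false, true) => g3 L3.b
  | (true, false) => g3 L3.u
  | (true, true) => 1

/-- Value of a word. -/
def etaL (w : List SG) : MM := (w.map eta).prod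

theorem etaL_append (v w : List SG) : etaL (v ++ w) = etaL v * etaL w := by simp [etaL]

theorem etaL_nil : etaL [] = 1 := rfl

/-- Encoding of letters. -/
def enc3 : L3 → List SG
  | L3.a => [(false, false)]
  | L3.b => [(false, true)]
  | L3.u => [(true, false), (true, true)]

/-- Encoding of words. -/
def encL (w : List L3) : List SG := w.flatMap enc3

theorem encL_append (v w : List L3) : encL (v ++ w) = encL v ++ encL w := by simp [encL]

theorem encL_bar (P : List L3) : encL (barL bar3 P) = barL fS (encL P) := by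
  unfold encL
  refine barL_flatMap bar3 fS enc3 ?_ P
  intro c
  cases c <;> rfl

theorem etaL_encL (w : List L3) : etaL (encL w) = ph w := by
  induction w with
  | nil => rfl
  | cons c w ih =>
    have : encL (c :: w) = enc3 c ++ encL w := rfl
    rw [this, etaL_append, ih, ph_cons]
    congr 1
    cases c <;> simp [etaL, enc3, eta]

theorem run_encL (P : List L3) (hP : ∀ c ∈ P, c ≠ L3.b) : run (encL P) = 0 := by
  induction P with
  | nil => rfl
  | cons c P ih =>
    have h1 := ih (fun d hd => hP d (by simp [hd]))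
    have : encL (c :: P) = enc3 c ++ encL P := rfl
    rw [this]
    cases c with
    | a =>
      change run ((false, false) :: encL P) = 0
      rw [run_cons, h1]; rfl
    | b => exact absurd rfl (hP L3.b (by simp))
    | u =>
      change run ((true, false) :: (true, true) :: encL P) = 0
      rw [run_cons, run_cons, h1]; rfl

theorem run_sound : ∀ (n : ℕ) (w : List SG), w.length ≤ n → run w = 0 →
    etaL w * etaL (barL fS w) = 1 := by
  intro n
  induction n with
  | zero =>
    intro w hw _
    have : w = [] := List.length_eq_zero_iff.mp (by omega)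
    subst this
    simp [etaL]
  | succ n ih =>
    intro w hw h
    match w, hw, h with
    | [], _, _ => simp [etaL]
    | (false, false) :: w, hw, h =>
      rw [run_cons] at h
      have h1 : run w = 0 := tS_a _ h
      have h2 := ih w (by simp at hw; omega) h1
      have e1 : etaL ((false, false) :: w) = g3 L3.a * etaL w := by simp [etaL, eta]
      have e2 : etaL (barL fS ((false, false) :: w)) = etaL (barL fS w) * g3 L3.b := by
        rw [barL_cons, etaL_append]; simp [etaL, eta, fS]
      rw [e1, e2]
      calc g3 L3.a * etaL w * (etaL (barL fS w) * g3 L3.b)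
          = g3 L3.a * (etaL w * etaL (barL fS w)) * g3 L3.b := by simp only [mul_assoc]
        _ = 1 := by rw [h2, mul_one, g3_ab]
    | (false, true) :: w, hw, h =>
      rw [run_cons] at h
      exact absurd h (tS_b _)
    | (true, true) :: w, hw, h =>
      rw [run_cons] at h
      exact absurd h (tS_w _)
    | (true, false) :: w, hw, h =>
      rw [run_cons] at h
      have h1 : run w = 1 := tS_v _ h
      match w, hw, h1 with
      | [], _, h1 => exact absurd h1 (by decide)
      | c :: w, hw, h1 =>
        rw [run_cons] at h1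
        obtain ⟨rfl, h2⟩ := tS_one _ _ h1
        have h3 := ih w (by simp at hw; omega) h2
        have e1 : etaL ((true, false) :: (true, true) :: w) = g3 L3.u * etaL w := by
          simp [etaL, eta]
        have e2 : etaL (barL fS ((true, false) :: (true, true) :: w)) =
            etaL (barL fS w) * g3 L3.u := by
          rw [barL_cons, barL_cons, etaL_append, etaL_append]; simp [etaL, eta, fS]
        rw [e1, e2]
        calc g3 L3.u * etaL w * (etaL (barL fS w) * g3 L3.u)
            = g3 L3.u * (etaL w * etaL (barL fS w)) * g3 L3.u := by simp only [mul_assoc]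
          _ = 1 := by rw [h3, mul_one, g3_uu]

/-! ### The word system -/

/-- Equations with constants: a symbol is a generator or a variable. -/
abbrev MSym := Bool ⊕ ℕ

/-- A finite system of equations. -/
abbrev MSys := List (List MSym × List MSym)

/-- The assignment solves the system. -/
def MSol (S : MSys) (σ : ℕ → MM) : Prop :=
  ∀ e ∈ S, (e.1.map (Sum.elim gM σ)).prod = (e.2.map (Sum.elim gM σ)).prod

/-- Size restrictions. -/
structure Small (S : MSys) (z : ℕ) : Prop where
  len : S.length ≤ z
  len1 : ∀ e ∈ S, e.1.length ≤ z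
  len2 : ∀ e ∈ S, e.2.length ≤ z
  var1 : ∀ e ∈ S, ∀ n, Sum.inr n ∈ e.1 → n < z
  var2 : ∀ e ∈ S, ∀ n, Sum.inr n ∈ e.2 → n < z

/-- One side of an equation. -/
def side (S : MSys) (i : ℕ) (s : Bool) : List MSym :=
  if s then (S.getD i ([], [])).2 else (S.getD i ([], [])).1

theorem side_spec (S : MSys) (z : ℕ) (h : Small S z) (i : ℕ) (s : Bool) :
    (side S i s).length ≤ z ∧ ∀ n, Sum.inr n ∈ side S i s → n < z := by
  by_cases hi : i < S.length
  · have hmem : S.getD i ([], []) ∈ S := by
      rw [List.getD_eq_getElem _ _ hi]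
      exact List.getElem_mem hi
    cases s
    · exact ⟨h.len1 _ hmem, h.var1 _ hmem⟩
    · exact ⟨h.len2 _ hmem, h.var2 _ hmem⟩
  · have : S.getD i ([], []) = ([], []) := List.getD_eq_default _ _ (by omega)
    unfold side
    rw [this]
    cases s <;> simp

/-- Index type. -/
abbrev IZ (z : ℕ) := Fin z × Bool × Fin (z + 1) × Fin 3

/-- Variables of the word system. -/
abbrev VZ (z : ℕ) := Fin z ⊕ IZ z

/-- The word of a symbol. -/
def yw (z : ℕ) : Option MSym → List (Sym SG (VZ z))
  | none => []
  | some (Sum.inl false) => (encL [L3.a]).map Sum.inl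
  | some (Sum.inl true) => (encL [L3.b, L3.u]).map Sum.inl
  | some (Sum.inr n) => if h : n < z then [Sum.inr (Sum.inl ⟨n, h⟩, false)] else []

/-- The word `A B`. -/
def ab (z : ℕ) (i : Fin z) (s : Bool) (j : Fin (z + 1)) : List (Sym SG (VZ z)) :=
  [Sum.inr (Sum.inr (i, s, j, 0), false), Sum.inr (Sum.inr (i, s, j, 2), false)]

/-- The word system. -/
def EZ (S : MSys) (z : ℕ) : IZ z → Bool → List (Sym SG (VZ z))
  | (i, s, j, k), b =>
    if k = 0 then
      (if b then [Sum.inr (Sum.inr (i, s, j, 0), false), Sum.inr (Sum.inr (i, s, j, 1), false)]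
       else Fin.cases (motive := fun _ => List (Sym SG (VZ z))) [] (fun j' => ab z i s j'.castSucc) j)
    else if k = 1 then
      (if b then [Sum.inr (Sum.inr (i, s, j, 1), true), Sum.inr (Sum.inr (i, s, j, 2), false)]
       else yw z (side S i s)[(j : ℕ)]?)
    else ab z i b (Fin.last z)

theorem ev_ab (z : ℕ) (σ : VZ z → List SG) (i : Fin z) (s : Bool) (j : Fin (z + 1)) :
    ev fS σ (ab z i s j) = σ (Sum.inr (i, s, j, 0)) ++ σ (Sum.inr (i, s, j, 2)) := by
  simp [ev, ab, evs]

/-- Size bounds of a word. -/
def szOK {z : ℕ} (W : List (Sym SG (VZ z))) : Prop := nl W ≤ 3 ∧ nv W ≤ 2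

theorem nlnv_EZ (S : MSys) (z : ℕ) (x : IZ z) (b : Bool) : szOK (EZ S z x b) := by
  obtain ⟨i, s, j, k⟩ := x
  have hab : ∀ s j, szOK (ab z i s j) := by
    intro s j; simp [szOK, ab]
  simp only [EZ]
  split_ifs
  · simp [szOK]
  · refine Fin.cases ?_ ?_ j
    · simp [szOK]
    · intro j'; simp only [Fin.cases_succ]; exact hab _ _
  · simp [szOK]
  · generalize (side S i s)[(j : ℕ)]? = o
    match o with
    | none => simp [szOK, yw]
    | some (Sum.inl false) => simp [szOK, yw, encL, enc3]
    | some (Sum.inl true) => simp [szOK, yw, encL, enc3]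
    | some (Sum.inr n) =>
      simp only [yw]
      split <;> simp [szOK]
  · exact hab _ _

/-- Number of indices. -/
def cI (z : ℕ) : ℕ := z * (2 * ((z + 1) * 3))

theorem card_IZ (z : ℕ) : Fintype.card (IZ z) = cI z := by
  simp [IZ, cI]

theorem card_VZ (z : ℕ) : Fintype.card (VZ z) = z + cI z := by
  simp [VZ, cI]

theorem NL_EZ (S : MSys) (z : ℕ) : NL (EZ S z) ≤ 6 * cI z := by
  unfold NL
  calc ∑ ib : IZ z × Bool, nl (EZ S z ib.1 ib.2) ≤ ∑ _ib : IZ z × Bool, 3 :=
        Finset.sum_le_sum (fun ib _ => (nlnv_EZ S z ib.1 ib.2).1)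
    _ = 6 * cI z := by
      rw [Finset.sum_const, Finset.card_univ, Fintype.card_prod, card_IZ, Fintype.card_bool,
        smul_eq_mul]
      ring

theorem NV_EZ (S : MSys) (z : ℕ) : NV (EZ S z) ≤ 4 * cI z := by
  unfold NV
  calc ∑ ib : IZ z × Bool, nv (EZ S z ib.1 ib.2) ≤ ∑ _ib : IZ z × Bool, 2 :=
        Finset.sum_le_sum (fun ib _ => (nlnv_EZ S z ib.1 ib.2).2)
    _ = 4 * cI z := by
      rw [Finset.sum_const, Finset.card_univ, Fintype.card_prod, card_IZ, Fintype.card_bool,
        smul_eq_mul]
      ring

/-! ### Soundness -/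

theorem ez_sound (S : MSys) (z : ℕ) (hS : Small S z) (σ : VZ z → List SG)
    (hσ : Solves fS σ (EZ S z)) (hP : ∀ i s j, run (σ (Sum.inr (i, s, j, 1))) = 0)
    (ρ : ℕ → MM) (hρ : ∀ (n : ℕ) (h : n < z), ρ n = etaL (σ (Sum.inl ⟨n, h⟩))) : MSol S ρ := by
  have hyw : ∀ i s (j : ℕ), etaL (ev fS σ (yw z (side S i s)[j]?)) =
      (((side S i s)[j]?.toList).map (Sum.elim gM ρ)).prod := by
    intro i s j
    have hsp := (side_spec S z hS i s).2
    cases ho : (side S i s)[j]? with
    | none => rfl
    | some y =>
      have hmem : y ∈ side S i s := List.mem_of_getElem? ho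
      match y, hmem with
      | Sum.inl false, _ =>
        simp only [yw, ev_map_inl]
        simp [encL, enc3, etaL, eta, g3]
      | Sum.inl true, _ =>
        simp only [yw, ev_map_inl, etaL_encL]
        simp [ph, gM_c]
      | Sum.inr n, hmem =>
        have hn := hsp n hmem
        simp only [yw]
        rw [dif_pos hn]
        simp [ev, evs, hρ n hn]
  have key : ∀ (i : Fin z) (s : Bool) (j : Fin (z + 1)),
      etaL (σ (Sum.inr (i, s, j, 0))) * etaL (σ (Sum.inr (i, s, j, 2))) =
      (((side S i s).take (j + 1)).map (Sum.elim gM ρ)).prod := by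
    intro i s j
    have e1 : ∀ j : Fin (z + 1), etaL (σ (Sum.inr (i, s, j, 0))) * etaL (σ (Sum.inr (i, s, j, 2))) =
        etaL (ev fS σ (EZ S z (i, s, j, 0) false)) * etaL (ev fS σ (yw z (side S i s)[(j : ℕ)]?)) := by
      intro j
      have h0 := hσ (i, s, j, 0)
      have h1 := hσ (i, s, j, 1)
      have h1f : ev fS σ (EZ S z (i, s, j, 1) false) = ev fS σ (yw z (side S i s)[(j : ℕ)]?) := by
        simp [EZ]
      have h1t : ev fS σ (EZ S z (i, s, j, 1) true) =
          barL fS (σ (Sum.inr (i, s, j, 1))) ++ σ (Sum.inr (i, s, j, 2)) := by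
        simp [EZ, ev, evs]
      have h0t : ev fS σ (EZ S z (i, s, j, 0) true) =
          σ (Sum.inr (i, s, j, 0)) ++ σ (Sum.inr (i, s, j, 1)) := by
        simp [EZ, ev, evs]
      rw [← h1f, h1, h0, h1t, h0t, etaL_append, etaL_append]
      have hPP := run_sound _ _ le_rfl (hP i s j)
      calc etaL (σ (Sum.inr (i, s, j, 0))) * etaL (σ (Sum.inr (i, s, j, 2)))
          = etaL (σ (Sum.inr (i, s, j, 0))) * (etaL (σ (Sum.inr (i, s, j, 1))) *
            etaL (barL fS (σ (Sum.inr (i, s, j, 1))))) * etaL (σ (Sum.inr (i, s, j, 2))) := by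
            rw [hPP, mul_one]
        _ = _ := by simp only [mul_assoc]
    induction j using Fin.induction with
    | zero =>
      rw [e1]
      have h0 : EZ S z (i, s, 0, 0) false = [] := by simp [EZ]
      rw [h0, ev_nil, etaL_nil, one_mul, hyw]
      congr 2
      cases side S i s with
      | nil => rfl
      | cons y l => rfl
    | succ j ih =>
      rw [e1]
      have h0 : EZ S z (i, s, j.succ, 0) false = ab z i s j.castSucc := by simp [EZ]
      rw [h0, ev_ab, etaL_append, ih, hyw]
      have e2 : (side S i s).take ((j.succ : Fin (z + 1)) + 1 : ℕ) =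
          (side S i s).take ((j.castSucc : Fin (z + 1)) + 1 : ℕ) ++
            (side S i s)[((j.succ : Fin (z + 1)) : ℕ)]?.toList := by
        rw [List.take_add_one]
        rfl
      rw [e2, List.map_append, List.prod_append]
  intro e he
  obtain ⟨i, hi, rfl⟩ := List.mem_iff_getElem.mp he
  have hiz : i < z := lt_of_lt_of_le hi hS.len
  have hz : 0 < z := by omega
  have hlast := hσ (⟨i, hiz⟩, false, 0, 2)
  have h2f : ev fS σ (EZ S z (⟨i, hiz⟩, false, 0, 2) false) =
      ev fS σ (ab z ⟨i, hiz⟩ false (Fin.last z)) := by simp [EZ]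
  have h2t : ev fS σ (EZ S z (⟨i, hiz⟩, false, 0, 2) true) =
      ev fS σ (ab z ⟨i, hiz⟩ true (Fin.last z)) := by simp [EZ]
  rw [h2f, h2t, ev_ab, ev_ab] at hlast
  have hlast' := congrArg etaL hlast
  rw [etaL_append, etaL_append, key, key] at hlast'
  have hg : S.getD i ([], []) = S[i] := List.getD_eq_getElem _ _ hi
  have hsf : side S i false = S[i].1 := by simp [side, hi]
  have hst : side S i true = S[i].2 := by simp [side, hi]
  have t1 : (side S i false).take (z + 1) = side S i false :=
    List.take_of_length_le (by have := (side_spec S z hS i false).1; omega)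
  have t2 : (side S i true).take (z + 1) = side S i true :=
    List.take_of_length_le (by have := (side_spec S z hS i true).1; omega)
  simp only [Fin.val_last] at hlast'
  rw [t1, t2, hsf, hst] at hlast'
  exact hlast'

end Pool.Agent.helper13.WE
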