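import Pool.Agent.helper13.WE.Mod

/-!
# Size accounting
-/

namespace Pool.Agent.helper13.WE

open Classical

variable {Q : Type*} [Monoid Q] [StarMul Q] {Γ Δ V I : Type*}

/-- Number of letters. -/
def nl (W : List (Sym Γ V)) : ℕ := W.countP (fun y => y.isLeft)

/-- Number of variables. -/
def nv (W : List (Sym Γ V)) : ℕ := W.countP (fun y => y.isRight)

@[simp] theorem nl_nil : nl ([] : List (Sym Γ V)) = 0 := rfl
@[simp] theorem nv_nil : nv ([] : List (Sym Γ V)) = 0 := rfl
@[simp] theorem nl_cons_inl (c : Γ) (W : List (Sym Γ V)) : nl (Sum.inl c :: W) = nl W + 1 := by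
  unfold nl
  rw [List.countP_cons_of_pos rfl]
@[simp] theorem nl_cons_inr (x : V × Bool) (W : List (Sym Γ V)) : nl (Sum.inr x :: W) = nl W := by
  simp [nl]
@[simp] theorem nv_cons_inl (c : Γ) (W : List (Sym Γ V)) : nv (Sum.inl c :: W) = nv W := by
  simp [nv]
@[simp] theorem nv_cons_inr (x : V × Bool) (W : List (Sym Γ V)) :
    nv (Sum.inr x :: W) = nv W + 1 := by
  unfold nv
  rw [List.countP_cons_of_pos rfl]
theorem nl_append (W W' : List (Sym Γ V)) : nl (W ++ W') = nl W + nl W' := by simp [nl]
theorem nv_append (W W' : List (Sym Γ V)) : nv (W ++ W') = nv W + nv W' := by simp [nv]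
@[simp] theorem nl_map_inl (g : List Γ) : nl (g.map Sum.inl : List (Sym Γ V)) = g.length := by
  induction g with
  | nil => rfl
  | cons a g ih => simp [ih]
@[simp] theorem nv_map_inl (g : List Γ) : nv (g.map Sum.inl : List (Sym Γ V)) = 0 := by
  induction g with
  | nil => rfl
  | cons a g ih => simp [ih]

theorem nl_add_nv (W : List (Sym Γ V)) : nl W + nv W = W.length := by
  induction W with
  | nil => rfl
  | cons y W ih =>
    match y with
    | Sum.inl c => simp only [nl_cons_inl, nv_cons_inl, List.length_cons]; omega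
    | Sum.inr x => simp only [nl_cons_inr, nv_cons_inr, List.length_cons]; omega

/-- Cost of a list of groups. -/
noncomputable def costG (f : Γ → Γ) (gs : List (List (Sym Γ V))) : ℕ :=
  (gs.map (fun G => nl (codeS f G))).sum

theorem costG_append (f : Γ → Γ) (gs hs : List (List (Sym Γ V))) :
    costG f (gs ++ hs) = costG f gs + costG f hs := by simp [costG]

theorem nl_tokS (f : Γ → Γ) (r : Γ → Γ → Prop) (W : List (Sym Γ V)) :
    nl (tokS f r W) = costG f (grp (rS r) W) := by
  unfold tokS costG
  generalize grp (rS r) W = gs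
  induction gs with
  | nil => rfl
  | cons G gs ih => simp [nl_append, ih]

theorem grp_append_merge (r : Γ → Γ → Prop) (u v : List Γ) (hb : ¬ Bd r u v) :
    ∃ gs g h hs, grp r u = gs ++ [g] ∧ grp r v = h :: hs ∧ grp r (u ++ v) = gs ++ (g ++ h) :: hs
      ∧ g ≠ [] ∧ h ≠ [] ∧ g.IsChain r ∧ h.IsChain r ∧ (g ++ h).IsChain r := by
  unfold Bd at hb
  push Not at hb
  obtain ⟨x, hx, y, hy, hxy⟩ := hb
  have hu : u ≠ [] := by rintro rfl; simp at hx
  have hv : v ≠ [] := by rintro rfl; simp at hy
  have h1 : grp r u ≠ [] := fun h => hu ((grp_eq_nil_iff r u).mp h)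
  have h2 : grp r v ≠ [] := fun h => hv ((grp_eq_nil_iff r v).mp h)
  obtain ⟨h, hs, hh⟩ := List.exists_cons_of_ne_nil h2
  set gs := (grp r u).dropLast with hgs
  set g := (grp r u).getLast h1 with hg
  have hgu : grp r u = gs ++ [g] := (List.dropLast_append_getLast h1).symm
  have vu := grp_valid r u
  have vv := grp_valid r v
  rw [hgu] at vu
  rw [hh] at vv
  have hgne : g ≠ [] := vu.right.1
  have hhne : h ≠ [] := vv.1
  have fu : u = gs.flatten ++ g := by
    have := grp_flatten r u
    rw [hgu] at this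
    simpa using this.symm
  have fv : v = h ++ hs.flatten := by
    have := grp_flatten r v
    rw [hh] at this
    simpa using this.symm
  have hxg : x ∈ g.getLast? := by
    rw [fu, List.getLast?_append_of_ne_nil _ hgne] at hx; exact hx
  have hyh : y ∈ h.head? := by
    rw [fv, List.head?_append_of_ne_nil _ hhne] at hy; exact hy
  have hc : (g ++ h).IsChain r := by
    rw [List.isChain_append]
    refine ⟨vu.right.2.1, vv.2.1, ?_⟩
    intro a ha b hb
    rw [Option.mem_def] at ha hb hxg hyh
    rw [hxg, Option.some_inj] at ha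
    rw [hyh, Option.some_inj] at hb
    subst ha; subst hb; exact hxy
  refine ⟨gs, g, h, hs, hgu, hh, ?_, hgne, hhne, vu.right.2.1, vv.2.1, hc⟩
  have hval : Valid r (gs ++ (g ++ h) :: hs) := by
    apply valid_append r _ _ vu.left
    · refine ⟨by simp [hgne], hc, ?_, vv.2.2.2⟩
      intro a ha b hb
      rw [List.getLast?_append_of_ne_nil _ hhne] at ha
      exact vv.2.2.1 a ha b hb
    · intro a ha b hb
      have := vu.bd
      simp only [List.flatten_cons, List.flatten_nil, List.append_nil] at this
      apply this a ha b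
      rw [List.flatten_cons, List.append_assoc, List.head?_append_of_ne_nil _ hgne] at hb
      exact hb
  have := grp_unique r _ hval
  rw [← this]
  congr 1
  rw [fu, fv]
  simp

theorem cost_letter_pos (f : Γ → Γ) (g : List Γ) :
    1 ≤ nl (codeS f (g.map Sum.inl : List (Sym Γ V))) := by
  rw [codeS_inl, nl_map_inl]
  exact length_code_pos f g

theorem cost_letter_le (f : Γ → Γ) (g : List Γ) :
    nl (codeS f (g.map Sum.inl : List (Sym Γ V))) ≤ 2 := by
  rw [codeS_inl, nl_map_inl]
  exact length_code_le f g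

theorem merge_letters (r : Γ → Γ → Prop) (g h : List (Sym Γ V)) (hg : g ≠ []) (hh : h ≠ [])
    (hc : (g ++ h).IsChain (rS r)) : ∃ g' h', g' ≠ [] ∧ h' ≠ [] ∧ g = g'.map Sum.inl ∧
      h = h'.map Sum.inl ∧ g'.IsChain r ∧ h'.IsChain r ∧ (g' ++ h').IsChain r := by
  rcases shape_of_chain r (g ++ h) (by simp [hg]) hc with ⟨x, hx⟩ | ⟨k, hk, hke, hkc⟩
  · exfalso
    have := congrArg List.length hx
    have h1 := List.length_pos_of_ne_nil hg
    have h2 := List.length_pos_of_ne_nil hh
    simp at this
    omega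
  · obtain ⟨g', h', rfl, e1, e2⟩ := List.append_eq_map_iff.mp hke
    subst e1; subst e2
    refine ⟨g', h', by simpa using hg, by simpa using hh, rfl, rfl, ?_, ?_, hkc⟩
    · exact hkc.left_of_append
    · exact hkc.right_of_append

theorem nl_tokS_append_le (f : Γ → Γ) (r : Γ → Γ → Prop) (u v : List (Sym Γ V)) :
    nl (tokS f r (u ++ v)) ≤ nl (tokS f r u) + nl (tokS f r v) := by
  rw [nl_tokS, nl_tokS, nl_tokS]
  by_cases hb : Bd (rS r) u v
  · rw [grp_append _ _ _ hb, costG_append]
  · obtain ⟨gs, g, h, hs, e1, e2, e3, hg, hh, _, _, hc⟩ := grp_append_merge (rS r) u v hb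
    obtain ⟨g', h', hg', hh', rfl, rfl, _, _, _⟩ := merge_letters r g h hg hh hc
    rw [e1, e2, e3]
    have a1 := cost_letter_pos (V := V) f g'
    have a2 := cost_letter_pos (V := V) f h'
    have a3 := cost_letter_le (V := V) f (g' ++ h')
    rw [List.map_append] at a3
    simp only [costG, List.map_append, List.map_cons, List.sum_append, List.sum_cons,
      List.map_nil, List.sum_nil] at *
    omega

/-- If all codes of chains are single tokens, a merge gains one. -/
theorem nl_tokS_append_lt (f : Γ → Γ) (r : Γ → Γ → Prop)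
    (hone : ∀ l : List Γ, l ≠ [] → l.IsChain r → (code f l).length = 1) (u v : List (Sym Γ V))
    (hb : ¬ Bd (rS r) u v) :
    nl (tokS f r (u ++ v)) + 1 = nl (tokS f r u) + nl (tokS f r v) := by
  rw [nl_tokS, nl_tokS, nl_tokS]
  obtain ⟨gs, g, h, hs, e1, e2, e3, hg, hh, _, _, hc⟩ := grp_append_merge (rS r) u v hb
  obtain ⟨g', h', hg', hh', rfl, rfl, hgc, hhc, hghc⟩ := merge_letters r g h hg hh hc
  rw [e1, e2, e3]
  have a1 : nl (codeS f (g'.map Sum.inl : List (Sym Γ V))) = 1 := by
    rw [codeS_inl, nl_map_inl]; exact hone g' hg' hgc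
  have a2 : nl (codeS f (h'.map Sum.inl : List (Sym Γ V))) = 1 := by
    rw [codeS_inl, nl_map_inl]; exact hone h' hh' hhc
  have a3 : nl (codeS f (g'.map Sum.inl ++ h'.map Sum.inl : List (Sym Γ V))) = 1 := by
    rw [← List.map_append, codeS_inl, nl_map_inl]; exact hone _ (by simp [hg']) hghc
  simp only [costG, List.map_append, List.map_cons, List.sum_append, List.sum_cons,
    List.map_nil, List.sum_nil] at *
  rw [a1, a2, a3]
  omega

theorem nl_tokS_map_inl (f : Γ → Γ) (r : Γ → Γ → Prop) (g : List Γ) (hc : g.IsChain r) (B : ℕ)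
    (hB : ∀ l : List Γ, l ≠ [] → l.IsChain r → (code f l).length ≤ B) :
    nl (tokS f r (g.map Sum.inl : List (Sym Γ V))) ≤ B := by
  by_cases hg : g = []
  · subst hg; simp [tokS, grp_nil]
  · have h1 : (g.map Sum.inl : List (Sym Γ V)).IsChain (rS r) := by
      rw [List.isChain_map]; exact hc
    rw [nl_tokS, grp_of_chain _ _ (by simpa using hg) h1]
    simp only [costG, List.map_cons, List.map_nil, List.sum_cons, List.sum_nil, add_zero]
    rw [codeS_inl, nl_map_inl]
    exact hB g hg hc

theorem nl_tokS_inl (f : Γ → Γ) (hne : ∀ c, f c ≠ c) (r : Γ → Γ → Prop) (c : Γ) :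
    nl (tokS f r [(Sum.inl c : Sym Γ V)]) = 1 := by
  rw [nl_tokS, grp_singleton]
  have := codeS_inl (V := V) f [c]
  simp only [List.map_cons, List.map_nil] at this
  simp only [costG, List.map_cons, List.map_nil, List.sum_cons, List.sum_nil, add_zero, this]
  have h2 := nl_map_inl (V := V) (code f [c])
  rw [h2, length_code_singleton f hne]

theorem nl_tokS_inr (f : Γ → Γ) (r : Γ → Γ → Prop) (x : V × Bool) :
    nl (tokS f r [(Sum.inr x : Sym Γ V)]) = 0 := by
  rw [nl_tokS, grp_singleton]
  simp [costG, codeS]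

section Popped

variable (f : Γ → Γ) (hf : ∀ a, f (f a) = a) (hnef : ∀ a, f a ≠ a) (r : Γ → Γ → Prop)
  (hr : ∀ x y, r (f y) (f x) ↔ r x y) (σ : V → List Γ)

include hr in
theorem nl_sbG_inr (B : ℕ) (hB : ∀ l : List Γ, l ≠ [] → l.IsChain r → (code f l).length ≤ B)
    (x : V × Bool) (hx : σ x.1 ≠ []) : nl (tokS f r (sbG f r σ (Sum.inr x))) ≤ 2 * B := by
  have h1 := fstG_chain r (σ x.1) hx
  have h2 := lstG_chain r (σ x.1) hx
  have h1' := (isChain_barL f r hr _).mpr h1
  have h2' := (isChain_barL f r hr _).mpr h2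
  obtain ⟨v, b⟩ := x
  have key : ∀ (u w : List Γ) (m : List (Sym Γ V)), u.IsChain r → w.IsChain r →
      nl (tokS f r m) = 0 →
      nl (tokS f r (u.map Sum.inl ++ (m ++ w.map Sum.inl))) ≤ 2 * B := by
    intro u w m hu hw hm
    have e1 := nl_tokS_append_le f r (u.map Sum.inl) (m ++ w.map Sum.inl)
    have e2 := nl_tokS_append_le f r m (w.map Sum.inl)
    have e3 := nl_tokS_map_inl (V := V) f r u hu B hB
    have e4 := nl_tokS_map_inl (V := V) f r w hw B hB
    omega
  have hm0 : ∀ (P : Prop) (y : Sym Γ V), (∃ x, y = Sum.inr x) →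
      nl (tokS f r (if P then [y] else [])) = 0 := by
    rintro P y ⟨x, rfl⟩
    by_cases hP : P
    · rw [if_pos hP]; exact nl_tokS_inr f r x
    · rw [if_neg hP]; rfl
  match b with
  | false => exact key _ _ _ h1 h2 (hm0 _ _ ⟨_, rfl⟩)
  | true => exact key _ _ _ h2' h1' (hm0 _ _ ⟨_, rfl⟩)

include hnef hr in
theorem nl_step_le (B : ℕ)
    (hB : ∀ l : List Γ, l ≠ [] → l.IsChain r → (code f l).length ≤ B)
    (W : List (Sym Γ V)) (hW : ∀ v, Occ W v → σ v ≠ []) :
    nl (tokS f r (W.flatMap (sbG f r σ))) ≤ nl W + 2 * B * nv W := by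
  induction W with
  | nil => simp [tokS, grp_nil]
  | cons y W ih =>
    have ih' := ih (fun v hv => hW v (by obtain ⟨b, hb⟩ := hv; exact ⟨b, by simp [hb]⟩))
    rw [List.flatMap_cons]
    have e1 := nl_tokS_append_le f r (sbG f r σ y) (W.flatMap (sbG f r σ))
    match y with
    | Sum.inl c =>
      have e2 := nl_tokS_inl (V := V) f hnef r c
      have e3 : sbG f r σ (Sum.inl c : Sym Γ V) = [Sum.inl c] := rfl
      rw [e3] at e1 ⊢
      rw [nl_cons_inl, nv_cons_inl]
      omega
    | Sum.inr x =>
      have e2 := nl_sbG_inr f r hr σ B hB x (hW x.1 ⟨x.2, by simp⟩)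
      rw [nl_cons_inr, nv_cons_inr]
      have : 2 * B * (nv W + 1) = 2 * B * nv W + 2 * B := by ring
      omega

/-- Number of adjacent related letters. -/
noncomputable def prs (r : Γ → Γ → Prop) : List (Sym Γ V) → ℕ
  | [] => 0
  | y :: W => (if ∃ z ∈ W.head?, rS r y z then 1 else 0) + prs r W

include hnef hr in
theorem nl_step_pairs (hone : ∀ l : List Γ, l ≠ [] → l.IsChain r → (code f l).length = 1)
    (W : List (Sym Γ V)) (hW : ∀ v, Occ W v → σ v ≠ []) :
    nl (tokS f r (W.flatMap (sbG f r σ))) + prs r W ≤ nl W + 2 * nv W := by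
  induction W with
  | nil => simp [tokS, grp_nil, prs]
  | cons y W ih =>
    have ih' := ih (fun v hv => hW v (by obtain ⟨b, hb⟩ := hv; exact ⟨b, by simp [hb]⟩))
    rw [List.flatMap_cons, prs]
    match y with
    | Sum.inl c =>
      have e2 := nl_tokS_inl (V := V) f hnef r c
      have e3 : sbG f r σ (Sum.inl c : Sym Γ V) = [Sum.inl c] := rfl
      rw [e3, nl_cons_inl, nv_cons_inl]
      by_cases hz : ∃ z ∈ W.head?, rS r (Sum.inl c : Sym Γ V) z
      · rw [if_pos hz]
        obtain ⟨z, hz, hcz⟩ := hz
        match z, hz, hcz with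
        | Sum.inl d, hz, hcz =>
          cases W with
          | nil => simp at hz
          | cons z' W' =>
            simp at hz
            subst hz
            have hb : ¬ Bd (rS r) [(Sum.inl c : Sym Γ V)]
                ((Sum.inl d :: W').flatMap (sbG f r σ)) := by
              intro h
              have := h (Sum.inl c) (by simp) (Sum.inl d) (by
                rw [List.flatMap_cons]
                have : sbG f r σ (Sum.inl d : Sym Γ V) = [Sum.inl d] := rfl
                rw [this]; simp)
              exact this hcz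
            have := nl_tokS_append_lt f r hone _ _ hb
            omega
      · rw [if_neg hz]
        have e1 := nl_tokS_append_le f r [(Sum.inl c : Sym Γ V)] (W.flatMap (sbG f r σ))
        omega
    | Sum.inr x =>
      have e1 := nl_tokS_append_le f r (sbG f r σ (Sum.inr x)) (W.flatMap (sbG f r σ))
      have e2 := nl_sbG_inr f r hr σ 1 (fun l h1 h2 => (hone l h1 h2).le) x
        (hW x.1 ⟨x.2, by simp⟩)
      have hz : ¬ ∃ z ∈ W.head?, rS r (Sum.inr x : Sym Γ V) z := by
        rintro ⟨z, _, hz⟩
        cases z <;> exact hz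
      rw [if_neg hz, nl_cons_inr, nv_cons_inr]
      omega

theorem nv_sbG_le (y : Sym Γ V) : nv (sbG f r σ y) ≤ nv [y] := by
  match y with
  | Sum.inl c => simp [sbG, sb]
  | Sum.inr (v, false) =>
    simp only [sbG, sb]
    split <;> simp [nv_append]
  | Sum.inr (v, true) =>
    simp only [sbG, sb]
    split <;> simp [nv_append]

theorem nv_flatMap_sbG_le (W : List (Sym Γ V)) : nv (W.flatMap (sbG f r σ)) ≤ nv W := by
  induction W with
  | nil => simp
  | cons y W ih =>
    rw [List.flatMap_cons, nv_append]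
    have := nv_sbG_le f r σ y
    have e : nv (y :: W) = nv [y] + nv W := by
      rw [← nv_append]; rfl
    omega

theorem nv_codeS (r : Γ → Γ → Prop) (G : List (Sym Γ V)) (hne : G ≠ []) (hc : G.IsChain (rS r)) :
    nv (codeS f G) = nv G := by
  rcases shape_of_chain r G hne hc with ⟨x, rfl⟩ | ⟨g, hg, rfl, hgc⟩
  · simp [codeS]
  · rw [codeS_inl]; simp

theorem nv_tokS (W : List (Sym Γ V)) : nv (tokS f r W) = nv W := by
  have key : ∀ gs : List (List (Sym Γ V)), Valid (rS r) gs →
      nv (gs.flatMap (codeS f)) = nv gs.flatten := by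
    intro gs
    induction gs with
    | nil => intro _; rfl
    | cons G gs ih =>
      intro h
      rw [List.flatMap_cons, nv_append, List.flatten_cons, nv_append, ih h.2.2.2,
        nv_codeS f r G h.1 h.2.1]
  unfold tokS
  rw [key _ (grp_valid _ W), grp_flatten]

theorem nv_stepE_le (E : I → Bool → List (Sym Γ V)) (i : I) (b : Bool) :
    nv (stepE f r σ E i b) ≤ nv (E i b) := by
  unfold stepE
  rw [nv_tokS]
  exact nv_flatMap_sbG_le f r σ _

/-- Variables of the compressed system are kept variables of the system. -/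
theorem occ_stepE (E : I → Bool → List (Sym Γ V)) (i : I) (b : Bool) (v : V)
    (h : Occ (stepE f r σ E i b) v) : Occ (E i b) v ∧ mid r (σ v) ≠ [] := by
  obtain ⟨c, hc⟩ := h
  unfold stepE tokS at hc
  obtain ⟨G, hG, hc⟩ := List.mem_flatMap.mp hc
  have hmem : (Sum.inr (v, c) : Sym Γ V) ∈ (E i b).flatMap (sbG f r σ) := by
    rcases shape_of_mem r _ G hG with ⟨x, rfl⟩ | ⟨g, hg, rfl, hgc⟩
    · simp only [codeS, List.mem_singleton, Sum.inr.injEq] at hc
      subst hc
      rw [← grp_flatten (rS r) ((E i b).flatMap (sbG f r σ))]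
      exact List.mem_flatten.mpr ⟨_, hG, by simp⟩
    · rw [codeS_inl] at hc
      simp at hc
  obtain ⟨y, hy, hmem⟩ := List.mem_flatMap.mp hmem
  match y, hy, hmem with
  | Sum.inl d, _, hmem => simp [sbG, sb] at hmem
  | Sum.inr (w, false), hy, hmem =>
    simp only [sbG, sb, List.mem_append, List.mem_map] at hmem
    rcases hmem with ⟨_, _, h⟩ | h | ⟨_, _, h⟩
    · simp at h
    · split at h
      · rename_i hk
        simp only [List.mem_singleton, Sum.inr.injEq, Prod.mk.injEq] at h
        obtain ⟨rfl, rfl⟩ := h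
        exact ⟨⟨_, hy⟩, hk⟩
      · simp at h
    · simp at h
  | Sum.inr (w, true), hy, hmem =>
    simp only [sbG, sb, List.mem_append, List.mem_map] at hmem
    rcases hmem with ⟨_, _, h⟩ | h | ⟨_, _, h⟩
    · simp at h
    · split at h
      · rename_i hk
        simp only [List.mem_singleton, Sum.inr.injEq, Prod.mk.injEq] at h
        obtain ⟨rfl, rfl⟩ := h
        exact ⟨⟨_, hy⟩, hk⟩
      · simp at h
    · simp at h

end Popped

/-! ### Counting good pairs -/

theorem nl_le_prs (bad : Γ → Γ → Prop) : ∀ (n : ℕ) (W : List (Sym Γ V)), W.length ≤ n →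
    (∀ x y z, [Sum.inl x, Sum.inl y, Sum.inl z] <:+: W → ¬ (bad x y ∧ bad y z)) →
    nl W ≤ 2 * prs (fun x y => ¬ bad x y) W + 2 * nv W + 2 := by
  intro n
  induction n with
  | zero =>
    intro W hW _
    have : W = [] := List.length_eq_zero_iff.mp (by omega)
    subst this; simp
  | succ n ih =>
    intro W hW h
    match W, hW, h with
    | [], _, _ => simp
    | Sum.inr x :: W, hW, h =>
      have := ih W (by simp at hW; omega) (fun x y z hi => h x y z (hi.trans (List.suffix_cons _ _).isInfix))
      rw [nl_cons_inr, nv_cons_inr, prs]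
      omega
    | [Sum.inl x], _, _ => simp
    | Sum.inl x :: Sum.inr y :: W, hW, h =>
      have := ih W (by simp at hW; omega) (fun x y z hi => h x y z
        ((hi.trans (List.suffix_cons _ _).isInfix).trans (List.suffix_cons _ _).isInfix))
      rw [nl_cons_inl, nl_cons_inr, nv_cons_inl, nv_cons_inr, prs, prs]
      omega
    | Sum.inl x :: Sum.inl y :: W, hW, h =>
      by_cases hxy : bad x y
      · match W, hW, h with
        | [], _, _ => simp
        | Sum.inr z :: W, hW, h =>
          have := ih W (by simp at hW; omega) (fun x y z hi => h x y z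
            (((hi.trans (List.suffix_cons _ _).isInfix).trans (List.suffix_cons _ _).isInfix).trans
              (List.suffix_cons _ _).isInfix))
          simp only [nl_cons_inl, nl_cons_inr, nv_cons_inl, nv_cons_inr, prs]
          omega
        | Sum.inl z :: W, hW, h =>
          have hyz : ¬ bad y z := by
            intro hyz
            apply h x y z _ ⟨hxy, hyz⟩
            exact ⟨[], W, by simp⟩
          have := ih (Sum.inl z :: W) (by simp at hW ⊢; omega) (fun x y z hi => h x y z
            ((hi.trans (List.suffix_cons _ _).isInfix).trans (List.suffix_cons _ _).isInfix))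
          have e1 : ∃ w ∈ (Sum.inl z :: W : List (Sym Γ V)).head?,
              rS (fun x y => ¬ bad x y) (Sum.inl y : Sym Γ V) w := ⟨Sum.inl z, by simp, hyz⟩
          rw [prs, prs, if_pos e1]
          simp only [nl_cons_inl, nv_cons_inl] at this ⊢
          omega
      · have := ih (Sum.inl y :: W) (by simp at hW ⊢; omega) (fun x y z hi => h x y z
          (hi.trans (List.suffix_cons _ _).isInfix))
        have e1 : ∃ w ∈ (Sum.inl y :: W : List (Sym Γ V)).head?,
            rS (fun x y => ¬ bad x y) (Sum.inl x : Sym Γ V) w := ⟨Sum.inl y, by simp, hxy⟩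
        rw [prs, if_pos e1]
        simp only [nl_cons_inl, nv_cons_inl] at this ⊢
        omega

end Pool.Agent.helper13.WE
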