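import Pool.Agent.helper13.WE.Base

/-!
# One compression step: forward and backward transfer of solutions
-/

namespace Pool.Agent.helper13.WE

open Classical

variable {Q : Type*} [Monoid Q] [StarMul Q] {Γ Δ V I : Type*}

/-- `σ` solves the system `E`. -/
def Solves (f : Γ → Γ) (σ : V → List Γ) (E : I → Bool → List (Sym Γ V)) : Prop :=
  ∀ i, ev f σ (E i false) = ev f σ (E i true)

/-- Solutions with nonempty values of prescribed types, of total length `n`. -/
structure Sol (A : Alpha Q Γ) (alive : Finset V) (q : V → Q) (E : I → Bool → List (Sym Γ V))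
    (n : ℕ) (σ : V → List Γ) : Prop where
  solves : Solves A.bar σ E
  ne : ∀ v ∈ alive, σ v ≠ []
  ty : ∀ v ∈ alive, A.μL (σ v) = q v
  len : ∑ v ∈ alive, (σ v).length = n

/-- All variables occurring in `E` are alive. -/
def OccIn (alive : Finset V) (E : I → Bool → List (Sym Γ V)) : Prop :=
  ∀ i b v, Occ (E i b) v → v ∈ alive

/-- Solutions of the second system can be transferred back. -/
def Back (A : Alpha Q Γ) (alive : Finset V) (q : V → Q) (E : I → Bool → List (Sym Γ V))
    (B : Alpha Q Δ) (alive' : Finset V) (q' : V → Q) (E' : I → Bool → List (Sym Δ V))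
    (a b : ℕ) : Prop :=
  ∀ n' τ, Sol B alive' q' E' n' τ → ∃ n σ, n ≤ a * n' + b ∧ Sol A alive q E n σ

/-- The kept variables. -/
noncomputable def kp (alive : Finset V) (keep : V → Prop) : Finset V := alive.filter keep

theorem mem_kp (alive : Finset V) (keep : V → Prop) (v : V) :
    v ∈ kp alive keep ↔ v ∈ alive ∧ keep v := by
  unfold kp; rw [Finset.mem_filter]

theorem back_of_lift (A : Alpha Q Γ) (alive : Finset V) (q : V → Q)
    (E : I → Bool → List (Sym Γ V)) (B : Alpha Q Δ) (q' : V → Q)
    (E' : I → Bool → List (Sym Δ V)) (C : ℕ) (p s : V → List Γ) (keep : V → Prop)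
    (ψ : Δ → List Γ) (hψ : ∀ c, ψ (B.bar c) = barL A.bar (ψ c))
    (hμ : ∀ c, A.μL (ψ c) = B.μ c) (hlen : ∀ c, (ψ c).length ≤ C)
    (hp : ∀ v ∈ alive, (p v).length ≤ C) (hs : ∀ v ∈ alive, (s v).length ≤ C)
    (hpn : ∀ v ∈ alive, p v ≠ [])
    (hq1 : ∀ v ∈ alive, keep v → q v = A.μL (p v) * (q' v * A.μL (s v)))
    (hq2 : ∀ v ∈ alive, ¬ keep v → q v = A.μL (p v) * A.μL (s v))
    (hE : ∀ i b, (E i b).flatMap (sb A.bar p s keep) = (E' i b).flatMap (mor ψ)) :
    Back A alive q E B (kp alive keep) q' E' C (2 * C * alive.card) := by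
  intro n' τ hτ
  set σ : V → List Γ := fun v => p v ++ ((if keep v then (τ v).flatMap ψ else []) ++ s v) with hσ
  have hflat : ∀ l : List Δ, (l.flatMap ψ).length ≤ C * l.length := by
    intro l
    induction l with
    | nil => simp
    | cons c l ih =>
      rw [List.flatMap_cons, List.length_append, List.length_cons]
      have := hlen c
      linarith
  refine ⟨∑ v ∈ alive, (σ v).length, σ, ?_, ⟨?_, ?_, ?_, rfl⟩⟩
  · have h1 : ∀ v ∈ alive, (σ v).length ≤
        (if keep v then C * (τ v).length else 0) + 2 * C := by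
      intro v hv
      have e1 := hp v hv
      have e2 := hs v hv
      have e3 := hflat (τ v)
      simp only [hσ, List.length_append]
      split
      · linarith
      · simp only [List.length_nil]; linarith
    calc ∑ v ∈ alive, (σ v).length ≤
        ∑ v ∈ alive, ((if keep v then C * (τ v).length else 0) + 2 * C) := Finset.sum_le_sum h1
      _ = C * n' + 2 * C * alive.card := by
        rw [Finset.sum_add_distrib, ← Finset.sum_filter, ← Finset.mul_sum]
        have := hτ.len
        unfold kp at this
        rw [this]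
        simp [mul_comm]
  · intro i
    have key : ∀ b, ev A.bar σ (E i b) = (ev B.bar τ (E' i b)).flatMap ψ := by
      intro b
      rw [hσ, ← ev_sb A.bar p s keep (fun v => (τ v).flatMap ψ), hE i b,
        ev_mor B.bar A.bar ψ hψ τ]
    rw [key, key, hτ.solves i]
  · intro v hv
    simp only [hσ]
    intro h
    exact hpn v hv (List.append_eq_nil_iff.mp h).1
  · intro v hv
    simp only [hσ, Alpha.μL_append]
    by_cases hk : keep v
    · rw [if_pos hk, Alpha.μL_flatMap B A ψ (τ v) (fun c _ => hμ c),
        hτ.ty v ((mem_kp alive keep v).mpr ⟨hv, hk⟩), hq1 v hv hk]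
    · rw [if_neg hk, hq2 v hv hk]
      simp

theorem Back.trans {Δ' : Type*} {A : Alpha Q Γ} {alive : Finset V} {q : V → Q}
    {E : I → Bool → List (Sym Γ V)} {B : Alpha Q Δ} {alive' : Finset V} {q' : V → Q}
    {E' : I → Bool → List (Sym Δ V)} {C : Alpha Q Δ'} {alive'' : Finset V} {q'' : V → Q}
    {E'' : I → Bool → List (Sym Δ' V)} {a b a' b' : ℕ} (h1 : Back A alive q E B alive' q' E' a b)
    (h2 : Back B alive' q' E' C alive'' q'' E'' a' b') :
    Back A alive q E C alive'' q'' E'' (a * a') (a * b' + b) := by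
  intro n'' τ hτ
  obtain ⟨n', σ', hn', hσ'⟩ := h2 n'' τ hτ
  obtain ⟨n, σ, hn, hσ⟩ := h1 n' σ' hσ'
  refine ⟨n, σ, ?_, hσ⟩
  calc n ≤ a * n' + b := hn
    _ ≤ a * (a' * n'' + b') + b := by
      have := Nat.mul_le_mul_left a hn'
      omega
    _ = _ := by ring

theorem Back.mono {A : Alpha Q Γ} {alive : Finset V} {q : V → Q}
    {E : I → Bool → List (Sym Γ V)} {B : Alpha Q Δ} {alive' : Finset V} {q' : V → Q}
    {E' : I → Bool → List (Sym Δ V)} {a b a' b' : ℕ} (h : Back A alive q E B alive' q' E' a b)
    (ha : a ≤ a') (hb : b ≤ b') : Back A alive q E B alive' q' E' a' b' := by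
  intro n' τ hτ
  obtain ⟨n, σ, hn, hσ⟩ := h n' τ hτ
  exact ⟨n, σ, hn.trans (by have := Nat.mul_le_mul_right n' ha; omega), hσ⟩

/-! ### Popping the first and the last group -/

/-- First group. -/
noncomputable def fstG (r : Γ → Γ → Prop) (l : List Γ) : List Γ := (grp r l).headD []

/-- Last group if there are at least two groups. -/
noncomputable def lstG (r : Γ → Γ → Prop) (l : List Γ) : List Γ :=
  if 2 ≤ (grp r l).length then (grp r l).getLastD [] else []

/-- Middle groups. -/
noncomputable def midG (r : Γ → Γ → Prop) (l : List Γ) : List (List Γ) := (grp r l).tail.dropLast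

/-- The middle part. -/
noncomputable def mid (r : Γ → Γ → Prop) (l : List Γ) : List Γ := (midG r l).flatten

theorem grp_cases (r : Γ → Γ → Prop) (l : List Γ) (hl : l ≠ []) :
    (grp r l = [fstG r l] ∧ lstG r l = [] ∧ midG r l = []) ∨
    (grp r l = fstG r l :: (midG r l ++ [lstG r l])) := by
  have h0 : grp r l ≠ [] := fun h => hl ((grp_eq_nil_iff r l).mp h)
  obtain ⟨g, gs, hg⟩ := List.exists_cons_of_ne_nil h0
  by_cases hgs : gs = []
  · left
    subst hgs
    simp [fstG, lstG, midG, hg]
  · right
    have h2 : 2 ≤ (grp r l).length := by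
      rw [hg]
      have := List.length_pos_of_ne_nil hgs
      simp; omega
    have e1 : fstG r l = g := by simp [fstG, hg]
    have e2 : midG r l = gs.dropLast := by simp [midG, hg]
    have e3 : lstG r l = gs.getLast hgs := by
      unfold lstG
      rw [if_pos h2, hg]
      obtain ⟨b, gs', rfl⟩ := List.exists_cons_of_ne_nil hgs
      simp [List.getLastD]
    rw [e1, e2, e3, List.dropLast_append_getLast, hg]

theorem pop_eq (r : Γ → Γ → Prop) (l : List Γ) :
    fstG r l ++ (mid r l ++ lstG r l) = l := by
  by_cases hl : l = []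
  · subst hl; simp [fstG, lstG, mid, midG, grp_nil]
  rcases grp_cases r l hl with ⟨h1, h2, h3⟩ | h
  · conv_rhs => rw [← grp_flatten r l, h1]
    simp [mid, h2, h3]
  · conv_rhs => rw [← grp_flatten r l, h]
    simp [mid]

theorem fstG_ne (r : Γ → Γ → Prop) (l : List Γ) (hl : l ≠ []) : fstG r l ≠ [] := by
  have hv := grp_valid r l
  rcases grp_cases r l hl with ⟨h1, _, _⟩ | h
  · rw [h1] at hv; exact hv.1
  · rw [h] at hv; exact hv.1

theorem fstG_chain (r : Γ → Γ → Prop) (l : List Γ) (hl : l ≠ []) : (fstG r l).IsChain r := by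
  have hv := grp_valid r l
  rcases grp_cases r l hl with ⟨h1, _, _⟩ | h
  · rw [h1] at hv; exact hv.2.1
  · rw [h] at hv; exact hv.2.1

theorem lstG_chain (r : Γ → Γ → Prop) (l : List Γ) (hl : l ≠ []) : (lstG r l).IsChain r := by
  have hv := grp_valid r l
  rcases grp_cases r l hl with ⟨_, h2, _⟩ | h
  · rw [h2]; simp
  · rw [h] at hv
    exact hv.isChain _ (by simp)

theorem mid_facts (r : Γ → Γ → Prop) (l : List Γ) (hm : mid r l ≠ []) :
    grp r (mid r l) = midG r l ∧ Bd r (fstG r l) (mid r l) ∧ Bd r (mid r l) (lstG r l) ∧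
      lstG r l ≠ [] := by
  have hl : l ≠ [] := by
    rintro rfl; exact hm rfl
  have hv := grp_valid r l
  rcases grp_cases r l hl with ⟨h1, h2, h3⟩ | h
  · exfalso; apply hm; simp [mid, h3]
  rw [h] at hv
  obtain ⟨h1, h2, h3, h4⟩ := hv
  refine ⟨grp_unique r _ h4.left, ?_, ?_, ?_⟩
  · intro x hx y hy
    refine h3 x hx y ?_
    rw [List.flatten_append]
    change y ∈ (mid r l ++ _).head?
    rw [List.head?_append_of_ne_nil _ hm]
    exact hy
  · have := h4.bd
    simpa [mid] using this
  · exact h4.right.1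

theorem length_mid_lt (r : Γ → Γ → Prop) (l : List Γ) (hl : l ≠ []) :
    (mid r l).length < l.length := by
  have h := congrArg List.length (pop_eq r l)
  have h2 := List.length_pos_of_ne_nil (fstG_ne r l hl)
  simp only [List.length_append] at h
  omega

theorem tok_mid (f : Γ → Γ) (r : Γ → Γ → Prop) (l : List Γ) :
    tok f r (mid r l) = (midG r l).flatMap (code f) := by
  by_cases hm : mid r l = []
  · rw [hm, tok_nil]
    have : midG r l = [] := by
      by_cases hl : l = []
      · subst hl; rfl
      have hv := grp_valid r l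
      rcases grp_cases r l hl with ⟨h1, h2, h3⟩ | h
      · exact h3
      · rw [h] at hv
        have h4 := hv.2.2.2
        cases hmg : midG r l with
        | nil => rfl
        | cons g gs =>
          rw [hmg] at h4
          have := h4.1
          simp only [mid, hmg, List.flatten_cons] at hm
          exact absurd (List.append_eq_nil_iff.mp hm).1 this
    rw [this]; rfl
  · unfold tok
    rw [(mid_facts r l hm).1]

theorem isChain_flatMap_of {α β : Type*} (P : β → β → Prop) (e : α → List β) (W : List α)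
    (h1 : ∀ y ∈ W, (e y).IsChain P) (h2 : ∀ y ∈ W, e y ≠ [])
    (h3 : ∀ y ∈ W, ∀ z ∈ W, ∀ a ∈ (e y).getLast?, ∀ b ∈ (e z).head?, P a b) :
    (W.flatMap e).IsChain P := by
  induction W with
  | nil => simp
  | cons y W ih =>
    rw [List.flatMap_cons, List.isChain_append]
    refine ⟨h1 y (by simp), ih (fun z hz => h1 z (by simp [hz])) (fun z hz => h2 z (by simp [hz]))
      (fun z hz w hw => h3 z (by simp [hz]) w (by simp [hw])), ?_⟩
    intro a ha b hb
    cases W with
    | nil => simp at hb
    | cons z W =>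
      rw [List.flatMap_cons, List.head?_append_of_ne_nil _ (h2 z (by simp))] at hb
      exact h3 y (by simp) z (by simp) a ha b hb

/-- A symbol is a letter. -/
def IsL (y : Sym Γ V) : Prop := ∃ c, y = Sum.inl c

theorem head?_map_inl (g : List Γ) (y : Sym Γ V) (hy : y ∈ (g.map Sum.inl : List (Sym Γ V)).head?) :
    ∃ c ∈ g.head?, y = Sum.inl c := by
  rw [List.head?_map] at hy
  obtain ⟨c, hc, rfl⟩ := Option.map_eq_some_iff.mp hy
  exact ⟨c, hc, rfl⟩

theorem getLast?_map_inl (g : List Γ) (y : Sym Γ V)
    (hy : y ∈ (g.map Sum.inl : List (Sym Γ V)).getLast?) :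
    ∃ c ∈ g.getLast?, y = Sum.inl c := by
  rw [List.getLast?_map] at hy
  obtain ⟨c, hc, rfl⟩ := Option.map_eq_some_iff.mp hy
  exact ⟨c, hc, rfl⟩

section Popped

variable (f : Γ → Γ) (r : Γ → Γ → Prop) (σ : V → List Γ)

/-- The substitution popping first and last groups. -/
noncomputable def sbG : Sym Γ V → List (Sym Γ V) :=
  sb f (fun v => fstG r (σ v)) (fun v => lstG r (σ v)) (fun v => mid r (σ v) ≠ [])

theorem isChain_letters (σ' : V → List Γ) (g : List Γ) : (g.map Sum.inl : List (Sym Γ V)).IsChain
    (fun a b => ¬ rS r a b → Bd r (evs f σ' a) (evs f σ' b)) := by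
  rw [List.isChain_map]
  have : ∀ a b : Γ, (¬ rS (V := V) r (Sum.inl a) (Sum.inl b) →
      Bd r (evs f σ' (Sum.inl a : Sym Γ V)) (evs f σ' (Sum.inl b))) := by
    intro a b h
    simp only [evs, Bd, List.getLast?_singleton, List.head?_cons]
    intro x hx y hy
    rw [Option.mem_def, Option.some_inj] at hx hy
    subst hx; subst hy
    exact h
  induction g with
  | nil => simp
  | cons a g ih =>
    rw [List.isChain_cons]
    exact ⟨fun y _ => this a y, ih⟩

theorem sbG_facts (hf : ∀ a, f (f a) = a) (hr : ∀ x y, r (f y) (f x) ↔ r x y) (y : Sym Γ V)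
    (hy : ∀ v b, y = Sum.inr (v, b) → σ v ≠ []) :
    (sbG f r σ y).IsChain (fun a b => ¬ rS r a b →
      Bd r (evs f (fun v => mid r (σ v)) a) (evs f (fun v => mid r (σ v)) b)) ∧
    sbG f r σ y ≠ [] ∧ (∀ a ∈ (sbG f r σ y).getLast?, IsL a) ∧
    (∀ a ∈ (sbG f r σ y).head?, IsL a) ∧
    (∀ a ∈ sbG f r σ y, evs f (fun v => mid r (σ v)) a ≠ []) := by
  match y, hy with
  | Sum.inl c, _ =>
    refine ⟨by simp [sbG, sb], by simp [sbG, sb], ?_, ?_, ?_⟩
    · intro a ha; simp [sbG, sb] at ha; exact ⟨c, ha.symm⟩
    · intro a ha; simp [sbG, sb] at ha; exact ⟨c, ha.symm⟩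
    · intro a ha; simp [sbG, sb] at ha; subst ha; simp [evs]
  | Sum.inr (v, b), hy =>
    have hv : σ v ≠ [] := hy v b rfl
    have hp := fstG_ne r (σ v) hv
    by_cases hm : mid r (σ v) = []
    · -- eliminated variable
      have e : sbG f r σ (Sum.inr (v, b)) = (if b then barL f (lstG r (σ v)) ++
          barL f (fstG r (σ v)) else fstG r (σ v) ++ lstG r (σ v)).map Sum.inl := by
        cases b <;> simp [sbG, sb, hm]
      have hne : (if b then barL f (lstG r (σ v)) ++
          barL f (fstG r (σ v)) else fstG r (σ v) ++ lstG r (σ v)) ≠ [] := by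
        cases b
        · simp [hp]
        · simp [barL_eq_nil, hp]
      rw [e]
      refine ⟨isChain_letters f r _ _, by simpa using hne, ?_, ?_, ?_⟩
      · intro a ha
        obtain ⟨c, _, hc⟩ := getLast?_map_inl _ _ ha
        exact ⟨c, hc⟩
      · intro a ha
        obtain ⟨c, _, hc⟩ := head?_map_inl _ _ ha
        exact ⟨c, hc⟩
      · intro a ha
        obtain ⟨c, _, rfl⟩ := List.mem_map.mp ha
        simp [evs]
    · obtain ⟨_, hb1, hb2, hs⟩ := mid_facts r (σ v) hm
      -- uniform treatment of both orientations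
      have key : ∀ (u m w : List Γ) (x : Sym Γ V), u ≠ [] → w ≠ [] → m ≠ [] → Bd r u m →
          Bd r m w → (¬ IsL x) → evs f (fun v => mid r (σ v)) x = m →
          ((u.map Sum.inl ++ ([x] ++ w.map Sum.inl) : List (Sym Γ V)).IsChain
            (fun a b => ¬ rS r a b → Bd r (evs f (fun v => mid r (σ v)) a)
              (evs f (fun v => mid r (σ v)) b)) ∧
          (u.map Sum.inl ++ ([x] ++ w.map Sum.inl) : List (Sym Γ V)) ≠ [] ∧
          (∀ a ∈ (u.map Sum.inl ++ ([x] ++ w.map Sum.inl) : List (Sym Γ V)).getLast?, IsL a) ∧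
          (∀ a ∈ (u.map Sum.inl ++ ([x] ++ w.map Sum.inl) : List (Sym Γ V)).head?, IsL a) ∧
          (∀ a ∈ (u.map Sum.inl ++ ([x] ++ w.map Sum.inl) : List (Sym Γ V)),
            evs f (fun v => mid r (σ v)) a ≠ [])) := by
        intro u m w x hu hw hm hum hmw hx hxe
        have hu' : (u.map Sum.inl : List (Sym Γ V)) ≠ [] := by simpa using hu
        have hw' : (w.map Sum.inl : List (Sym Γ V)) ≠ [] := by simpa using hw
        refine ⟨?_, by simp, ?_, ?_, ?_⟩
        · rw [List.isChain_append]
          refine ⟨isChain_letters f r _ _, ?_, ?_⟩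
          · rw [List.isChain_append]
            refine ⟨by simp, isChain_letters f r _ _, ?_⟩
            intro a ha b hb _
            obtain ⟨c, hc, rfl⟩ := head?_map_inl _ _ hb
            simp only [List.getLast?_singleton, Option.mem_def, Option.some.injEq] at ha
            subst ha
            rw [hxe]
            intro y hy z hz
            simp only [evs, List.head?_cons, Option.mem_def, Option.some.injEq] at hz
            subst hz
            exact hmw y hy c hc
          · intro a ha b hb _
            obtain ⟨c, hc, rfl⟩ := getLast?_map_inl _ _ ha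
            simp only [List.cons_append, List.nil_append, List.head?_cons, Option.mem_def,
              Option.some.injEq] at hb
            subst hb
            rw [hxe]
            intro y hy z hz
            simp only [evs, List.getLast?_singleton, Option.mem_def, Option.some.injEq] at hy
            subst hy
            exact hum c hc z hz
        · intro a ha
          rw [List.getLast?_append_of_ne_nil _ (by simp), List.getLast?_append_of_ne_nil _ hw'] at ha
          obtain ⟨c, _, hc⟩ := getLast?_map_inl _ _ ha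
          exact ⟨c, hc⟩
        · intro a ha
          rw [List.head?_append_of_ne_nil _ hu'] at ha
          obtain ⟨c, _, hc⟩ := head?_map_inl _ _ ha
          exact ⟨c, hc⟩
        · intro a ha
          simp only [List.mem_append, List.mem_map, List.mem_singleton] at ha
          rcases ha with ⟨c, _, rfl⟩ | rfl | ⟨c, _, rfl⟩
          · simp [evs]
          · rw [hxe]; exact hm
          · simp [evs]
      have hxL : ∀ x : V × Bool, ¬ IsL (Sum.inr x : Sym Γ V) := by
        rintro x ⟨c, hc⟩; simp at hc
      match b with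
      | false =>
        have e : sbG f r σ (Sum.inr (v, false)) = (fstG r (σ v)).map Sum.inl ++
            ([Sum.inr (v, false)] ++ (lstG r (σ v)).map Sum.inl) := by
          simp [sbG, sb, hm]
        rw [e]
        exact key _ _ _ _ hp hs hm hb1 hb2 (hxL _) rfl
      | true =>
        have e : sbG f r σ (Sum.inr (v, true)) = (barL f (lstG r (σ v))).map Sum.inl ++
            ([Sum.inr (v, true)] ++ (barL f (fstG r (σ v))).map Sum.inl) := by
          simp [sbG, sb, hm]
        rw [e]
        refine key _ (barL f (mid r (σ v))) _ _ ?_ ?_ ?_ ?_ ?_ (hxL _) rfl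
        · rw [ne_eq, barL_eq_nil]; exact hs
        · rw [ne_eq, barL_eq_nil]; exact hp
        · rw [ne_eq, barL_eq_nil]; exact hm
        · rw [Bd_barL f r hr]; exact hb2
        · rw [Bd_barL f r hr]; exact hb1

/-- The compressed system. -/
noncomputable def stepE (E : I → Bool → List (Sym Γ V)) : I → Bool → List (Sym (Tok Γ) V) :=
  fun i b => tokS f r ((E i b).flatMap (sbG f r σ))

/-- The compressed solution. -/
noncomputable def stepσ : V → List (Tok Γ) := fun v => tok f r (mid r (σ v))

theorem ev_stepE (hf : ∀ a, f (f a) = a) (hr : ∀ x y, r (f y) (f x) ↔ r x y)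
    (E : I → Bool → List (Sym Γ V)) (hE : ∀ i b v, Occ (E i b) v → σ v ≠ []) (i : I) (b : Bool) :
    ev (barT f) (stepσ f r σ) (stepE f r σ E i b) = tok f r (ev f σ (E i b)) := by
  have hocc : ∀ y ∈ E i b, ∀ v b', y = Sum.inr (v, b') → σ v ≠ [] := by
    intro y hy v b' e
    subst e
    exact hE i b v ⟨b', hy⟩
  have h1 : ∀ y ∈ (E i b).flatMap (sbG f r σ), evs f (fun v => mid r (σ v)) y ≠ [] := by
    intro y hy
    obtain ⟨z, hz, hyz⟩ := List.mem_flatMap.mp hy
    exact (sbG_facts f r σ hf hr z (hocc z hz)).2.2.2.2 y hyz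
  have h2 : ((E i b).flatMap (sbG f r σ)).IsChain (fun a b => ¬ rS r a b →
      Bd r (evs f (fun v => mid r (σ v)) a) (evs f (fun v => mid r (σ v)) b)) := by
    apply isChain_flatMap_of
    · exact fun y hy => (sbG_facts f r σ hf hr y (hocc y hy)).1
    · exact fun y hy => (sbG_facts f r σ hf hr y (hocc y hy)).2.1
    · intro y hy z hz a ha b hb
      obtain ⟨c, rfl⟩ := (sbG_facts f r σ hf hr y (hocc y hy)).2.2.1 a ha
      obtain ⟨d, rfl⟩ := (sbG_facts f r σ hf hr z (hocc z hz)).2.2.2.1 b hb
      intro h
      intro x hx y hy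
      simp only [evs, List.getLast?_singleton, List.head?_cons, Option.mem_def,
        Option.some.injEq] at hx hy
      subst hx; subst hy
      exact h
  have h3 := ev_tokS f hf r hr (fun v => mid r (σ v)) _ h1 h2
  unfold stepE stepσ
  rw [h3]
  congr 1
  unfold sbG
  rw [ev_sb]
  apply ev_congr
  intro v _
  by_cases hm : mid r (σ v) = []
  · rw [if_neg (not_not.mpr hm)]
    have := pop_eq r (σ v)
    rwa [hm] at this
  · rw [if_pos hm]
    exact pop_eq r (σ v)

theorem step_solves (hf : ∀ a, f (f a) = a) (hr : ∀ x y, r (f y) (f x) ↔ r x y)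
    (E : I → Bool → List (Sym Γ V)) (hE : ∀ i b v, Occ (E i b) v → σ v ≠ [])
    (hs : Solves f σ E) : Solves (barT f) (stepσ f r σ) (stepE f r σ E) := by
  intro i
  rw [ev_stepE f r σ hf hr E hE, ev_stepE f r σ hf hr E hE, hs i]

end Popped

end Pool.Agent.helper13.WE
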