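import Pool.Agent.helper13.WE.Canon

/-!
# Bounded solutions of word equations with involution and types
-/

namespace Pool.Agent.helper13.WE

open Classical

variable {Q : Type} [Monoid Q] [StarMul Q] {Γ : Type}

/-- The involution of the extended alphabet. -/
def topBar (f : Γ → Γ) : Γ ⊕ (Q × Bool) → Γ ⊕ (Q × Bool)
  | Sum.inl c => Sum.inl (f c)
  | Sum.inr (q, b) => Sum.inr (q, !b)

/-- The types of the extended alphabet. -/
def topμ (μ : Γ → Q) : Γ ⊕ (Q × Bool) → Q
  | Sum.inl c => μ c
  | Sum.inr (q, true) => q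
  | Sum.inr (q, false) => star q

/-- The extended alphabet. -/
def topA (f : Γ → Γ) (hf : ∀ c, f (f c) = c) (hne : ∀ c, f c ≠ c) (μ : Γ → Q)
    (hμ : ∀ c, μ (f c) = star (μ c)) : Alpha Q (Γ ⊕ (Q × Bool)) where
  bar := topBar f
  bar_bar := by
    rintro (c | ⟨q, b⟩) <;> simp [topBar, hf]
  bar_ne := by
    rintro (c | ⟨q, b⟩)
    · simp [topBar, hne]
    · cases b <;> simp [topBar]
  μ := topμ μ
  μ_bar := by
    rintro (c | ⟨q, b⟩)
    · simp [topBar, topμ, hμ]
    · cases b <;> simp [topBar, topμ]
  full q := ⟨Sum.inr (q, true), rfl⟩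

/-- Expansion of the additional letters. -/
def topH (f : Γ → Γ) (wq : Q → List Γ) : Γ ⊕ (Q × Bool) → List Γ
  | Sum.inl c => [c]
  | Sum.inr (q, true) => wq q
  | Sum.inr (q, false) => barL f (wq q)

theorem nl_sb_nil {V : Type} (f : Γ → Γ) (keep : V → Prop) (W : List (Sym Γ V)) :
    nl (W.flatMap (sb f (fun _ => []) (fun _ => []) keep)) = nl W := by
  induction W with
  | nil => rfl
  | cons y W ih =>
    rw [List.flatMap_cons, nl_append, ih]
    match y with
    | Sum.inl c => simp [sb]; omega
    | Sum.inr (v, false) => simp only [sb]; split <;> simp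
    | Sum.inr (v, true) => simp only [sb]; split <;> simp

theorem nv_sb_nil {V : Type} (f : Γ → Γ) (keep : V → Prop) (W : List (Sym Γ V)) :
    nv (W.flatMap (sb f (fun _ => []) (fun _ => []) keep)) ≤ nv W := by
  induction W with
  | nil => simp
  | cons y W ih =>
    rw [List.flatMap_cons, nv_append]
    match y with
    | Sum.inl c => simp [sb]; omega
    | Sum.inr (v, false) => simp only [sb]; split <;> simp <;> omega
    | Sum.inr (v, true) => simp only [sb]; split <;> simp <;> omega

theorem occ_sb_nil {V : Type} (f : Γ → Γ) (keep : V → Prop) (W : List (Sym Γ V)) (v : V)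
    (h : Occ (W.flatMap (sb f (fun _ => []) (fun _ => []) keep)) v) : keep v := by
  obtain ⟨b, hb⟩ := h
  obtain ⟨y, _, hy⟩ := List.mem_flatMap.mp hb
  match y, hy with
  | Sum.inl c, hy => simp [sb] at hy
  | Sum.inr (w, false), hy =>
    simp only [sb, List.map_nil, List.nil_append, List.append_nil] at hy
    split at hy
    · rename_i hk
      simp at hy
      rw [hy.1]; exact hk
    · simp at hy
  | Sum.inr (w, true), hy =>
    simp only [sb, barL_nil, List.map_nil, List.nil_append, List.append_nil] at hy
    split at hy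
    · rename_i hk
      simp at hy
      rw [hy.1]; exact hk
    · simp at hy

theorem top_bound [Finite Q] (f : Γ → Γ) (hf : ∀ c, f (f c) = c) (hne : ∀ c, f c ≠ c)
    (μ : Γ → Q) (hμ : ∀ c, μ (f c) = star (μ c)) (hsurj : ∀ q, ∃ w : List Γ, (w.map μ).prod = q) :
    ∃ t₀ p₀ cq C : ℕ, ∀ (V I : Type) (_ : Fintype V) (_ : Fintype I)
      (E : I → Bool → List (Sym Γ V)) (N M : ℕ) (_ : NL E ≤ N) (_ : NV E ≤ M)
      (_ : 60 * M + 4 * Fintype.card I ≤ N) (σ : V → List Γ) (_ : Solves f σ E),
      ∃ σ' : V → List Γ, Solves f σ' E ∧ (∀ v, ((σ' v).map μ).prod = ((σ v).map μ).prod) ∧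
        ∀ v, (σ' v).length ≤ C * mB t₀ p₀ cq (Fintype.card V) (Fintype.card I) N M := by
  have : Fintype Q := Fintype.ofFinite Q
  obtain ⟨t₀', p₀, hp₀, hQ'⟩ := exists_period (Q := Q)
  obtain ⟨t₀, ht₀, hQ⟩ : ∃ t₀ : ℕ, 1 ≤ t₀ ∧ ∀ (x : Q) n, t₀ ≤ n → x ^ (n + p₀) = x ^ n :=
    ⟨t₀' + 1, by omega, fun x n hn => hQ' x n (by omega)⟩
  choose wq hwq using hsurj
  set C : ℕ := (∑ q : Q, (wq q).length) + 1 with hC
  have hwlen : ∀ q, (wq q).length ≤ C := by
    intro q
    have := Finset.single_le_sum (f := fun q : Q => (wq q).length) (fun _ _ => Nat.zero_le _)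
      (Finset.mem_univ q)
    omega
  refine ⟨t₀, p₀, Fintype.card Q, C, ?_⟩
  intro V I _ _ E N M hN hM hNM σ hσ
  set A := topA f hf hne μ hμ with hA
  set keep : V → Prop := fun v => σ v ≠ [] with hkeep
  set alive : Finset V := kp Finset.univ keep with halive
  have hmem : ∀ v, v ∈ alive ↔ σ v ≠ [] := by
    intro v
    rw [halive, mem_kp]
    simp [hkeep]
  set q : V → Q := fun v => ((σ v).map μ).prod with hq
  set E0 : I → Bool → List (Sym Γ V) := fun i b =>
    (E i b).flatMap (sb f (fun _ => []) (fun _ => []) keep) with hE0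
  set E1 : I → Bool → List (Sym (Γ ⊕ (Q × Bool)) V) := fun i b =>
    (E0 i b).map (Sum.map Sum.inl id) with hE1
  -- general evaluation
  have hev0 : ∀ (τ : V → List Γ), (∀ v, ¬ keep v → τ v = []) → ∀ i b,
      ev f τ (E0 i b) = ev f τ (E i b) := by
    intro τ hτ i b
    simp only [hE0]
    rw [ev_sb]
    apply ev_congr
    intro v _
    by_cases hk : keep v
    · simp [hk]
    · simp [hk, hτ v hk]
  set τ1 : V → List (Γ ⊕ (Q × Bool)) := fun v => (σ v).flatMap (fun c => [Sum.inl c]) with hτ1
  have hsol1 : Sol A alive q E1 (∑ v ∈ alive, (τ1 v).length) τ1 := by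
    refine ⟨?_, ?_, ?_, rfl⟩
    · intro i
      have key : ∀ b, ev A.bar τ1 (E1 i b) = (ev f σ (E i b)).flatMap (fun c => [Sum.inl c]) := by
        intro b
        rw [← hev0 σ (fun v hv => not_not.mp hv) i b]
        simp only [hE1, hτ1]
        rw [← flatMap_mor_single]
        exact ev_mor f A.bar (fun c => [Sum.inl c]) (fun c => by simp [barL, hA, topA, topBar]) σ _
      rw [key, key, hσ i]
    · intro v hv
      rw [hmem] at hv
      obtain ⟨c, l, hcl⟩ := List.exists_cons_of_ne_nil hv
      simp [hτ1, hcl]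
    · intro v _
      simp only [hτ1, hq]
      generalize σ v = l
      induction l with
      | nil => rfl
      | cons c l ih =>
        rw [List.flatMap_cons, Alpha.μL_append, ih, List.map_cons, List.prod_cons,
          Alpha.μL_singleton]
        rfl
  have hocc1 : OccIn alive E1 := by
    intro i b v hv
    rw [hmem]
    simp only [hE1] at hv
    rw [occ_map] at hv
    exact occ_sb_nil f keep _ v hv
  have hNL1 : NL E1 ≤ N := by
    refine le_trans (le_of_eq ?_) hN
    unfold NL
    apply Finset.sum_congr rfl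
    intro ib _
    simp only [hE1, hE0]
    rw [nl_map, nl_sb_nil]
  have hNV1 : NV E1 ≤ M := by
    refine le_trans ?_ hM
    unfold NV
    apply Finset.sum_le_sum
    intro ib _
    simp only [hE1, hE0]
    rw [nv_map]
    exact nv_sb_nil f keep _
  obtain ⟨m, E', e1, e2, e3, e4, e5⟩ := canon A alive q E1 N hNL1
  have hgood : (⟨alive, q, m, E'⟩ : CSys Q V I N).Good M := by
    refine ⟨?_, ?_, ?_⟩
    · intro i b v hv
      exact hocc1 i b v ((e3 i b v).mp hv)
    · change NL E' ≤ N
      rw [e1]; exact hNL1
    · change NV E' ≤ M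
      rw [e2]; exact hNV1
  obtain ⟨n', hn', τ', hτ'⟩ := main_bound ht₀ hp₀ hQ hNM (⟨alive, q, m, E'⟩ : CSys Q V I N) hgood
    _ (e4 _ _ hsol1)
  obtain ⟨τ, hτ⟩ := e5 n' τ' hτ'
  -- expansion
  set h := topH f wq with hh
  have hhbar : ∀ c, h (A.bar c) = barL f (h c) := by
    rintro (c | ⟨x, b⟩)
    · simp [hh, hA, topA, topBar, topH, barL]
    · cases b
      · simp only [hh, hA, topA, topBar, topH, Bool.not_false]
        rw [barL_barL f hf]
      · simp only [hh, hA, topA, topBar, topH, Bool.not_true]
  have hbarμ : ∀ l : List Γ, ((barL f l).map μ).prod = star ((l.map μ).prod) := by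
    intro l
    induction l with
    | nil => simp
    | cons c l ih => rw [barL_cons, List.map_append, List.prod_append, ih]; simp [hμ]
  have hhμ : ∀ c, ((h c).map μ).prod = A.μ c := by
    rintro (c | ⟨x, b⟩)
    · simp [hh, hA, topA, topμ, topH]
    · cases b
      · simp only [hh, topH]
        rw [hbarμ, hwq]; rfl
      · simp only [hh, topH]
        rw [hwq]; rfl
  have hhlen : ∀ c, (h c).length ≤ C := by
    rintro (c | ⟨x, b⟩)
    · simp [hh, topH, hC]
    · cases b
      · simp only [hh, topH, length_barL]; exact hwlen x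
      · simp only [hh, topH]; exact hwlen x
  have hflatμ : ∀ l : List (Γ ⊕ (Q × Bool)), ((l.flatMap h).map μ).prod = A.μL l := by
    intro l
    induction l with
    | nil => rfl
    | cons c l ih =>
      rw [List.flatMap_cons, List.map_append, List.prod_append, ih, hhμ, Alpha.μL_cons]
  have hflatlen : ∀ l : List (Γ ⊕ (Q × Bool)), (l.flatMap h).length ≤ C * l.length := by
    intro l
    induction l with
    | nil => simp
    | cons c l ih =>
      rw [List.flatMap_cons, List.length_append, List.length_cons]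
      have := hhlen c
      linarith
  set σ' : V → List Γ := fun v => if keep v then (τ v).flatMap h else [] with hσ'
  refine ⟨σ', ?_, ?_, ?_⟩
  · intro i
    have key : ∀ b, ev f σ' (E i b) = (ev A.bar τ (E1 i b)).flatMap h := by
      intro b
      rw [← hev0 σ' (fun v hv => by simp [hσ', hv]) i b]
      rw [← ev_mor A.bar f h hhbar τ]
      have h1 : (E1 i b).flatMap (mor h) = E0 i b := by
        simp only [hE1]
        generalize E0 i b = W
        induction W with
        | nil => rfl
        | cons y W ih =>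
          rw [List.map_cons, List.flatMap_cons, ih]
          match y with
          | Sum.inl c => rfl
          | Sum.inr x => rfl
      rw [h1]
      apply ev_congr
      intro v hv
      have hk : keep v := occ_sb_nil f keep _ v hv
      simp only [hσ']
      rw [if_pos hk]
    rw [key, key, hτ.solves i]
  · intro v
    by_cases hk : keep v
    · simp only [hσ']
      rw [if_pos hk, hflatμ]
      exact hτ.ty v ((hmem v).mpr hk)
    · have : σ v = [] := not_not.mp hk
      simp only [hσ']
      rw [if_neg hk, this]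
  · intro v
    by_cases hk : keep v
    · simp only [hσ']
      rw [if_pos hk]
      refine (hflatlen _).trans ?_
      apply Nat.mul_le_mul_left
      have h1 : (τ v).length ≤ ∑ v ∈ alive, (τ v).length :=
        Finset.single_le_sum (f := fun v => (τ v).length) (fun _ _ => Nat.zero_le _)
          ((hmem v).mpr hk)
      rw [hτ.len] at h1
      exact h1.trans hn'
    · simp only [hσ']
      rw [if_neg hk]
      simp

end Pool.Agent.helper13.WE
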